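import Pool.Agent.H95R2.Leh.Defs

set_option autoImplicit false

/-! Module FAREY: spacing of the fractions `φ(Q)/Q`. -/

namespace Pool.Agent.H95R2.Leh

open Finset

theorem farey_sep {Q Q' : ℕ} (h0 : 1 ≤ Q) (h0' : 1 ≤ Q')
    (hc : Nat.Coprime Q (Nat.totient Q)) (hc' : Nat.Coprime Q' (Nat.totient Q')) (hne : Q ≠ Q') :
    1 ≤ |(Nat.totient Q : ℝ) / Q - (Nat.totient Q' : ℝ) / Q'| * (Q * Q') := by
  have hQ : (0 : ℝ) < Q := by exact_mod_cast h0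
  have hQ' : (0 : ℝ) < Q' := by exact_mod_cast h0'
  have h1 : ((Nat.totient Q : ℝ) / Q - (Nat.totient Q' : ℝ) / Q') * (Q * Q') =
      (((Nat.totient Q : ℤ) * Q' - (Nat.totient Q' : ℤ) * Q : ℤ) : ℝ) := by
    push_cast
    field_simp
  have h2 : |(Nat.totient Q : ℝ) / Q - (Nat.totient Q' : ℝ) / Q'| * (Q * Q') =
      |(((Nat.totient Q : ℤ) * Q' - (Nat.totient Q' : ℤ) * Q : ℤ) : ℝ)| := by
    rw [← h1, abs_mul, abs_of_pos (mul_pos hQ hQ')]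
  rw [h2]
  have h3 : ((Nat.totient Q : ℤ) * Q' - (Nat.totient Q' : ℤ) * Q : ℤ) ≠ 0 := by
    intro h
    have h4 : Nat.totient Q * Q' = Nat.totient Q' * Q := by
      have : ((Nat.totient Q * Q' : ℕ) : ℤ) = ((Nat.totient Q' * Q : ℕ) : ℤ) := by
        push_cast
        linarith
      exact_mod_cast this
    apply hne
    apply Nat.dvd_antisymm
    · have : Q ∣ Nat.totient Q * Q' := h4 ▸ Dvd.intro_left _ rfl
      exact hc.dvd_of_dvd_mul_left this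
    · have : Q' ∣ Nat.totient Q' * Q := h4 ▸ Dvd.intro_left _ rfl
      exact hc'.dvd_of_dvd_mul_left this
  have h5 : (1 : ℤ) ≤ |((Nat.totient Q : ℤ) * Q' - (Nat.totient Q' : ℤ) * Q : ℤ)| :=
    Int.one_le_abs h3
  exact_mod_cast h5

theorem farey_near {k N Q : ℕ} {η : ℝ} (hN : 0 < N)
    (hk : (N : ℝ) ≤ 2 * (k * Nat.totient N)) (h0 : 1 ≤ Q) (hQ : Near k N η Q) :
    |(Nat.totient Q : ℝ) / Q - N / (k * Nat.totient N)| ≤ 2 * η := by
  have hQ0 : (0 : ℝ) < Q := by exact_mod_cast h0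
  have hN0 : (0 : ℝ) < N := by exact_mod_cast hN
  have hkN : (0 : ℝ) < k * Nat.totient N := by linarith
  obtain ⟨_, h⟩ := hQ
  have hη : 0 ≤ η := by
    by_contra hcon
    push Not at hcon
    have h1 : η * (N * Q) < 0 := mul_neg_of_neg_of_pos hcon (by positivity)
    have h2 := abs_nonneg ((k : ℝ) * Nat.totient N * Nat.totient Q - N * Q)
    linarith
  have h1 : ((Nat.totient Q : ℝ) / Q - N / (k * Nat.totient N)) =
      ((k : ℝ) * Nat.totient N * Nat.totient Q - N * Q) / (Q * (k * Nat.totient N)) := by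
    rw [div_sub_div _ _ hQ0.ne' hkN.ne']
    congr 1
    ring
  rw [h1, abs_div, abs_of_pos (mul_pos hQ0 hkN), div_le_iff₀ (mul_pos hQ0 hkN)]
  calc |(k : ℝ) * Nat.totient N * Nat.totient Q - N * Q| ≤ η * (N * Q) := h
    _ ≤ η * ((2 * (k * Nat.totient N)) * Q) := by gcongr
    _ = _ := by ring

theorem farey_unique {k N Q Q' : ℕ} {η z : ℝ} (hN : 0 < N)
    (hk : (N : ℝ) ≤ 2 * (k * Nat.totient N)) (hη : 0 < η) (hz : 4 * η * z ^ 2 < 1)
    (h0 : 1 ≤ Q) (h0' : 1 ≤ Q') (hQ : Near k N η Q) (hQ' : Near k N η Q')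
    (h1 : (Q : ℝ) ≤ z) (h2 : (Q' : ℝ) ≤ z) : Q = Q' := by
  by_contra hne
  have hQ0 : (0 : ℝ) < Q := by exact_mod_cast h0
  have hQ0' : (0 : ℝ) < Q' := by exact_mod_cast h0'
  have e1 := farey_sep h0 h0' hQ.1 hQ'.1 hne
  have e2 := farey_near hN hk h0 hQ
  have e3 := farey_near hN hk h0' hQ'
  have e4 : |(Nat.totient Q : ℝ) / Q - (Nat.totient Q' : ℝ) / Q'| ≤ 4 * η := by
    rw [abs_le] at *
    constructor <;> linarith [e2.1, e2.2, e3.1, e3.2]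
  have e5 : |(Nat.totient Q : ℝ) / Q - (Nat.totient Q' : ℝ) / Q'| * (Q * Q') ≤
      4 * η * (z * z) := by
    have hz0 : 0 ≤ z := by linarith
    gcongr
  nlinarith

theorem farey_count {k N : ℕ} {η Y : ℝ} (hN : 0 < N)
    (hk : (N : ℝ) ≤ 2 * (k * Nat.totient N)) (hη : 0 < η) (hY : 1 ≤ Y) (S : Finset ℕ)
    (hS : ∀ Q ∈ S, 1 ≤ Q ∧ (Q : ℝ) ≤ Y ∧ Near k N η Q) :
    (S.card : ℝ) ≤ 1 + 4 * η * Y ^ 2 := by
  have hY0 : 0 < Y := by linarith
  set c : ℝ := N / (k * Nat.totient N) - 2 * η with hc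
  have hb : ∀ Q ∈ S, 0 ≤ ((Nat.totient Q : ℝ) / Q - c) * Y ^ 2 ∧
      ((Nat.totient Q : ℝ) / Q - c) * Y ^ 2 ≤ 4 * η * Y ^ 2 := by
    intro Q hQ
    obtain ⟨h0, h1, h2⟩ := hS Q hQ
    have e2 := abs_le.1 (farey_near hN hk h0 h2)
    constructor
    · have : 0 ≤ (Nat.totient Q : ℝ) / Q - c := by rw [hc]; linarith [e2.1]
      positivity
    · have : (Nat.totient Q : ℝ) / Q - c ≤ 4 * η := by rw [hc]; linarith [e2.2]
      gcongr
  have hinj : Set.InjOn (fun Q : ℕ => ⌊((Nat.totient Q : ℝ) / Q - c) * Y ^ 2⌋₊) S := by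
    intro Q hQ Q' hQ' heq
    by_contra hne
    obtain ⟨h0, h1, h2⟩ := hS Q hQ
    obtain ⟨h0', h1', h2'⟩ := hS Q' hQ'
    have e1 := farey_sep h0 h0' h2.1 h2'.1 hne
    simp only at heq
    have f1 := Nat.floor_le (hb Q hQ).1
    have f2 := Nat.lt_floor_add_one (((Nat.totient Q : ℝ) / Q - c) * Y ^ 2)
    have f1' := Nat.floor_le (hb Q' hQ').1
    have f2' := Nat.lt_floor_add_one (((Nat.totient Q' : ℝ) / Q' - c) * Y ^ 2)
    rw [heq] at f1 f2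
    have e3 : |(Nat.totient Q : ℝ) / Q - (Nat.totient Q' : ℝ) / Q'| * Y ^ 2 < 1 := by
      rw [← abs_of_pos (by positivity : 0 < Y ^ 2), ← abs_mul, abs_lt]
      constructor <;> nlinarith
    have hQ0 : (0 : ℝ) < Q := by exact_mod_cast h0
    have hQ0' : (0 : ℝ) < Q' := by exact_mod_cast h0'
    have e4 : |(Nat.totient Q : ℝ) / Q - (Nat.totient Q' : ℝ) / Q'| * (Q * Q') ≤
        |(Nat.totient Q : ℝ) / Q - (Nat.totient Q' : ℝ) / Q'| * (Y * Y) := by gcongr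
    nlinarith
  have hmaps : ∀ Q ∈ S, ⌊((Nat.totient Q : ℝ) / Q - c) * Y ^ 2⌋₊ ∈
      Finset.range (⌊4 * η * Y ^ 2⌋₊ + 1) := by
    intro Q hQ
    rw [Finset.mem_range, Nat.lt_succ_iff]
    exact Nat.floor_le_floor (hb Q hQ).2
  have hcard := Finset.card_le_card_of_injOn _ hmaps hinj
  rw [Finset.card_range] at hcard
  have h1 : (⌊4 * η * Y ^ 2⌋₊ : ℝ) ≤ 4 * η * Y ^ 2 := Nat.floor_le (by positivity)
  have h2 : (S.card : ℝ) ≤ (⌊4 * η * Y ^ 2⌋₊ : ℝ) + 1 := by exact_mod_cast hcard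
  linarith

end Pool.Agent.H95R2.Leh
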