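import Pool.Agent.H95R2.Leh.Defs
import Pool.Agent.Helper923.HMertens

set_option autoImplicit false

/-! Module TOT: `n / φ(n) ≪ 1 + log (1 + log n)`. -/

namespace Pool.Agent.H95R2.Leh

open Finset

namespace Tot

theorem ratio_eq (r : ℕ) (hr : r ≠ 0) :
    (r : ℝ) / (Nat.totient r : ℝ) = ∏ p ∈ r.primeFactors, ((p:ℝ) / (p - 1)) := by
  have h := Nat.totient_mul_prod_primeFactors r
  have h' : (Nat.totient r : ℝ) * ∏ p ∈ r.primeFactors, (p : ℝ) =
      r * ∏ p ∈ r.primeFactors, ((p : ℝ) - 1) := by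
    have h2 : ((Nat.totient r * ∏ p ∈ r.primeFactors, p : ℕ) : ℝ) =
        ((r * ∏ p ∈ r.primeFactors, (p - 1) : ℕ) : ℝ) := by
      exact_mod_cast h
    push_cast at h2
    rw [h2]
    congr 1
    apply Finset.prod_congr rfl
    intro p hp
    have := (Nat.prime_of_mem_primeFactors hp).one_le
    push_cast [Nat.cast_sub this]
    rfl
  have hφ : (Nat.totient r : ℝ) ≠ 0 := by
    have := Nat.totient_pos.mpr (Nat.pos_of_ne_zero hr); positivity
  have hp1 : ∏ p ∈ r.primeFactors, ((p : ℝ) - 1) ≠ 0 := by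
    rw [Finset.prod_ne_zero_iff]
    intro p hp
    have := (Nat.prime_of_mem_primeFactors hp).two_le
    have : (2:ℝ) ≤ p := by exact_mod_cast this
    linarith
  rw [Finset.prod_div_distrib, div_eq_div_iff hφ hp1]
  linarith

theorem tele (n : ℕ) (hn : 1 ≤ n) :
    ∑ j ∈ Finset.Ioc 1 n, (1 : ℝ) / ((j : ℝ) * ((j : ℝ) - 1)) ≤ 1 - 1 / n := by
  induction n, hn using Nat.le_induction with
  | base => simp
  | succ m hm ih =>
    rw [Finset.sum_Ioc_succ_top (by omega)]
    have hm0 : (0 : ℝ) < m := by exact_mod_cast hm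
    have e : (1 : ℝ) / (((m + 1 : ℕ) : ℝ) * (((m + 1 : ℕ) : ℝ) - 1)) = 1 / m - 1 / ((m + 1 : ℕ) : ℝ) := by
      have h1 : (m : ℝ) ≠ 0 := hm0.ne'
      have h2 : (m : ℝ) + 1 ≠ 0 := by positivity
      push_cast
      rw [add_sub_cancel_right, div_sub_div _ _ h1 h2]
      congr 1
      · ring
      · ring
    rw [e]
    linarith

theorem card_le (n : ℕ) (hn : 1 ≤ n) : (n.primeFactors.card : ℝ) * Real.log 2 ≤ Real.log n := by
  have h1 : 2 ^ n.primeFactors.card ≤ n := by
    calc 2 ^ n.primeFactors.card ≤ ∏ p ∈ n.primeFactors, p :=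
          Finset.pow_card_le_prod _ _ _ fun p hp => (Nat.prime_of_mem_primeFactors hp).two_le
      _ ≤ n := Nat.le_of_dvd hn (Nat.prod_primeFactors_dvd n)
  have h2 : ((2 : ℝ) ^ n.primeFactors.card) ≤ n := by exact_mod_cast h1
  have h3 := Real.log_le_log (by positivity) h2
  rwa [Real.log_pow] at h3

end Tot

theorem tot_lower : ∃ C : ℝ, 1 ≤ C ∧ ∀ n : ℕ, 1 ≤ n →
    (n : ℝ) / Nat.totient n ≤ C * (1 + Real.log (1 + Real.log n)) := by
  obtain ⟨C, hC0, hC⟩ := Pool.Agent.Helper923.HMertens.mertens_ratio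
  have hl2 : (0 : ℝ) < Real.log 2 := Real.log_pos (by norm_num)
  have hl2' : (1 : ℝ) / 2 ≤ Real.log 2 := by have := Real.log_two_gt_d9; linarith
  refine ⟨Real.exp (1 + (1 / 2 + C / Real.log 2 + 2)) / Real.log 2 + 1, by
    have : 0 < Real.exp (1 + (1 / 2 + C / Real.log 2 + 2)) / Real.log 2 := by positivity
    linarith, fun n hn => ?_⟩
  have hn0 : (0 : ℝ) < n := by exact_mod_cast hn
  have hlogn : 0 ≤ Real.log n := Real.log_natCast_nonneg n
  set m : ℕ := ⌊Real.log n⌋₊ + 2 with hm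
  have hm2 : 2 ≤ m := by omega
  have hmlog : Real.log n ≤ m := by
    have := Nat.lt_floor_add_one (Real.log n)
    rw [hm]; push_cast; linarith
  have hmup : (m : ℝ) ≤ 2 * (1 + Real.log n) := by
    have := Nat.floor_le hlogn
    rw [hm]; push_cast; linarith
  have hm0 : (0 : ℝ) < m := by positivity
  have hlogm : Real.log m ≤ 1 + Real.log (1 + Real.log n) := by
    have h1 := Real.log_le_log hm0 hmup
    rw [Real.log_mul (by norm_num) (by linarith)] at h1
    have h2 : Real.log 2 ≤ 1 := by have := Real.log_two_lt_d9; linarith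
    linarith
  have hlogm0 : 0 < Real.log m := Real.log_pos (by exact_mod_cast (by omega : 1 < m))
  -- the product
  have h1 : (n : ℝ) / Nat.totient n ≤ Real.exp (∑ p ∈ n.primeFactors, (1 : ℝ) / ((p : ℝ) - 1)) := by
    rw [Tot.ratio_eq n (by omega), Real.exp_sum]
    refine Finset.prod_le_prod (fun p hp => ?_) (fun p hp => ?_)
    · have : (1 : ℝ) < p := by exact_mod_cast (Nat.prime_of_mem_primeFactors hp).one_lt
      have h0 : (0 : ℝ) < p - 1 := by linarith
      positivity
    · have : (1 : ℝ) < p := by exact_mod_cast (Nat.prime_of_mem_primeFactors hp).one_lt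
      have h0 : (p : ℝ) - 1 ≠ 0 := by linarith
      have e : (p : ℝ) / (p - 1) = 1 / (p - 1) + 1 := by field_simp; ring
      rw [e]
      exact Real.add_one_le_exp _
  have h2 : ∑ p ∈ n.primeFactors, (1 : ℝ) / ((p : ℝ) - 1) =
      ∑ p ∈ n.primeFactors, (1 : ℝ) / ((p : ℝ) * ((p : ℝ) - 1)) +
        ∑ p ∈ n.primeFactors, (1 : ℝ) / p := by
    rw [← Finset.sum_add_distrib]
    refine Finset.sum_congr rfl fun p hp => ?_
    have : (1 : ℝ) < p := by exact_mod_cast (Nat.prime_of_mem_primeFactors hp).one_lt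
    have h0 : (p : ℝ) - 1 ≠ 0 := by linarith
    have h0' : (p : ℝ) ≠ 0 := by linarith
    field_simp
    ring
  have h3 : ∑ p ∈ n.primeFactors, (1 : ℝ) / ((p : ℝ) * ((p : ℝ) - 1)) ≤ 1 := by
    have h4 : ∑ p ∈ n.primeFactors, (1 : ℝ) / ((p : ℝ) * ((p : ℝ) - 1)) ≤
        ∑ j ∈ Finset.Ioc 1 n, (1 : ℝ) / ((j : ℝ) * ((j : ℝ) - 1)) := by
      refine Finset.sum_le_sum_of_subset_of_nonneg (fun p hp => ?_) (fun j hj _ => ?_)
      · have h5 := Nat.prime_of_mem_primeFactors hp
        exact Finset.mem_Ioc.2 ⟨h5.one_lt, Nat.le_of_dvd hn (Nat.dvd_of_mem_primeFactors hp)⟩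
      · have h5 : (1 : ℝ) < j := by exact_mod_cast (Finset.mem_Ioc.1 hj).1
        have h6 : (0 : ℝ) < j - 1 := by linarith
        positivity
    have h5 := Tot.tele n hn
    have h6 : (0 : ℝ) < 1 / n := by positivity
    linarith
  -- primes above `m`
  have h4 : ∑ p ∈ n.primeFactors, (1 : ℝ) / p ≤ (1 / 2 + (Real.log (Real.log m / Real.log 2) +
      C / Real.log 2)) + 2 := by
    rw [← Finset.sum_filter_add_sum_filter_not n.primeFactors (fun p => p ≤ m)]
    refine add_le_add ?_ ?_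
    · have h5 : ∑ p ∈ n.primeFactors.filter (fun p => p ≤ m), (1 : ℝ) / p ≤
          1 / 2 + ∑ p ∈ (Finset.Ioc 2 m).filter Nat.Prime, (1 : ℝ) / p := by
        have h6 : n.primeFactors.filter (fun p => p ≤ m) ⊆
            insert 2 ((Finset.Ioc 2 m).filter Nat.Prime) := by
          intro p hp
          rw [Finset.mem_filter] at hp
          have h7 := Nat.prime_of_mem_primeFactors hp.1
          rw [Finset.mem_insert, Finset.mem_filter, Finset.mem_Ioc]
          rcases eq_or_lt_of_le h7.two_le with h8 | h8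
          · left; exact h8.symm
          · right; exact ⟨⟨h8, hp.2⟩, h7⟩
        refine (Finset.sum_le_sum_of_subset_of_nonneg h6 (fun j _ _ => by positivity)).trans ?_
        rw [Finset.sum_insert (by simp)]
        norm_num
      have h6 := (abs_le.1 (hC 2 m le_rfl hm2)).2
      push_cast at h6
      linarith
    · have h5 : ∑ p ∈ n.primeFactors.filter (fun p => ¬ p ≤ m), (1 : ℝ) / p ≤
          ∑ _p ∈ n.primeFactors.filter (fun p => ¬ p ≤ m), (1 : ℝ) / m := by
        refine Finset.sum_le_sum fun p hp => ?_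
        rw [Finset.mem_filter] at hp
        have h6 : (m : ℝ) ≤ p := by exact_mod_cast (not_le.1 hp.2).le
        exact one_div_le_one_div_of_le hm0 h6
      refine h5.trans ?_
      rw [Finset.sum_const, nsmul_eq_mul]
      have h6 : (((n.primeFactors.filter (fun p => ¬ p ≤ m)).card : ℕ) : ℝ) ≤ n.primeFactors.card := by
        exact_mod_cast Finset.card_filter_le _ _
      have h7 := Tot.card_le n hn
      rw [mul_one_div, div_le_iff₀ hm0]
      have h8 : (0 : ℝ) ≤ n.primeFactors.card := by positivity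
      nlinarith
  have h5 : ∑ p ∈ n.primeFactors, (1 : ℝ) / ((p : ℝ) - 1) ≤
      (1 + (1 / 2 + C / Real.log 2 + 2)) + Real.log (Real.log m / Real.log 2) := by
    rw [h2]; linarith
  have h6 := h1.trans (Real.exp_le_exp.2 h5)
  rw [Real.exp_add, Real.exp_log (by positivity)] at h6
  have hE := Real.exp_pos (1 + (1 / 2 + C / Real.log 2 + 2))
  set E := Real.exp (1 + (1 / 2 + C / Real.log 2 + 2)) with hEdef
  calc (n : ℝ) / Nat.totient n ≤ E * (Real.log m / Real.log 2) := h6
    _ = E / Real.log 2 * Real.log m := by ring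
    _ ≤ E / Real.log 2 * (1 + Real.log (1 + Real.log n)) :=
        mul_le_mul_of_nonneg_left hlogm (by positivity)
    _ ≤ (E / Real.log 2 + 1) * (1 + Real.log (1 + Real.log n)) := by
        refine mul_le_mul_of_nonneg_right (by linarith) ?_
        linarith

end Pool.Agent.H95R2.Leh
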