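import Pool.Agent.H95R2.Leh.Defs
import Pool.Agent.H95R2.Leh.Tot
import Pool.Agent.H95R2.Leh.ApSieve

/-!
# Lattice points near a line: counting the `Q` free of small prime factors
-/

set_option autoImplicit false

namespace Pool.Agent.H95R2.Leh

namespace Lat

/-- Dirichlet approximation in reduced form -/
theorem dir (α η : ℝ) (hα1 : 1 / 2 ≤ α) (hα2 : α ≤ 3 / 2) (hη : 0 < η) (hη1 : η ≤ 1 / 16) :
    ∃ a b : ℕ, 1 ≤ a ∧ 1 ≤ b ∧ Nat.Coprime a b ∧ |α * b - a| ≤ Real.sqrt η ∧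
      (b : ℝ) ≤ 5 / 2 * a ∧ (a : ℝ) ≤ 2 / Real.sqrt η := by
  set s := Real.sqrt η with hs
  have hs0 : 0 < s := Real.sqrt_pos.mpr hη
  have hs4 : s ≤ 1 / 4 := by
    rw [hs, Real.sqrt_le_left (by norm_num)]
    norm_num
    linarith
  have hinv : 4 ≤ 1 / s := by rw [le_div_iff₀ hs0]; linarith
  set B : ℕ := ⌊1 / s⌋₊ with hB
  have hB4 : 4 ≤ B := Nat.le_floor (by exact_mod_cast hinv)
  obtain ⟨r, hr1, hr2⟩ := Real.exists_rat_abs_sub_le_and_den_le α (show 0 < B by omega)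
  have hden : 0 < (r.den : ℝ) := by exact_mod_cast r.den_pos
  have hden1 : 1 ≤ (r.den : ℝ) := by exact_mod_cast r.den_pos
  have hBs : (1 : ℝ) / (B + 1) ≤ s := by
    have h1 : 1 / s < (B : ℝ) + 1 := Nat.lt_floor_add_one _
    rw [div_le_iff₀ (by positivity)]
    rw [div_lt_iff₀ hs0] at h1
    linarith
  have hrr : (r : ℝ) = (r.num : ℝ) / r.den := by exact_mod_cast (Rat.num_div_den r).symm
  have hθ : |α * r.den - r.num| ≤ s := by
    have h1 : α * r.den - r.num = (α - r) * r.den := by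
      rw [hrr]; field_simp
    rw [h1, abs_mul, abs_of_pos hden]
    calc |α - r| * r.den ≤ 1 / ((B + 1) * r.den) * r.den := mul_le_mul_of_nonneg_right hr1 hden.le
      _ = 1 / (B + 1) := by field_simp
      _ ≤ s := hBs
  have hθ' := abs_le.mp hθ
  have hnum : (0 : ℝ) < r.num := by
    have h1 : 1 / 2 * 1 ≤ α * r.den := mul_le_mul hα1 hden1 (by norm_num) (by linarith)
    linarith [hθ'.2]
  have hnum' : 0 < r.num := by exact_mod_cast hnum
  have hcast : ((r.num.toNat : ℕ) : ℤ) = r.num := Int.toNat_of_nonneg hnum'.le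
  have hcastR : ((r.num.toNat : ℕ) : ℝ) = r.num := by
    have : ((r.num.toNat : ℕ) : ℝ) = (((r.num.toNat : ℕ) : ℤ) : ℝ) := (Int.cast_natCast _).symm
    rw [this, hcast]
  have ha1 : 1 ≤ r.num.toNat := by omega
  have ha1R : (1 : ℝ) ≤ ((r.num.toNat : ℕ) : ℝ) := by exact_mod_cast ha1
  refine ⟨r.num.toNat, r.den, ha1, r.den_pos, ?_, ?_, ?_, ?_⟩
  · have h1 := r.reduced
    have h2 : r.num.natAbs = r.num.toNat := by omega
    rwa [h2] at h1
  · rw [hcastR]; exact hθ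
  · rw [hcastR] at ha1R ⊢
    have h1 : 1 / 2 * (r.den : ℝ) ≤ α * r.den := mul_le_mul_of_nonneg_right hα1 hden.le
    linarith [hθ'.2]
  · rw [hcastR, le_div_iff₀ hs0]
    have h1 : α * r.den ≤ 3 / 2 * r.den := mul_le_mul_of_nonneg_right hα2 hden.le
    have h2 : (r.den : ℝ) ≤ 1 / s := by
      have h3 : (r.den : ℝ) ≤ B := by exact_mod_cast hr2
      exact h3.trans (Nat.floor_le (by positivity))
    have h3 : (r.den : ℝ) * s ≤ 1 := by rwa [le_div_iff₀ hs0] at h2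
    nlinarith [hθ'.1]

open Classical in
/-- the points on one line `a φ(Q) - b Q = t`, `t ≠ 0` -/
theorem fiber (Cs : ℝ) (hCs1 : 1 ≤ Cs) (hCs : ∀ a q N : ℕ, 1 ≤ q → 2 ≤ N →
    ((((Finset.range N).filter
      (fun i => ∀ p : ℕ, p.Prime → (p : ℝ) ^ 8 ≤ N → ¬ p ∣ a + i * q)).card : ℕ) : ℝ) ≤
      Cs * ((q : ℝ) / Nat.totient q) * N / Real.log N)
    (α η Y w W : ℝ) (hη : 0 < η) (hY : 1 ≤ Y) (hM : 1 ≤ η * Y ^ 2)
    (hw : 0 < w) (hw2 : 100 * (η * Y ^ 2) ≤ w ^ 2)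
    (a b : ℕ) (ha : 1 ≤ a) (hb : 1 ≤ b) (hab : Nat.Coprime a b)
    (hW : W = max (|α * b - a| * Y) ((a : ℝ) * η * Y))
    (t : ℤ) (F : Finset ℕ)
    (hF : ∀ Q ∈ F, Y / 2 < (Q : ℝ) ∧ (Q : ℝ) ≤ Y ∧ |α * Nat.totient Q - Q| ≤ η * Y ∧
      (∀ p : ℕ, p.Prime → p ∣ Q → w ≤ (p : ℝ)) ∧ (a : ℤ) * Nat.totient Q - b * Q = t)
    (hl : 2 * (η * Y ^ 2) / W ≤ 8 * (η * Y ^ 2)) :
    (F.card : ℝ) ≤ Cs * ((a : ℝ) / Nat.totient a) * ((⌊2 * (η * Y ^ 2) / W⌋₊ + 2 : ℕ) : ℝ) /
      Real.log ((⌊2 * (η * Y ^ 2) / W⌋₊ + 2 : ℕ) : ℝ) := by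
  have hY0 : 0 < Y := by linarith
  have haR : (0 : ℝ) < a := by exact_mod_cast ha
  have hW0 : 0 < W := by
    rw [hW]; exact lt_of_lt_of_le (by positivity) (le_max_right _ _)
  set M := η * Y ^ 2 with hMdef
  set l := 2 * M / W with hldef
  have hl0 : 0 ≤ l := by positivity
  set N' : ℕ := ⌊l⌋₊ + 2 with hN'
  have hN2 : 2 ≤ N' := by omega
  rcases F.eq_empty_or_nonempty with rfl | hne
  · simp only [Finset.card_empty, Nat.cast_zero]
    have h1 : 0 ≤ Real.log (N' : ℝ) := Real.log_natCast_nonneg _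
    positivity
  set Q₁ := F.min' hne with hQ₁
  have hQ₁F : Q₁ ∈ F := F.min'_mem hne
  obtain ⟨g1, g2, g3, -, g5⟩ := hF Q₁ hQ₁F
  -- every point is a translate
  have hstep : ∀ Q ∈ F, ∃ i : ℕ, Q = Q₁ + i * a ∧ i < N' := by
    intro Q hQ
    obtain ⟨f1, f2, f3, -, f5⟩ := hF Q hQ
    have hle : Q₁ ≤ Q := F.min'_le Q hQ
    have heq : (a : ℤ) * ((Nat.totient Q : ℤ) - Nat.totient Q₁) = b * ((Q : ℤ) - Q₁) := by
      linear_combination f5 - g5
    have hdvd : (a : ℤ) ∣ (Q : ℤ) - Q₁ := by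
      have h1 : (a : ℤ) ∣ b * ((Q : ℤ) - Q₁) := ⟨_, heq.symm⟩
      exact (Int.isCoprime_iff_gcd_eq_one.mpr (by simpa using hab)).dvd_of_dvd_mul_left h1
    obtain ⟨j, hj⟩ := hdvd
    have haZ : (0 : ℤ) < a := by exact_mod_cast ha
    have hj0 : 0 ≤ j := by
      have : 0 ≤ (Q : ℤ) - Q₁ := by
        have : (Q₁ : ℤ) ≤ Q := by exact_mod_cast hle
        linarith
      rw [hj] at this
      exact nonneg_of_mul_nonneg_right this haZ
    obtain ⟨i, rfl⟩ := Int.eq_ofNat_of_zero_le hj0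
    have hQi : (Q : ℤ) = Q₁ + i * a := by linarith
    have hQi' : Q = Q₁ + i * a := by exact_mod_cast hQi
    have hui : (Nat.totient Q : ℤ) - Nat.totient Q₁ = i * b := by
      have h1 : (a : ℤ) * ((Nat.totient Q : ℤ) - Nat.totient Q₁) = a * (i * b) := by
        rw [heq, hj]; ring
      exact mul_left_cancel₀ haZ.ne' h1
    refine ⟨i, hQi', ?_⟩
    -- bounds for i
    have huiR : (Nat.totient Q : ℝ) - Nat.totient Q₁ = i * b := by exact_mod_cast hui
    have hQiR : (Q : ℝ) = Q₁ + i * a := by exact_mod_cast hQi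
    have hi0 : (0 : ℝ) ≤ i := Nat.cast_nonneg i
    have b1 : (i : ℝ) * a ≤ Y := by linarith
    have b2 : (i : ℝ) * |α * b - a| ≤ 2 * (η * Y) := by
      have h1 : (i : ℝ) * (α * b - a) = (α * Nat.totient Q - Q) - (α * Nat.totient Q₁ - Q₁) := by
        rw [hQiR]
        linear_combination -α * huiR
      have h2 : |(i : ℝ) * (α * b - a)| ≤ 2 * (η * Y) := by
        rw [h1]
        refine (abs_sub _ _).trans ?_
        linarith
      rwa [abs_mul, abs_of_nonneg hi0] at h2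
    have hil : (i : ℝ) ≤ l := by
      rw [hldef, le_div_iff₀ hW0, hW, mul_max_of_nonneg _ _ hi0]
      refine max_le ?_ ?_
      · have h1 := mul_le_mul_of_nonneg_right b2 hY0.le
        rw [hMdef]
        nlinarith
      · have h1 := mul_le_mul_of_nonneg_right b1 (by positivity : 0 ≤ η * Y)
        have h2 : 0 ≤ η * Y ^ 2 := by positivity
        rw [hMdef]
        nlinarith
    have h3 : i ≤ ⌊l⌋₊ := Nat.le_floor hil
    omega
  have hcard : F.card ≤ ((Finset.range N').filter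
      (fun i => ∀ p : ℕ, p.Prime → (p : ℝ) ^ 8 ≤ (N' : ℝ) → ¬ p ∣ Q₁ + i * a)).card := by
    refine Finset.card_le_card_of_injOn (fun Q => (Q - Q₁) / a) ?_ ?_
    · intro Q hQ
      obtain ⟨i, hi1, hi2⟩ := hstep Q hQ
      obtain ⟨f1, f2, f3, f4, f5⟩ := hF Q hQ
      have hi3 : (Q - Q₁) / a = i := by
        rw [hi1, Nat.add_sub_cancel_left]
        exact Nat.mul_div_cancel i (by omega)
      simp only [Finset.coe_filter, Finset.mem_range, Set.mem_setOf_eq]
      rw [hi3]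
      refine ⟨hi2, ?_⟩
      intro p hp hp8 hdvd
      rw [← hi1] at hdvd
      have hwp := f4 p hp hdvd
      have h1 : w ^ 8 ≤ (p : ℝ) ^ 8 := pow_le_pow_left₀ hw.le hwp 8
      have h2 : (100 * M) ^ 4 ≤ w ^ 8 := by
        have := pow_le_pow_left₀ (by positivity) hw2 4
        calc (100 * M) ^ 4 ≤ (w ^ 2) ^ 4 := this
          _ = w ^ 8 := by ring
      have h3 : (N' : ℝ) ≤ 8 * M + 2 := by
        have : (N' : ℝ) = (⌊l⌋₊ : ℝ) + 2 := by rw [hN']; push_cast; ring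
        rw [this]
        have h4 := Nat.floor_le hl0
        linarith
      have h5 : (100 * M) ^ 4 ≤ 8 * M + 2 := h2.trans (h1.trans (hp8.trans h3))
      have h6 : 100 * M ≤ (100 * M) ^ 4 := le_self_pow₀ (by linarith) (by norm_num)
      linarith
    · intro Q hQ Q' hQ' heq
      obtain ⟨i, hi1, hi2⟩ := hstep Q hQ
      obtain ⟨i', hi1', hi2'⟩ := hstep Q' hQ'
      simp only at heq
      have hi3 : (Q - Q₁) / a = i := by
        rw [hi1, Nat.add_sub_cancel_left]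
        exact Nat.mul_div_cancel i (by omega)
      have hi3' : (Q' - Q₁) / a = i' := by
        rw [hi1', Nat.add_sub_cancel_left]
        exact Nat.mul_div_cancel i' (by omega)
      rw [hi3, hi3'] at heq
      rw [hi1, hi1', heq]
  have hs := hCs Q₁ a N' ha hN2
  calc (F.card : ℝ) ≤ (((Finset.range N').filter
      (fun i => ∀ p : ℕ, p.Prime → (p : ℝ) ^ 8 ≤ (N' : ℝ) → ¬ p ∣ Q₁ + i * a)).card : ℝ) := by
        exact_mod_cast hcard
    _ ≤ _ := hs

end Lat

theorem rough_count : ∃ C : ℝ, 1 ≤ C ∧ ∀ (k N : ℕ) (η Y w : ℝ) (S : Finset ℕ), 0 < N →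
    (N : ℝ) ≤ 2 * (k * Nat.totient N) → (k * Nat.totient N : ℝ) ≤ 3 / 2 * N →
    0 < η → η ≤ 1 / 16 → 1 ≤ Y → 1 ≤ η * Y ^ 2 → 0 < w → 100 * (η * Y ^ 2) ≤ w ^ 2 →
    (∀ Q ∈ S, Y / 2 < (Q : ℝ) ∧ (Q : ℝ) ≤ Y ∧ Near k N η Q ∧
      ∀ p : ℕ, p.Prime → p ∣ Q → w ≤ (p : ℝ)) →
    (S.card : ℝ) ≤ 1 + C * (η * Y ^ 2) * (1 + Real.log (1 + Real.log (1 / η))) /
      Real.log (2 + η * Y ^ 2) := by
  obtain ⟨Ct, hCt1, hCt⟩ := tot_lower
  obtain ⟨Cs, hCs1, hCs⟩ := ap_sieve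
  refine ⟨256 * Cs * Ct, by nlinarith, ?_⟩
  intro k N η Y w S hN hk1 hk2 hη hη1 hY hM hw hw2 hS
  have hNR : (0 : ℝ) < N := by exact_mod_cast hN
  have hY0 : 0 < Y := by linarith
  set α : ℝ := k * Nat.totient N / N with hα
  have hα1 : 1 / 2 ≤ α := by rw [hα, div_le_div_iff₀ (by norm_num) hNR]; linarith
  have hα2 : α ≤ 3 / 2 := by rw [hα, div_le_div_iff₀ hNR (by norm_num)]; linarith
  obtain ⟨a, b, ha, hb, hab, hθ, hba, has⟩ := Lat.dir α η hα1 hα2 hη hη1
  set s := Real.sqrt η with hs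
  have hs0 : 0 < s := Real.sqrt_pos.mpr hη
  have hss : s ^ 2 = η := Real.sq_sqrt hη.le
  have haR : (1 : ℝ) ≤ a := by exact_mod_cast ha
  set M := η * Y ^ 2 with hMdef
  set W := max (|α * b - a| * Y) ((a : ℝ) * η * Y) with hW
  have hW0 : 0 < W := lt_of_lt_of_le (by positivity) (le_max_right _ _)
  -- the lines
  set tt : ℕ → ℤ := fun Q => (a : ℤ) * Nat.totient Q - b * Q with htt
  have hnear : ∀ Q ∈ S, |α * Nat.totient Q - Q| ≤ η * Y := by
    intro Q hQ
    obtain ⟨f1, f2, f3, f4⟩ := hS Q hQ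
    have h1 := f3.2
    have h2 : (k : ℝ) * Nat.totient N * Nat.totient Q - N * Q = N * (α * Nat.totient Q - Q) := by
      rw [hα]; field_simp
    rw [h2, abs_mul, abs_of_pos hNR] at h1
    have h3 : |α * Nat.totient Q - Q| ≤ η * Q := by
      have : (N : ℝ) * |α * Nat.totient Q - Q| ≤ N * (η * Q) := by linarith
      exact le_of_mul_le_mul_left this hNR
    exact h3.trans (mul_le_mul_of_nonneg_left f2 hη.le)
  have htb : ∀ Q ∈ S, |((tt Q : ℤ) : ℝ)| ≤ 4 * W := by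
    intro Q hQ
    obtain ⟨f1, f2, f3, f4⟩ := hS Q hQ
    have h1 : ((tt Q : ℤ) : ℝ) = (α * Nat.totient Q - Q) * b - (α * b - a) * Nat.totient Q := by
      simp only [htt]; push_cast; ring
    have hQ0 : (Nat.totient Q : ℝ) ≤ Y := le_trans (by exact_mod_cast Nat.totient_le Q) f2
    have h2 : |(α * Nat.totient Q - Q) * b| ≤ 5 / 2 * W := by
      rw [abs_mul, abs_of_nonneg (Nat.cast_nonneg b : (0 : ℝ) ≤ b)]
      calc |α * Nat.totient Q - Q| * b ≤ (η * Y) * (5 / 2 * a) :=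
            mul_le_mul (hnear Q hQ) hba (Nat.cast_nonneg b) (by positivity)
        _ = 5 / 2 * (a * η * Y) := by ring
        _ ≤ 5 / 2 * W := mul_le_mul_of_nonneg_left (le_max_right _ _) (by norm_num)
    have h3 : |(α * b - a) * Nat.totient Q| ≤ W := by
      rw [abs_mul, abs_of_nonneg (Nat.cast_nonneg _ : (0 : ℝ) ≤ (Nat.totient Q : ℝ))]
      exact (mul_le_mul_of_nonneg_left hQ0 (abs_nonneg _)).trans (le_max_left _ _)
    rw [h1]
    refine (abs_sub _ _).trans ?_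
    linarith
  -- sizes
  have hWM : W ≤ 2 * (s * Y) := by
    refine max_le ?_ ?_
    · have := mul_le_mul_of_nonneg_right hθ hY0.le
      have h2 : 0 ≤ s * Y := by positivity
      linarith
    · have h1 : (a : ℝ) * s ≤ 2 := by rwa [le_div_iff₀ hs0] at has
      calc (a : ℝ) * η * Y = (a * s) * (s * Y) := by rw [← hss]; ring
        _ ≤ 2 * (s * Y) := mul_le_mul_of_nonneg_right h1 (by positivity)
  have hMs : M = (s * Y) ^ 2 := by rw [hMdef, ← hss]; ring
  have hsY : 1 ≤ s * Y := by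
    have h1 : (1 : ℝ) ^ 2 ≤ (s * Y) ^ 2 := by rw [← hMs]; linarith
    exact (pow_le_pow_iff_left₀ (by norm_num) (by positivity) (by norm_num)).mp h1
  set l := 2 * M / W with hl
  have hl0 : 0 ≤ l := by positivity
  have hls : s * Y ≤ l := by
    rw [hl, le_div_iff₀ hW0, hMs]
    nlinarith
  set N' : ℕ := ⌊l⌋₊ + 2 with hN'
  have hN'1 : l ≤ (N' : ℝ) := by
    have h1 := Nat.lt_floor_add_one l
    rw [hN']; push_cast; linarith
  have hN'2 : (N' : ℝ) ≤ l + 2 := by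
    have h1 := Nat.floor_le hl0
    rw [hN']; push_cast; linarith
  have hN'3 : (2 : ℝ) ≤ N' := by
    have : 2 ≤ N' := by omega
    exact_mod_cast this
  have hlogN : 0 < Real.log (N' : ℝ) := Real.log_pos (by linarith)
  have hlogM : 0 < Real.log (2 + M) := Real.log_pos (by linarith)
  have hlog : Real.log (2 + M) ≤ 4 * Real.log (N' : ℝ) := by
    have h1 : 2 + M ≤ (N' : ℝ) ^ 4 := by
      have h2 : M ≤ (N' : ℝ) ^ 2 := by
        rw [hMs]
        exact pow_le_pow_left₀ (by positivity) (hls.trans hN'1) 2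
      have h3 : (4 : ℝ) ≤ (N' : ℝ) ^ 2 := by nlinarith
      nlinarith
    calc Real.log (2 + M) ≤ Real.log ((N' : ℝ) ^ 4) := Real.log_le_log (by linarith) h1
      _ = 4 * Real.log (N' : ℝ) := by rw [Real.log_pow]; norm_num
  set K : ℝ := Cs * ((a : ℝ) / Nat.totient a) * (N' : ℝ) / Real.log (N' : ℝ) with hK
  have hK0 : 0 ≤ K := by rw [hK]; positivity
  -- counting on the lines
  set T : Finset ℤ := Finset.Icc (-⌊4 * W⌋) ⌊4 * W⌋ with hT
  have h4W : 0 ≤ ⌊4 * W⌋ := Int.floor_nonneg.mpr (by positivity)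
  have hmaps : Set.MapsTo tt S T := by
    intro Q hQ
    have h1 := abs_le.mp (htb Q hQ)
    rw [hT, Finset.coe_Icc, Set.mem_Icc]
    constructor
    · have h2 : ((-(tt Q) : ℤ) : ℝ) ≤ 4 * W := by push_cast; linarith [h1.1]
      have := Int.le_floor.mpr h2
      linarith
    · exact Int.le_floor.mpr h1.2
  have hsum := Finset.card_eq_sum_card_fiberwise hmaps
  have hfib : ∀ t ∈ T.erase 0, (((S.filter (fun Q => tt Q = t)).card : ℕ) : ℝ) ≤ K := by
    intro t ht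
    rw [Finset.mem_erase] at ht
    rcases (S.filter (fun Q => tt Q = t)).eq_empty_or_nonempty with he | hne
    · rw [he]; simpa using hK0
    · obtain ⟨Q, hQ⟩ := hne
      rw [Finset.mem_filter] at hQ
      have h1 : (1 : ℝ) ≤ |((tt Q : ℤ) : ℝ)| := by
        have : 1 ≤ |tt Q| := Int.one_le_abs (by rw [hQ.2]; exact ht.1)
        have h2 : ((1 : ℤ) : ℝ) ≤ ((|tt Q| : ℤ) : ℝ) := by exact_mod_cast this
        rwa [Int.cast_abs, Int.cast_one] at h2
      have h4 := h1.trans (htb Q hQ.1)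
      refine Lat.fiber Cs hCs1 hCs α η Y w W hη hY hM hw hw2 a b ha hb hab hW t _ ?_ ?_
      · intro Q' hQ'
        rw [Finset.mem_filter] at hQ'
        obtain ⟨f1, f2, f3, f4⟩ := hS Q' hQ'.1
        exact ⟨f1, f2, hnear Q' hQ'.1, f4, hQ'.2⟩
      · rw [div_le_iff₀ hW0]
        nlinarith
  have hfib0 : (S.filter (fun Q => tt Q = 0)).card ≤ 1 := by
    rw [Finset.card_le_one]
    have hcopr : ∀ Q ∈ S.filter (fun Q => tt Q = 0), Q = a := by
      intro Q hQ
      rw [Finset.mem_filter] at hQ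
      obtain ⟨f1, f2, f3, f4⟩ := hS Q hQ.1
      have h1 : (a : ℤ) * Nat.totient Q = b * Q := by
        have := hQ.2
        simp only [htt] at this
        linarith
      have h2 : a * Nat.totient Q = b * Q := by exact_mod_cast h1
      have h3 : a ∣ Q := hab.dvd_of_dvd_mul_left ⟨_, h2.symm⟩
      have h4 : Q ∣ a := by
        have : Q ∣ a * Nat.totient Q := ⟨b, by rw [h2]; ring⟩
        exact f3.1.dvd_of_dvd_mul_right this
      exact Nat.dvd_antisymm h4 h3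
    intro Q hQ Q' hQ'
    rw [hcopr Q hQ, hcopr Q' hQ']
  have h0T : (0 : ℤ) ∈ T := by rw [hT, Finset.mem_Icc]; constructor <;> linarith
  have hTcard : (((T.erase 0).card : ℕ) : ℝ) ≤ 8 * W := by
    have h1 : (T.card : ℤ) = 2 * ⌊4 * W⌋ + 1 := by
      rw [hT, Int.card_Icc, Int.toNat_of_nonneg (by linarith)]; ring
    have h2 := Finset.card_erase_add_one h0T
    have h3 : ((T.erase 0).card : ℤ) = 2 * ⌊4 * W⌋ := by
      have : ((T.erase 0).card : ℤ) + 1 = T.card := by exact_mod_cast h2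
      linarith
    have h4 : (((T.erase 0).card : ℕ) : ℝ) = 2 * (⌊4 * W⌋ : ℝ) := by exact_mod_cast h3
    have h5 := Int.floor_le (4 * W)
    rw [h4]; linarith
  have hcount : (S.card : ℝ) ≤ 1 + 8 * W * K := by
    rw [hsum, ← Finset.add_sum_erase T _ h0T]
    push_cast
    have h1 : (((S.filter (fun Q => tt Q = 0)).card : ℕ) : ℝ) ≤ 1 := by exact_mod_cast hfib0
    have h2 : ∑ t ∈ T.erase 0, (((S.filter (fun Q => tt Q = t)).card : ℕ) : ℝ) ≤
        (T.erase 0).card * K := by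
      have := Finset.sum_le_card_nsmul (T.erase 0) _ K hfib
      rwa [nsmul_eq_mul] at this
    have h3 := mul_le_mul_of_nonneg_right hTcard hK0
    linarith
  -- final estimate
  have hta := hCt a ha
  have hlogη : 0 ≤ Real.log (1 / η) := Real.log_nonneg (by rw [le_div_iff₀ hη]; linarith)
  have hloga : Real.log a ≤ Real.log (1 / η) := by
    refine Real.log_le_log (by linarith) ?_
    refine has.trans ?_
    rw [div_le_div_iff₀ hs0 hη, ← hss]
    have hs4 : s ≤ 1 / 4 := by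
      rw [hs, Real.sqrt_le_left (by norm_num)]; norm_num; linarith
    nlinarith
  have hloga0 : 0 ≤ Real.log (a : ℝ) := Real.log_nonneg haR
  set G := 1 + Real.log (1 + Real.log (1 / η)) with hG
  have hG1 : 1 + Real.log (1 + Real.log a) ≤ G := by
    have := Real.log_le_log (by linarith) (by linarith : 1 + Real.log (a : ℝ) ≤ 1 + Real.log (1 / η))
    rw [hG]; linarith
  have hG0 : 0 ≤ G := by
    have : 0 ≤ Real.log (1 + Real.log (1 / η)) := Real.log_nonneg (by linarith)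
    rw [hG]; linarith
  have hta' : (a : ℝ) / Nat.totient a ≤ Ct * G :=
    hta.trans (mul_le_mul_of_nonneg_left hG1 (by linarith))
  have hWl : W * l = 2 * M := by rw [hl]; field_simp
  have hWN : 8 * W * (N' : ℝ) ≤ 64 * M := by
    have h1 : W * (N' : ℝ) ≤ W * (l + 2) := mul_le_mul_of_nonneg_left hN'2 hW0.le
    have h2 : s * Y ≤ M := by rw [hMs]; nlinarith
    nlinarith
  have hfin : 8 * W * K ≤ 256 * Cs * Ct * M * G / Real.log (2 + M) := by
    rw [hK, le_div_iff₀ hlogM]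
    have h1 : 8 * W * (Cs * ((a : ℝ) / Nat.totient a) * (N' : ℝ) / Real.log (N' : ℝ)) * Real.log (2 + M) =
        (8 * W * (N' : ℝ)) * (Cs * ((a : ℝ) / Nat.totient a)) * (Real.log (2 + M) / Real.log (N' : ℝ)) := by
      field_simp
    rw [h1]
    have h2 : Real.log (2 + M) / Real.log (N' : ℝ) ≤ 4 := by rw [div_le_iff₀ hlogN]; exact hlog
    have h3 : Cs * ((a : ℝ) / Nat.totient a) ≤ Cs * (Ct * G) := mul_le_mul_of_nonneg_left hta' (by linarith)
    have h4 : 0 ≤ Cs * ((a : ℝ) / Nat.totient a) := by positivity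
    have h5 : 0 ≤ Cs * (Ct * G) := h4.trans h3
    calc (8 * W * (N' : ℝ)) * (Cs * ((a : ℝ) / Nat.totient a)) * (Real.log (2 + M) / Real.log (N' : ℝ))
        ≤ (64 * M) * (Cs * (Ct * G)) * 4 := by
          refine mul_le_mul ?_ h2 (by positivity) (by positivity)
          exact mul_le_mul hWN h3 h4 (by positivity)
      _ = 256 * Cs * Ct * M * G := by ring
  linarith

end Pool.Agent.H95R2.Leh
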