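import Pool.Agent.H95R2.Leh.Seg
import Pool.Agent.H95R2.Leh.Farey
import Pool.Agent.H95R2.Leh.Lat

set_option autoImplicit false

namespace Pool.Agent.H95R2.Leh

open Finset

lemma le_of_dvd_upp {D s p : ℕ} (hp : p.Prime) (h : p ∣ upp D s) : s ≤ p := by
  unfold upp at h
  obtain ⟨r, hr, hpr⟩ := (Nat.Prime.prime hp).dvd_finsetProd_iff (fun p => p) |>.mp h
  rw [mem_filter, Nat.mem_primeFactors] at hr
  have : p = r := (Nat.prime_dvd_prime_iff_eq hp hr.1.1).mp hpr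
  rw [this]
  exact hr.2

/-- the general counting lemma for the classes `Cls` -/
lemma cls_gen {k : ℕ} {R : ℝ} {St : ℕ → ℕ → Prop} (hF : Fam k R St) {y P z P' Y B : ℝ}
    (hy : 0 < y) (hP : 256 * R ≤ P) (hP' : 32 * R ≤ P') (hY : 1 ≤ Y) (hB0 : 0 ≤ B)
    (hB : ∀ (N s : ℕ) (S : Finset ℕ), 0 < N → St N s → P' / 2 < (s : ℝ) →
      (N : ℝ) ≤ 2 * (k * Nat.totient N) →
      (∀ Q ∈ S, 1 ≤ Q ∧ Y / 2 < (Q : ℝ) ∧ (Q : ℝ) ≤ Y ∧ Near k N (16 * R / P) Q ∧
        ∀ p : ℕ, p.Prime → p ∣ Q → P' / 2 ≤ (p : ℝ)) → (S.card : ℝ) ≤ B) :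
    ((Cls St y P z P' Y).card : ℝ) ≤
      (((DD St (2 * y / Y) P').card : ℝ) + (DD St (y / Y) P').card) * B := by
  classical
  have hR := hF.R_one
  -- the splitting prime
  let pr : ℕ → ℕ → Prop := fun D s => s.Prime ∧ s ∣ D ∧ P' / 2 < (s : ℝ) ∧ (s : ℝ) ≤ P' ∧
    Y / 2 < (upp D s : ℝ) ∧ (upp D s : ℝ) ≤ Y ∧ (upp D s : ℝ) ≤ z * s
  let sD : ℕ → ℕ := fun D => if h : ∃ s, pr D s then h.choose else 0
  have hsD : ∀ D, (∃ s, pr D s) → pr D (sD D) := by
    intro D h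
    simp only [sD, dif_pos h]
    exact h.choose_spec
  -- properties of the members
  have hmem : ∀ D ∈ Cls St y P z P' Y, (1 ≤ D ∧ (D : ℝ) ≤ y ∧ y / 2 < (D : ℝ) ∧
      ∃ q : ℕ, P / 2 < (q : ℝ) ∧ (q : ℝ) ≤ P ∧ St D q) ∧ pr D (sD D) := by
    intro D hD
    unfold Cls at hD
    rw [mem_filter] at hD
    obtain ⟨hD1, hD2⟩ := hD
    unfold DD at hD1
    rw [mem_filter, mem_Icc] at hD1
    refine ⟨⟨hD1.1.1, ?_, hD1.2.1, hD1.2.2⟩, hsD D hD2⟩
    exact (Nat.le_floor_iff hy.le).mp hD1.1.2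
  have hmem2 : ∀ D ∈ Cls St y P z P' Y, seg D (sD D) * upp D (sD D) = D ∧ 0 < seg D (sD D) ∧
      0 < upp D (sD D) ∧ St (seg D (sD D)) (sD D) := by
    intro D hD
    obtain ⟨⟨h1, h2, h3, q, hq1, hq2, hq3⟩, hp⟩ := hmem D hD
    have h4 := seg_mul_upp (s := sD D) (hF.sqf D q hq3)
    have h5 : 0 < seg D (sD D) * upp D (sD D) := by rw [h4]; exact h1
    exact ⟨h4, Nat.pos_of_mul_pos_right h5, Nat.pos_of_mul_pos_left h5,
      hF.sub D q (sD D) hq3 hp.1 hp.2.1⟩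
  have hmaps : ∀ D ∈ Cls St y P z P' Y,
      seg D (sD D) ∈ DD St (2 * y / Y) P' ∪ DD St (y / Y) P' := by
    intro D hD
    obtain ⟨⟨h1, h2, h3, q, hq1, hq2, hq3⟩, hp⟩ := hmem D hD
    obtain ⟨h4, h5, h6, h7⟩ := hmem2 D hD
    obtain ⟨hp1, hp2, hp3, hp4, hp5, hp6, hp7⟩ := hp
    set N := seg D (sD D) with hN
    set Q := upp D (sD D) with hQ
    have hDNQ : (N : ℝ) * Q = D := by exact_mod_cast h4
    have hN0 : (0 : ℝ) < N := by exact_mod_cast h5
    have hY0 : 0 < Y := by linarith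
    have hup : (N : ℝ) ≤ 2 * y / Y := by
      rw [le_div_iff₀ hY0]
      nlinarith
    have hlo : y / Y / 2 < (N : ℝ) := by
      rw [div_div, div_lt_iff₀ (by positivity)]
      nlinarith
    have hN1 : 1 ≤ N := h5
    rw [mem_union]
    rcases lt_or_ge (y / Y) (N : ℝ) with hc | hc
    · left
      unfold DD
      rw [mem_filter, mem_Icc]
      refine ⟨⟨hN1, Nat.le_floor hup⟩, ?_, sD D, hp3, hp4, h7⟩
      have : 2 * y / Y / 2 = y / Y := by ring
      rw [this]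
      exact hc
    · right
      unfold DD
      rw [mem_filter, mem_Icc]
      exact ⟨⟨hN1, Nat.le_floor hc⟩, hlo, sD D, hp3, hp4, h7⟩
  have hcard := card_eq_sum_card_fiberwise (s := Cls St y P z P' Y)
    (t := DD St (2 * y / Y) P' ∪ DD St (y / Y) P') (f := fun D => seg D (sD D)) hmaps
  have hfib : ∀ N ∈ DD St (2 * y / Y) P' ∪ DD St (y / Y) P',
      ((((Cls St y P z P' Y).filter (fun D => seg D (sD D) = N)).card : ℕ) : ℝ) ≤ B := by
    intro N _
    set Fb := (Cls St y P z P' Y).filter (fun D => seg D (sD D) = N) with hFb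
    rcases Fb.eq_empty_or_nonempty with he | ⟨D0, hD0⟩
    · rw [he, card_empty, Nat.cast_zero]
      exact hB0
    have hinj : Set.InjOn (fun D => upp D (sD D)) (Fb : Set ℕ) := by
      intro D hD D' hD' hDD
      rw [mem_coe, hFb, mem_filter] at hD hD'
      have e1 := (hmem2 D hD.1).1
      have e2 := (hmem2 D' hD'.1).1
      rw [← e1, ← e2, hD.2, hD'.2]
      have : upp D (sD D) = upp D' (sD D') := hDD
      rw [this]
    rw [← card_image_of_injOn hinj]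
    rw [hFb, mem_filter] at hD0
    obtain ⟨hD0, hD0N⟩ := hD0
    obtain ⟨⟨h1, h2, h3, q, hq1, hq2, hq3⟩, hp⟩ := hmem D0 hD0
    obtain ⟨h4, h5, h6, h7⟩ := hmem2 D0 hD0
    rw [hD0N] at h4 h5 h7
    apply hB N (sD D0) _ h5 h7 hp.2.2.1
    · exact tot_of_state hF hq3 (by linarith) (Dvd.intro _ h4)
    · intro Q hQ
      rw [mem_image] at hQ
      obtain ⟨D, hD, rfl⟩ := hQ
      rw [hFb, mem_filter] at hD
      obtain ⟨hD, hDN⟩ := hD
      obtain ⟨⟨h1', h2', h3', q', hq1', hq2', hq3'⟩, hp'⟩ := hmem D hD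
      obtain ⟨h4', h5', h6', h7'⟩ := hmem2 D hD
      obtain ⟨hp1, hp2, hp3, hp4, hp5, hp6, hp7⟩ := hp'
      refine ⟨h6', hp5, hp6, ?_, ?_⟩
      · apply near_of_state hF hq3' hq1' (by linarith)
        rw [← hDN]
        exact h4'.symm
      · intro p hpp hpd
        have h8 : ((sD D : ℕ) : ℝ) ≤ p := by exact_mod_cast le_of_dvd_upp hpp hpd
        linarith
  calc ((Cls St y P z P' Y).card : ℝ) =
      ∑ N ∈ DD St (2 * y / Y) P' ∪ DD St (y / Y) P',
        ((((Cls St y P z P' Y).filter (fun D => seg D (sD D) = N)).card : ℕ) : ℝ) := by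
        rw [hcard]; push_cast; rfl
    _ ≤ ∑ N ∈ DD St (2 * y / Y) P' ∪ DD St (y / Y) P', B := sum_le_sum hfib
    _ = ((DD St (2 * y / Y) P' ∪ DD St (y / Y) P').card : ℝ) * B := by
        rw [sum_const, nsmul_eq_mul]
    _ ≤ _ := by
        apply mul_le_mul_of_nonneg_right _ hB0
        exact_mod_cast card_union_le _ _

theorem cls_farey {k : ℕ} {R : ℝ} {St : ℕ → ℕ → Prop} (hF : Fam k R St) {y P z P' Y : ℝ}
    (hy : 0 < y) (hP : 256 * R ≤ P) (hP' : 32 * R ≤ P') (hY : 1 ≤ Y) :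
    ((Cls St y P z P' Y).card : ℝ) ≤
      (((DD St (2 * y / Y) P').card : ℝ) + (DD St (y / Y) P').card) *
        (1 + 4 * (16 * R / P) * Y ^ 2) := by
  have hR := hF.R_one
  have hP0 : 0 < P := by linarith
  apply cls_gen hF hy hP hP' hY (by positivity)
  intro N s S hN _ _ hk hS
  exact farey_count hN hk (by positivity) hY S fun Q hQ =>
    ⟨(hS Q hQ).1, (hS Q hQ).2.2.1, (hS Q hQ).2.2.2.1⟩

theorem cls_rough : ∃ C : ℝ, 1 ≤ C ∧ ∀ (k : ℕ) (R : ℝ) (St : ℕ → ℕ → Prop), Fam k R St →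
    ∀ y P z P' Y : ℝ, 0 < y → 256 * R ≤ P → 32 * R ≤ P' → 1 ≤ Y → 1 ≤ (16 * R / P) * Y ^ 2 →
    400 * ((16 * R / P) * Y ^ 2) ≤ P' ^ 2 →
    ((Cls St y P z P' Y).card : ℝ) ≤
      (((DD St (2 * y / Y) P').card : ℝ) + (DD St (y / Y) P').card) *
        (1 + C * ((16 * R / P) * Y ^ 2) * (1 + Real.log (1 + Real.log P)) /
          Real.log (2 + (16 * R / P) * Y ^ 2)) := by
  obtain ⟨C, hC1, hC⟩ := rough_count
  refine ⟨C, hC1, ?_⟩
  intro k R St hF y P z P' Y hy hP hP' hY h1 h2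
  have hR := hF.R_one
  have hP0 : 0 < P := by linarith
  have hη0 : 0 < 16 * R / P := by positivity
  have hη1 : 16 * R / P ≤ 1 / 16 := by
    rw [div_le_div_iff₀ hP0 (by norm_num)]
    linarith
  have hlogP : 0 ≤ Real.log P := Real.log_nonneg (by linarith)
  have hinv : 1 / (16 * R / P) = P / (16 * R) := by rw [one_div_div]
  have hlog1 : 0 ≤ Real.log (1 / (16 * R / P)) := by
    apply Real.log_nonneg
    rw [hinv, le_div_iff₀ (by positivity)]
    linarith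
  have hlog2 : Real.log (1 / (16 * R / P)) ≤ Real.log P := by
    apply Real.log_le_log (by positivity)
    rw [hinv, div_le_iff₀ (by positivity)]
    nlinarith
  have hlog3 : Real.log (1 + Real.log (1 / (16 * R / P))) ≤ Real.log (1 + Real.log P) :=
    Real.log_le_log (by linarith) (by linarith)
  have hlog4 : 0 ≤ Real.log (1 + Real.log P) := Real.log_nonneg (by linarith)
  have hden : 0 < Real.log (2 + (16 * R / P) * Y ^ 2) := Real.log_pos (by linarith)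
  apply cls_gen hF hy hP hP' hY (by positivity)
  intro N s S hN hst hs hk hS
  have hN' : (0 : ℝ) < N := by exact_mod_cast hN
  have hsR : 16 * R ≤ (s : ℝ) := by linarith
  have hs0 : (0 : ℝ) < s := by linarith
  have h3 := hF.small N s hst hsR
  have h4 : |(k : ℝ) * Nat.totient N - N| ≤ N / 2 := by
    by_contra hcon
    rw [not_le] at hcon
    have : N / 2 * (s : ℝ) < |(k : ℝ) * Nat.totient N - N| * s := by
      exact mul_lt_mul_of_pos_right hcon hs0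
    nlinarith
  have h5 := (abs_le.mp h4).2
  have h6 := hC k N (16 * R / P) Y (P' / 2) S hN hk (by linarith) hη0 hη1 hY h1 (by linarith)
    (by nlinarith) (fun Q hQ => ⟨(hS Q hQ).2.1, (hS Q hQ).2.2.1, (hS Q hQ).2.2.2.1, (hS Q hQ).2.2.2.2⟩)
  refine h6.trans ?_
  gcongr

end Pool.Agent.H95R2.Leh
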