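import Pool.Agent.H95R2.Leh.Seg
import Pool.Agent.H95R2.Leh.Farey
import Pool.Agent.H95R2.Leh.ApSieve
import Pool.Agent.Helper923.PPS.Smooth
import Pool.Agent.Helper923.HMertens

set_option autoImplicit false

namespace Pool.Agent.H95R2.Leh

open Finset

namespace CB

theorem mem_DD {St : ℕ → ℕ → Prop} {y P : ℝ} {D : ℕ} (h : D ∈ DD St y P) :
    1 ≤ D ∧ (D : ℝ) ≤ y ∧ y / 2 < (D : ℝ) ∧ ∃ q : ℕ, P / 2 < (q : ℝ) ∧ (q : ℝ) ≤ P ∧ St D q := by
  classical
  unfold DD at h
  rw [mem_filter, mem_Icc] at h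
  refine ⟨h.1.1, ?_, h.2.1, h.2.2⟩
  have h1 : 0 < ⌊y⌋₊ := lt_of_lt_of_le (by omega) h.1.2
  exact (Nat.le_floor_iff' (by omega)).mp h.1.2

theorem DD_of {St : ℕ → ℕ → Prop} {y P : ℝ} {D q : ℕ} (h0 : 1 ≤ D) (h1 : (D : ℝ) ≤ y)
    (h2 : y / 2 < (D : ℝ)) (h3 : P / 2 < (q : ℝ)) (h4 : (q : ℝ) ≤ P) (h5 : St D q) :
    D ∈ DD St y P := by
  classical
  unfold DD
  rw [mem_filter, mem_Icc]
  exact ⟨⟨h0, Nat.le_floor h1⟩, h2, q, h3, h4, h5⟩

/-- the cofactor is determined by `N` -/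
theorem core {k : ℕ} {R : ℝ} {St : ℕ → ℕ → Prop} (hF : Fam k R St) {y P z : ℝ}
    (hP : 256 * R ≤ P) (hz4 : 4 * (16 * R / P) * z ^ 2 < 1) {D D' N Q Q' : ℕ}
    (hD : D ∈ DD St y P) (hD' : D' ∈ DD St y P) (h : D = N * Q) (h' : D' = N * Q')
    (hQ : (Q : ℝ) ≤ z) (hQ' : (Q' : ℝ) ≤ z) : D = D' := by
  obtain ⟨a1, a2, a3, q, a4, a5, a6⟩ := mem_DD hD
  obtain ⟨b1, b2, b3, q', b4, b5, b6⟩ := mem_DD hD'
  have hR := hF.R_one
  have hPpos : 0 < P := by linarith
  have hN : 0 < N := by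
    rcases Nat.eq_zero_or_pos N with h0 | h0
    · rw [h, h0, zero_mul] at a1; omega
    · exact h0
  have hQ1 : 1 ≤ Q := by
    rcases Nat.eq_zero_or_pos Q with h0 | h0
    · rw [h, h0, mul_zero] at a1; omega
    · exact h0
  have hQ1' : 1 ≤ Q' := by
    rcases Nat.eq_zero_or_pos Q' with h0 | h0
    · rw [h', h0, mul_zero] at b1; omega
    · exact h0
  have h1 := near_of_state hF a6 a4 (by linarith) h
  have h2 := near_of_state hF b6 b4 (by linarith) h'
  have h3 := tot_of_state hF a6 (by linarith) (Dvd.intro Q h.symm)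
  have h4 := farey_unique hN h3 (by positivity) hz4 hQ1 hQ1' h1 h2 hQ hQ'
  rw [h, h', h4]

theorem upp_succ {D s : ℕ} (hD : D ≠ 0) (hs : s.Prime) (hsD : s ∣ D) :
    upp D s = s * upp D (s + 1) := by
  unfold upp
  have h1 : D.primeFactors.filter (fun p => s ≤ p) =
      insert s (D.primeFactors.filter (fun p => s + 1 ≤ p)) := by
    ext p
    simp only [mem_filter, mem_insert]
    constructor
    · rintro ⟨h1, h2⟩
      rcases eq_or_lt_of_le h2 with h | h
      · left; exact h.symm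
      · right; exact ⟨h1, h⟩
    · rintro (rfl | ⟨h1, h2⟩)
      · exact ⟨Nat.mem_primeFactors.mpr ⟨hs, hsD, hD⟩, le_rfl⟩
      · exact ⟨h1, by omega⟩
  rw [h1, prod_insert]
  simp

theorem upp_next {D s t : ℕ} (hst : s < t)
    (h : ∀ p : ℕ, p.Prime → p ∣ D → s < p → t ≤ p) : upp D (s + 1) = upp D t := by
  unfold upp
  congr 1
  ext p
  simp only [mem_filter, and_congr_right_iff]
  intro hp
  constructor
  · intro h1
    exact h p (Nat.prime_of_mem_primeFactors hp) (Nat.dvd_of_mem_primeFactors hp) h1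
  · intro h1; omega

theorem seg_dvd {D s : ℕ} : seg D s ∣ D := by
  unfold seg
  exact (Finset.prod_dvd_prod_of_subset _ _ _ (Finset.filter_subset _ _)).trans
    (Nat.prod_primeFactors_dvd D)

theorem seg_pos {D s : ℕ} : 1 ≤ seg D s := by
  unfold seg
  exact Nat.succ_le_of_lt (Finset.prod_pos fun p hp =>
    (Nat.prime_of_mem_primeFactors (Finset.mem_filter.mp hp).1).pos)

theorem upp_pos {D s : ℕ} : 1 ≤ upp D s := by
  unfold upp
  exact Nat.succ_le_of_lt (Finset.prod_pos fun p hp =>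
    (Nat.prime_of_mem_primeFactors (Finset.mem_filter.mp hp).1).pos)

end CB

open CB

theorem cls_prime : ∃ C : ℝ, 1 ≤ C ∧ ∀ (k : ℕ) (R : ℝ) (St : ℕ → ℕ → Prop), Fam k R St →
    ∀ y P z P' Y : ℝ, 0 < y → 256 * R ≤ P → 2 ≤ P' → 0 < Y → 0 < z →
    4 * (16 * R / P) * z ^ 2 < 1 →
    ((Cls St y P z P' Y).card : ℝ) ≤
      (((DD St (2 * y / Y) P').card : ℝ) + (DD St (y / Y) P').card) *
        (C * P' / Real.log P') := by
  classical
  obtain ⟨C, hC1, hC⟩ := primes_dyadic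
  refine ⟨C, hC1, ?_⟩
  intro k R St hF y P z P' Y hy hP hP' hY hz hz4
  have h1 : ∀ D ∈ Cls St y P z P' Y, D ∈ DD St y P ∧ ∃ s : ℕ, s.Prime ∧ s ∣ D ∧
      P' / 2 < (s : ℝ) ∧ (s : ℝ) ≤ P' ∧
      Y / 2 < (upp D s : ℝ) ∧ (upp D s : ℝ) ≤ Y ∧ (upp D s : ℝ) ≤ z * s := by
    intro D hD
    unfold Cls at hD
    rw [mem_filter] at hD
    exact hD
  have h2 : ∀ D ∈ Cls St y P z P' Y, ∃ s : ℕ, s.Prime ∧ s ∣ D ∧
      P' / 2 < (s : ℝ) ∧ (s : ℝ) ≤ P' ∧
      Y / 2 < (upp D s : ℝ) ∧ (upp D s : ℝ) ≤ Y ∧ (upp D s : ℝ) ≤ z * s := fun D hD => (h1 D hD).2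
  choose! sD hsD using h2
  have hcard : (Cls St y P z P' Y).card ≤
      ((DD St (2 * y / Y) P' ∪ DD St (y / Y) P') ×ˢ
        ((Finset.Icc 1 ⌊P'⌋₊).filter (fun p : ℕ => p.Prime ∧ P' / 2 < (p : ℝ)))).card := by
    refine Finset.card_le_card_of_injOn (fun D => (seg D (sD D), sD D)) ?_ ?_
    · intro D hD
      rw [mem_coe] at hD
      obtain ⟨a0, -⟩ := h1 D hD
      obtain ⟨a1, a2, a3, a4, a5, a6, a7⟩ := hsD D hD
      obtain ⟨b1, b2, b3, q, b4, b5, b6⟩ := mem_DD a0
      rw [mem_coe, mem_product]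
      have hsq := hF.sqf D q b6
      have hmul := seg_mul_upp (s := sD D) hsq
      have hst := hF.sub D q (sD D) b6 a1 a2
      have hmulR : (seg D (sD D) : ℝ) * upp D (sD D) = D := by exact_mod_cast hmul
      have hu : (0 : ℝ) < upp D (sD D) := by exact_mod_cast (upp_pos : 1 ≤ upp D (sD D))
      have hs0 : (0 : ℝ) < seg D (sD D) := by exact_mod_cast (seg_pos : 1 ≤ seg D (sD D))
      constructor
      · simp only
        rw [mem_union]
        rcases le_or_gt (seg D (sD D) : ℝ) (y / Y) with h | h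
        · right
          refine DD_of seg_pos h ?_ a3 a4 hst
          rw [div_div, div_lt_iff₀ (by positivity)]
          nlinarith
        · left
          refine DD_of seg_pos ?_ ?_ a3 a4 hst
          · rw [le_div_iff₀ hY]
            nlinarith
          · rw [show 2 * y / Y / 2 = y / Y by ring]
            exact h
      · simp only
        rw [mem_filter, mem_Icc]
        exact ⟨⟨a1.one_lt.le, Nat.le_floor a4⟩, a1, a3⟩
    · intro D hD D' hD' heq
      rw [mem_coe] at hD hD'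
      simp only [Prod.mk.injEq] at heq
      obtain ⟨a0, -⟩ := h1 D hD
      obtain ⟨a1, a2, a3, a4, a5, a6, a7⟩ := hsD D hD
      obtain ⟨a0', -⟩ := h1 D' hD'
      obtain ⟨a1', a2', a3', a4', a5', a6', a7'⟩ := hsD D' hD'
      obtain ⟨b1, b2, b3, q, b4, b5, b6⟩ := mem_DD a0
      obtain ⟨b1', b2', b3', q', b4', b5', b6'⟩ := mem_DD a0'
      have hm : D = seg D (sD D) * sD D * upp D (sD D + 1) := by
        rw [mul_assoc, ← upp_succ (by omega) a1 a2, seg_mul_upp (hF.sqf D q b6)]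
      have hm' : D' = seg D (sD D) * sD D * upp D' (sD D' + 1) := by
        rw [heq.1, heq.2, mul_assoc, ← upp_succ (by omega) a1' a2', seg_mul_upp (hF.sqf D' q' b6')]
      have hs : (0 : ℝ) < sD D := by exact_mod_cast a1.pos
      have hs' : (0 : ℝ) < sD D' := by exact_mod_cast a1'.pos
      refine core hF hP hz4 a0 a0' hm hm' ?_ ?_
      · rw [upp_succ (by omega) a1 a2, Nat.cast_mul] at a7
        nlinarith
      · rw [upp_succ (by omega) a1' a2', Nat.cast_mul] at a7'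
        nlinarith
  have h3 : ((Cls St y P z P' Y).card : ℝ) ≤ (((DD St (2 * y / Y) P').card : ℝ) +
      (DD St (y / Y) P').card) *
      (((Finset.Icc 1 ⌊P'⌋₊).filter (fun p : ℕ => p.Prime ∧ P' / 2 < (p : ℝ))).card : ℝ) := by
    have h4 := hcard
    rw [card_product] at h4
    have h5 := h4.trans (Nat.mul_le_mul_right _ (card_union_le _ _))
    exact_mod_cast h5
  refine h3.trans ?_
  exact mul_le_mul_of_nonneg_left (hC P' hP') (by positivity)

theorem far_card {k : ℕ} {R : ℝ} {St : ℕ → ℕ → Prop} (hF : Fam k R St)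
    {y P z P' Y P'' : ℝ} (hy : 0 < y) (hP : 256 * R ≤ P) (hP' : 0 < P') (hY : 0 < Y) (hz : 0 < z)
    (hz4 : 4 * (16 * R / P) * z ^ 2 < 1) :
    ((Far St y P z P' Y P'').card : ℝ) ≤ ((DD St (2 * y * P' / Y) P'').card : ℝ) +
      (DD St (y * P' / Y) P'').card + (DD St (y * P' / (2 * Y)) P'').card := by
  classical
  have h1 : ∀ D ∈ Far St y P z P' Y P'', D ∈ DD St y P ∧
    ∃ s t : ℕ, s.Prime ∧ t.Prime ∧ s ∣ D ∧ t ∣ D ∧ s < t ∧
    (∀ p : ℕ, p.Prime → p ∣ D → s < p → t ≤ p) ∧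
    P' / 2 < (s : ℝ) ∧ (s : ℝ) ≤ P' ∧ P'' / 2 < (t : ℝ) ∧ (t : ℝ) ≤ P'' ∧
    Y / 2 < (upp D s : ℝ) ∧ (upp D s : ℝ) ≤ Y ∧ (upp D s : ℝ) ≤ z * s := by
    intro D hD
    unfold Far at hD
    rw [mem_filter] at hD
    exact hD
  have h2 : ∀ D ∈ Far St y P z P' Y P'', ∃ t : ℕ, seg D t * upp D t = D ∧ 
      (upp D t : ℝ) ≤ z ∧
      seg D t ∈ (DD St (2 * y * P' / Y) P'' ∪ DD St (y * P' / Y) P'') ∪
        DD St (y * P' / (2 * Y)) P'' := by
    intro D hD
    obtain ⟨hDD, s, t, a1, a2, a3, a4, a5, a6, a7, a8, a9, a10, a11, a12, a13⟩ := h1 D hD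
    obtain ⟨b1, b2, b3, q, b4, b5, b6⟩ := mem_DD hDD
    have hus : upp D s = s * upp D t := by
      rw [upp_succ (by omega) a1 a3, upp_next a5 a6]
    have hmul := seg_mul_upp (s := t) (hF.sqf D q b6)
    have hst := hF.sub D q t b6 a2 a4
    have hs : (0 : ℝ) < s := by exact_mod_cast a1.pos
    have hmulR : (seg D t : ℝ) * upp D t = D := by exact_mod_cast hmul
    have husR : (upp D s : ℝ) = s * upp D t := by exact_mod_cast hus
    have hu : (0 : ℝ) < upp D t := by exact_mod_cast (upp_pos : 1 ≤ upp D t)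
    have hs0 : (0 : ℝ) < seg D t := by exact_mod_cast (seg_pos : 1 ≤ seg D t)
    refine ⟨t, hmul, ?_, ?_⟩
    · rw [husR] at a13
      nlinarith
    · -- `N * upp D s = D * s`
      have hN : (seg D t : ℝ) * upp D s = D * s := by rw [husR, ← hmulR]; ring
      have hus0 : (0 : ℝ) < upp D s := by rw [husR]; positivity
      rw [mem_union, mem_union]
      have hup : (seg D t : ℝ) ≤ 2 * y * P' / Y := by
        rw [le_div_iff₀ hY]
        have e1 : (D : ℝ) * s ≤ y * P' := mul_le_mul b2 a8 hs.le hy.le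
        nlinarith
      have hlo : y * P' / (2 * Y) / 2 < (seg D t : ℝ) := by
        rw [div_div, div_lt_iff₀ (by positivity)]
        have e1 : (y / 2) * (P' / 2) < (D : ℝ) * s := by
          apply mul_lt_mul'' b3 a7 (by positivity) (by positivity)
        nlinarith
      rcases le_or_gt (seg D t : ℝ) (y * P' / Y) with h | h
      · rcases le_or_gt (seg D t : ℝ) (y * P' / (2 * Y)) with h' | h'
        · right
          exact DD_of seg_pos h' hlo a9 a10 hst
        · left; right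
          refine DD_of seg_pos h ?_ a9 a10 hst
          rw [show y * P' / Y / 2 = y * P' / (2 * Y) by rw [div_div, mul_comm Y 2]]
          exact h'
      · left; left
        refine DD_of seg_pos hup ?_ a9 a10 hst
        rw [show 2 * y * P' / Y / 2 = y * P' / Y by ring]
        exact h
  choose! tD htD using h2
  have hcard : (Far St y P z P' Y P'').card ≤
      ((DD St (2 * y * P' / Y) P'' ∪ DD St (y * P' / Y) P'') ∪
        DD St (y * P' / (2 * Y)) P'').card := by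
    refine Finset.card_le_card_of_injOn (fun D => seg D (tD D)) ?_ ?_
    · intro D hD
      rw [mem_coe] at hD
      exact (htD D hD).2.2
    · intro D hD D' hD' heq
      rw [mem_coe] at hD hD'
      simp only at heq
      obtain ⟨a1, a2, -⟩ := htD D hD
      obtain ⟨a1', a2', -⟩ := htD D' hD'
      refine core hF hP hz4 (h1 D hD).1 (h1 D' hD').1 a1.symm ?_ a2 a2'
      rw [heq]; exact a1'.symm
  have h3 := hcard.trans ((card_union_le _ _).trans (Nat.add_le_add_right (card_union_le _ _) _))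
  exact_mod_cast h3

theorem sml_card : ∃ C : ℝ, 1 ≤ C ∧ ∀ (k : ℕ) (R : ℝ) (St : ℕ → ℕ → Prop), Fam k R St →
    ∀ y P z w : ℝ, 0 < y → 256 * R ≤ P → 1 ≤ z → 4 * (16 * R / P) * z ^ 2 < 1 → 3000 ≤ w →
    2 * z ≤ y →
    ((Sml St y P z w).card : ℝ) ≤
      C * (y * w / z) * Real.log w * Real.exp (-(Real.log (y / (2 * z)) / Real.log w)) := by
  classical
  obtain ⟨C, hC1, hC⟩ := Pool.Agent.Helper923.PPS.rankin_count
    Pool.Agent.Helper923.HMertens.mertens_log Pool.Agent.Helper923.HMertens.mertens_ratio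
  refine ⟨C, hC1, ?_⟩
  intro k R St hF y P z w hy hP hz hz4 hw hzy
  have hzpos : 0 < z := by linarith
  have hwpos : 0 < w := by linarith
  have h1 : ∀ D ∈ Sml St y P z w, D ∈ DD St y P ∧ ∃ s : ℕ, s.Prime ∧ s ∣ D ∧ (s : ℝ) ≤ w ∧
    z < (upp D s : ℝ) ∧ (upp D s : ℝ) ≤ z * s := by
    intro D hD
    unfold Sml at hD
    rw [mem_filter] at hD
    exact hD
  have h2 : ∀ D ∈ Sml St y P z w, ∃ s : ℕ, s.Prime ∧ s ∣ D ∧ (s : ℝ) ≤ w ∧
    z < (upp D s : ℝ) ∧ (upp D s : ℝ) ≤ z * s := fun D hD => (h1 D hD).2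
  choose! sD hsD using h2
  set v : ℝ := Real.log (y / (2 * z)) with hv
  have hyz : 1 ≤ y / (2 * z) := by rw [le_div_iff₀ (by positivity)]; linarith
  have hv0 : 0 ≤ v := Real.log_nonneg hyz
  have hexpv : Real.exp v = y / (2 * z) := Real.exp_log (by positivity)
  have hzz : 3000 ≤ ⌊w⌋₊ := Nat.le_floor (by exact_mod_cast hw)
  have hcard : (Sml St y P z w).card ≤
      ((Finset.Icc 1 ⌊y * w / z⌋₊).filter
        (fun n => Real.exp v < (Pool.Agent.Helper923.PPS.sp ⌊w⌋₊ n : ℝ))).card := by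
    refine Finset.card_le_card_of_injOn (fun D => seg D (sD D) * sD D) ?_ ?_
    · intro D hD
      rw [mem_coe] at hD
      obtain ⟨a0, -⟩ := h1 D hD
      obtain ⟨a1, a2, a3, a4, a5⟩ := hsD D hD
      obtain ⟨b1, b2, b3, q, b4, b5, b6⟩ := mem_DD a0
      have hsq := hF.sqf D q b6
      have hm : seg D (sD D) * sD D * upp D (sD D + 1) = D := by
        rw [mul_assoc, ← upp_succ (by omega) a1 a2, seg_mul_upp hsq]
      have hm2 : seg D (sD D) * upp D (sD D) = D := seg_mul_upp hsq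
      have hs : (0 : ℝ) < sD D := by exact_mod_cast a1.pos
      have hseg0 : (0 : ℝ) < seg D (sD D) := by exact_mod_cast (seg_pos : 1 ≤ seg D (sD D))
      have hQ' : (upp D (sD D + 1) : ℝ) ≤ z := by
        have h := a5
        rw [upp_succ (by omega) a1 a2, Nat.cast_mul] at h
        nlinarith
      have hmR : (seg D (sD D) : ℝ) * sD D * upp D (sD D + 1) = D := by exact_mod_cast hm
      have hm2R : (seg D (sD D) : ℝ) * upp D (sD D) = D := by exact_mod_cast hm2
      have hN2 : 1 ≤ seg D (sD D) * sD D := Nat.mul_pos seg_pos a1.pos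
      have hN2s : ∀ p, p.Prime → p ∣ seg D (sD D) * sD D → p ≤ ⌊w⌋₊ := by
        intro p hp hpd
        apply Nat.le_floor
        refine le_trans ?_ a3
        rcases (hp.dvd_mul).mp hpd with h | h
        · unfold seg at h
          obtain ⟨p', hp', hpp'⟩ := (Prime.dvd_finsetProd_iff hp.prime _).1 h
          rw [Finset.mem_filter] at hp'
          rw [Nat.prime_dvd_prime_iff_eq hp (Nat.prime_of_mem_primeFactors hp'.1)] at hpp'
          rw [hpp']
          exact_mod_cast hp'.2.le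
        · rw [Nat.prime_dvd_prime_iff_eq hp a1] at h
          rw [h]
      have hsp : Pool.Agent.Helper923.PPS.sp ⌊w⌋₊ (seg D (sD D) * sD D) =
          seg D (sD D) * sD D := by
        unfold Pool.Agent.Helper923.PPS.sp
        rw [Finset.filter_true_of_mem]
        · exact Nat.prod_factorization_pow_eq_self (by omega)
        · intro p hp
          exact hN2s p (Nat.prime_of_mem_primeFactors hp) (Nat.dvd_of_mem_primeFactors hp)
      rw [mem_coe, mem_filter, mem_Icc]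
      simp only
      refine ⟨⟨hN2, ?_⟩, ?_⟩
      · apply Nat.le_floor
        rw [le_div_iff₀ hzpos, Nat.cast_mul]
        have e1 : (seg D (sD D) : ℝ) * z ≤ y := by nlinarith
        calc (seg D (sD D) : ℝ) * (sD D) * z = (seg D (sD D) : ℝ) * z * sD D := by ring
          _ ≤ y * w := mul_le_mul e1 a3 hs.le hy.le
      · rw [hsp, hexpv, div_lt_iff₀ (by positivity), Nat.cast_mul]
        have e1 : (D : ℝ) ≤ (seg D (sD D) : ℝ) * sD D * z := by
          rw [← hmR]
          exact mul_le_mul_of_nonneg_left hQ' (by positivity)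
        nlinarith
    · intro D hD D' hD' heq
      rw [mem_coe] at hD hD'
      simp only at heq
      obtain ⟨a0, -⟩ := h1 D hD
      obtain ⟨a1, a2, a3, a4, a5⟩ := hsD D hD
      obtain ⟨a0', -⟩ := h1 D' hD'
      obtain ⟨a1', a2', a3', a4', a5'⟩ := hsD D' hD'
      obtain ⟨b1, b2, b3, q, b4, b5, b6⟩ := mem_DD a0
      obtain ⟨b1', b2', b3', q', b4', b5', b6'⟩ := mem_DD a0'
      have hm : D = seg D (sD D) * sD D * upp D (sD D + 1) := by
        rw [mul_assoc, ← upp_succ (by omega) a1 a2, seg_mul_upp (hF.sqf D q b6)]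
      have hm' : D' = seg D (sD D) * sD D * upp D' (sD D' + 1) := by
        rw [heq, mul_assoc, ← upp_succ (by omega) a1' a2', seg_mul_upp (hF.sqf D' q' b6')]
      have hs : (0 : ℝ) < sD D := by exact_mod_cast a1.pos
      have hs' : (0 : ℝ) < sD D' := by exact_mod_cast a1'.pos
      refine core hF hP hz4 a0 a0' hm hm' ?_ ?_
      · rw [upp_succ (by omega) a1 a2, Nat.cast_mul] at a5
        nlinarith
      · rw [upp_succ (by omega) a1' a2', Nat.cast_mul] at a5'
        nlinarith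
  have h3 := hC ⌊w⌋₊ ⌊y * w / z⌋₊ v hzz hv0
  have h4 : ((Sml St y P z w).card : ℝ) ≤ C * (⌊y * w / z⌋₊ : ℝ) * Real.log (⌊w⌋₊ : ℝ) *
      Real.exp (-v / Real.log (⌊w⌋₊ : ℝ)) := le_trans (by exact_mod_cast hcard) h3
  refine h4.trans ?_
  have hfl : (3000 : ℝ) ≤ (⌊w⌋₊ : ℝ) := by exact_mod_cast hzz
  have hlog0 : 0 < Real.log (⌊w⌋₊ : ℝ) := Real.log_pos (by linarith)
  have hlog1 : Real.log (⌊w⌋₊ : ℝ) ≤ Real.log w :=
    Real.log_le_log (by linarith) (Nat.floor_le hwpos.le)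
  have hT : (⌊y * w / z⌋₊ : ℝ) ≤ y * w / z := Nat.floor_le (by positivity)
  have hexp : Real.exp (-v / Real.log (⌊w⌋₊ : ℝ)) ≤ Real.exp (-(v / Real.log w)) := by
    apply Real.exp_le_exp.mpr
    rw [neg_div, neg_le_neg_iff]
    exact div_le_div_of_nonneg_left hv0 hlog0 hlog1
  have hC0 : 0 ≤ C := by linarith
  have hyw : 0 ≤ y * w / z := by positivity
  apply mul_le_mul _ hexp (Real.exp_pos _).le
    (mul_nonneg (mul_nonneg hC0 hyw) (hlog0.le.trans hlog1))
  apply mul_le_mul _ hlog1 hlog0.le (mul_nonneg hC0 hyw)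
  exact mul_le_mul_of_nonneg_left hT hC0

end Pool.Agent.H95R2.Leh
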