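import Pool.Agent.H95R2.Leh.Defs
import Pool.Prelude.Def_F_72ad9e24

set_option autoImplicit false

namespace Pool.Agent.H95R2.Leh

theorem foldr_max_ge (l : List ℕ) {x : ℕ} (h : x ∈ l) : x ≤ l.foldr max 0 := by
  induction l with
  | nil => simp at h
  | cons a l ih =>
    simp only [List.foldr_cons]
    rcases List.mem_cons.mp h with h | h
    · rw [h]; exact le_max_left _ _
    · exact le_trans (ih h) (le_max_right _ _)

theorem foldr_max_mem (l : List ℕ) (h : l ≠ []) : l.foldr max 0 ∈ l := by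
  induction l with
  | nil => exact absurd rfl h
  | cons a l ih =>
    simp only [List.foldr_cons]
    by_cases hl : l = []
    · subst hl; simp
    · rcases le_total a (l.foldr max 0) with h1 | h1
      · rw [max_eq_right h1]; exact List.mem_cons_of_mem _ (ih hl)
      · rw [max_eq_left h1]; exact List.mem_cons_self

theorem a_ge {n p : ℕ} (hp : p.Prime) (hn : n ≠ 0) (h : p ∣ n) :
    n.factorization p ≤ Nca8c8b9b.a n := by
  unfold Nca8c8b9b.a
  apply foldr_max_ge
  rw [List.mem_map]
  refine ⟨p, (Nat.mem_primeFactorsList hn).mpr ⟨hp, h⟩, ?_⟩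
  exact Nat.primeFactorsList_count_eq

theorem a_mem {n : ℕ} (hn : 2 ≤ n) : ∃ p : ℕ, p.Prime ∧ p ∣ n ∧
    n.factorization p = Nca8c8b9b.a n := by
  have hne : n.primeFactorsList ≠ [] := by
    intro h
    rw [Nat.primeFactorsList_eq_nil] at h
    omega
  have h := foldr_max_mem (n.primeFactorsList.map (n.primeFactorsList.count ·))
    (by simpa using hne)
  rw [List.mem_map] at h
  obtain ⟨p, hp, hpe⟩ := h
  rw [Nat.mem_primeFactorsList (by omega)] at hp
  refine ⟨p, hp.1, hp.2, ?_⟩
  rw [← Nat.primeFactorsList_count_eq]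
  exact hpe

theorem leh_of_congr {n : ℕ} (h4 : 4 < n) (hc : ¬ n.Prime) (h : n.totient ∣ n - Nca8c8b9b.a n) :
    Leh n := by
  obtain ⟨p, hp, hpn, hpa⟩ := a_mem (show 2 ≤ n by omega)
  set a := Nca8c8b9b.a n with ha
  have hn0 : n ≠ 0 := by omega
  have ha1 : 1 ≤ a := by
    rw [← hpa]
    exact (hp.dvd_iff_one_le_factorization hn0).mp hpn
  have hpow : p ^ a ∣ n := by
    rw [← hpa]; exact Nat.ordProj_dvd n p
  have hapow : a < p ^ a := Nat.lt_pow_self hp.one_lt
  have han : a < n := lt_of_lt_of_le hapow (Nat.le_of_dvd (by omega) hpow)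
  have hpt : p ^ (a - 1) ∣ n.totient := by
    have h1 : (p ^ a).totient ∣ n.totient := Nat.totient_dvd_of_dvd hpow
    rw [Nat.totient_prime_pow hp (by omega)] at h1
    exact dvd_trans (Dvd.intro _ rfl) h1
  have hpa2 : p ^ (a - 1) ∣ a := by
    have h1 : p ^ (a - 1) ∣ n - a := dvd_trans hpt h
    have h2 : p ^ (a - 1) ∣ n := dvd_trans (pow_dvd_pow p (by omega)) hpow
    have h3 : n - (n - a) = a := by omega
    have h5 := Nat.dvd_sub h2 h1
    rwa [h3] at h5
  have hale : a ≤ 2 := by
    by_contra hcon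
    push Not at hcon
    have h1 : p ^ (a - 1) ≤ a := Nat.le_of_dvd (by omega) hpa2
    have h2 : 2 ^ (a - 1) ≤ p ^ (a - 1) := Nat.pow_le_pow_left hp.two_le _
    have h3 : ∀ m : ℕ, 3 ≤ m → m < 2 ^ (m - 1) := by
      intro m hm
      induction m, hm using Nat.le_induction with
      | base => norm_num
      | succ m hm ih =>
        have : m + 1 - 1 = (m - 1) + 1 := by omega
        rw [this, pow_succ]
        omega
    have := h3 a (by omega)
    omega
  rcases Nat.lt_or_ge a 2 with ha2 | ha2
  · have : a = 1 := by omega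
    rw [this] at h
    exact ⟨by omega, hc, h⟩
  exfalso
  have hae : a = 2 := by omega
  rw [hae] at hpa2 h hpow hpa
  have hp2 : p = 2 := by
    have h1 : p ∣ 2 := by simpa using hpa2
    exact (Nat.prime_dvd_prime_iff_eq hp Nat.prime_two).mp h1
  rw [hp2] at hpow hpa
  obtain ⟨m, hm⟩ := hpow
  have hm4 : n = 4 * m := by rw [hm]; norm_num
  have hmodd : ¬ 2 ∣ m := by
    intro hd
    have : 2 ^ 3 ∣ n := by
      obtain ⟨j, hj⟩ := hd
      exact ⟨j, by rw [hm4, hj]; ring⟩
    have := (Nat.prime_two.pow_dvd_iff_le_factorization hn0).mp this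
    omega
  have hcop : Nat.Coprime 4 m := by
    have h1 : Nat.Coprime 2 m := (Nat.Prime.coprime_iff_not_dvd Nat.prime_two).mpr hmodd
    have h2 := Nat.Coprime.pow_left 2 h1
    simpa using h2
  have htot : n.totient = 2 * m.totient := by
    rw [hm4, Nat.totient_mul hcop]
    have : Nat.totient 4 = 2 := by decide
    rw [this]
  have hm2 : 2 ≤ m := by omega
  have hm3 : 2 < m := by
    rcases Nat.lt_or_ge 2 m with h' | h'
    · exact h'
    · exfalso
      have : m = 2 := by omega
      exact hmodd (by rw [this])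
  have heven := Nat.totient_even hm3
  rw [htot] at h
  obtain ⟨c, hc'⟩ := h
  obtain ⟨e, he⟩ := heven
  have h6 : n - 2 = 4 * (e * c) := by
    rw [hc', he]; ring
  omega

end Pool.Agent.H95R2.Leh
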