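import Mathlib

set_option autoImplicit false

/-!
# Lehmer's totient problem: definitions for the counting theorem

`seg n q` is the initial segment of a squarefree integer `n` below `q`, `upp n s` the complementary
part.  `Fam k R St` is the abstract list of properties of the family of pairs
(initial segment `D`, next prime `q`) of the solutions of `n - 1 = k φ(n)`.
-/

namespace Pool.Agent.H95R2.Leh

/-- initial segment of `n` below `q`: the product of the primes of `n` that are smaller than `q` -/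
def seg (n q : ℕ) : ℕ := ∏ p ∈ n.primeFactors.filter (fun p => p < q), p

/-- upper part of `n` from `s` on: the product of the primes of `n` that are at least `s` -/
def upp (n s : ℕ) : ℕ := ∏ p ∈ n.primeFactors.filter (fun p => s ≤ p), p

/-- abstract families of states `St D q` -/
structure Fam (k : ℕ) (R : ℝ) (St : ℕ → ℕ → Prop) : Prop where
  k_pos : 1 ≤ k
  R_one : 1 ≤ R
  sqf : ∀ D q, St D q → Squarefree D
  cop : ∀ D q, St D q → Nat.Coprime D (Nat.totient D)
  ne : ∀ D q, St D q → k * Nat.totient D ≠ D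
  small : ∀ D q, St D q → 16 * R ≤ q → |(k : ℝ) * Nat.totient D - D| * q ≤ 8 * R * D
  sub : ∀ D q s, St D q → s.Prime → s ∣ D → St (seg D s) s
  lt : ∀ D q p, St D q → p.Prime → p ∣ D → p < q

open Classical in
/-- the integers `D` in `(y/2, y]` which have a state `(D, q)` with `q` in `(P/2, P]` -/
noncomputable def DD (St : ℕ → ℕ → Prop) (y P : ℝ) : Finset ℕ :=
  (Finset.Icc 1 ⌊y⌋₊).filter
    (fun D => y / 2 < (D : ℝ) ∧ ∃ q : ℕ, P / 2 < (q : ℝ) ∧ (q : ℝ) ≤ P ∧ St D q)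

/-- normalised count -/
noncomputable def Fn (St : ℕ → ℕ → Prop) (y P : ℝ) : ℝ :=
  ((DD St y P).card : ℝ) * Real.sqrt P / y

/-- `Q` is coprime to its totient and `k φ(N) φ(Q)` is close to `N Q` -/
def Near (k N : ℕ) (η : ℝ) (Q : ℕ) : Prop :=
  Nat.Coprime Q (Nat.totient Q) ∧
    |(k : ℝ) * Nat.totient N * Nat.totient Q - N * Q| ≤ η * (N * Q)

open Classical in
/-- class of `D` by the size of the splitting prime `s` and of the upper part `upp D s` -/
noncomputable def Cls (St : ℕ → ℕ → Prop) (y P z P' Y : ℝ) : Finset ℕ :=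
  (DD St y P).filter (fun D => ∃ s : ℕ, s.Prime ∧ s ∣ D ∧ P' / 2 < (s : ℝ) ∧ (s : ℝ) ≤ P' ∧
    Y / 2 < (upp D s : ℝ) ∧ (upp D s : ℝ) ≤ Y ∧ (upp D s : ℝ) ≤ z * s)

open Classical in
/-- class of `D` by the sizes of the splitting prime `s`, of the next larger prime `t` of `D`
and of the upper part `upp D s` -/
noncomputable def Far (St : ℕ → ℕ → Prop) (y P z P' Y P'' : ℝ) : Finset ℕ :=
  (DD St y P).filter (fun D => ∃ s t : ℕ, s.Prime ∧ t.Prime ∧ s ∣ D ∧ t ∣ D ∧ s < t ∧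
    (∀ p : ℕ, p.Prime → p ∣ D → s < p → t ≤ p) ∧
    P' / 2 < (s : ℝ) ∧ (s : ℝ) ≤ P' ∧ P'' / 2 < (t : ℝ) ∧ (t : ℝ) ≤ P'' ∧
    Y / 2 < (upp D s : ℝ) ∧ (upp D s : ℝ) ≤ Y ∧ (upp D s : ℝ) ≤ z * s)

open Classical in
/-- the `D` whose splitting prime `s` is at most `w` -/
noncomputable def Sml (St : ℕ → ℕ → Prop) (y P z w : ℝ) : Finset ℕ :=
  (DD St y P).filter (fun D => ∃ s : ℕ, s.Prime ∧ s ∣ D ∧ (s : ℝ) ≤ w ∧
    z < (upp D s : ℝ) ∧ (upp D s : ℝ) ≤ z * s)

/-- Lehmer numbers: composite `n` with `φ(n) ∣ n - 1` -/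
def Leh (n : ℕ) : Prop := 1 < n ∧ ¬ n.Prime ∧ Nat.totient n ∣ n - 1

/-- the family of states of the Lehmer numbers in `(x/2, x]` with quotient `k` and at most `R`
prime factors; the number itself is a state with formal next prime `2 * x` -/
def StL (x k : ℕ) (R : ℝ) (D q : ℕ) : Prop :=
  ∃ n : ℕ, Leh n ∧ x < 2 * n ∧ n ≤ x ∧ n - 1 = k * Nat.totient n ∧
    (n.primeFactors.card : ℝ) ≤ R ∧
    ((q.Prime ∧ q ∣ n ∧ D = seg n q) ∨ (q = 2 * x ∧ D = n))

end Pool.Agent.H95R2.Leh
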