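import Pool.Agent.H95R2.Leh.Defs

set_option autoImplicit false

/-! Divisors of states are dense; states of small `D` do not exist. -/

namespace Pool.Agent.H95R2.Leh

open Finset

namespace DenseA

theorem seg_mul_upp0 {D s : ℕ} (hD : Squarefree D) : seg D s * upp D s = D := by
  have h := Nat.prod_primeFactors_of_squarefree hD
  have h2 := Finset.prod_filter_mul_prod_filter_not D.primeFactors (fun p => p < s) (fun p => p)
  rw [h] at h2
  simp only [not_lt] at h2
  exact h2

theorem state_pos {k : ℕ} {R : ℝ} {St : ℕ → ℕ → Prop} (hF : Fam k R St) {D q : ℕ} (h : St D q) :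
    1 ≤ D := Nat.one_le_iff_ne_zero.mpr (hF.sqf D q h).ne_zero

/-- a state with large `q` has `q ≤ 8 R D` -/
theorem key_large {k : ℕ} {R : ℝ} {St : ℕ → ℕ → Prop} (hF : Fam k R St) {D q : ℕ} (h : St D q)
    (hq : 16 * R ≤ q) : (q : ℝ) ≤ 8 * R * D := by
  have h1 := hF.small D q h hq
  have h2 := hF.ne D q h
  have h3 : (1 : ℝ) ≤ |(k : ℝ) * Nat.totient D - D| := by
    have h4 : ((k * Nat.totient D : ℕ) : ℤ) - (D : ℤ) ≠ 0 := by
      intro h5
      apply h2
      have : ((k * Nat.totient D : ℕ) : ℤ) = (D : ℤ) := by linarith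
      exact_mod_cast this
    have h5 := Int.one_le_abs h4
    have h6 : ((1 : ℤ) : ℝ) ≤ ((|((k * Nat.totient D : ℕ) : ℤ) - (D : ℤ)| : ℤ) : ℝ) := by
      exact_mod_cast h5
    push_cast at h6
    exact h6
  have h7 : (0 : ℝ) ≤ q := Nat.cast_nonneg _
  calc (q : ℝ) = 1 * q := by ring
    _ ≤ |(k : ℝ) * Nat.totient D - D| * q := mul_le_mul_of_nonneg_right h3 h7
    _ ≤ _ := h1

/-- every state has `q ≤ 16 R D` -/
theorem key {k : ℕ} {R : ℝ} {St : ℕ → ℕ → Prop} (hF : Fam k R St) {D q : ℕ} (h : St D q) :
    (q : ℝ) ≤ 16 * R * D := by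
  have hR := hF.R_one
  have hD : (1 : ℝ) ≤ D := by exact_mod_cast state_pos hF h
  by_cases hq : 16 * R ≤ q
  · have := key_large hF h hq
    nlinarith
  · push Not at hq
    nlinarith

end DenseA

open DenseA

theorem dense {k : ℕ} {R : ℝ} {St : ℕ → ℕ → Prop} (hF : Fam k R St) {D q : ℕ} (h : St D q)
    {z : ℝ} (hz : 1 ≤ z) (hzD : z ≤ D) :
    ∃ d : ℕ, d ∣ D ∧ z / (16 * R) < (d : ℝ) ∧ (d : ℝ) ≤ z := by
  have hR := hF.R_one
  have hR16 : 0 < 16 * R := by linarith
  induction D using Nat.strong_induction_on generalizing q z with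
  | _ D ih =>
    have hD1 := state_pos hF h
    rcases hD1.eq_or_lt with hD | hD
    · refine ⟨1, one_dvd _, ?_, ?_⟩
      · rw [← hD] at hzD
        rw [div_lt_iff₀ hR16]
        push_cast at hzD ⊢
        linarith
      · push_cast
        exact hz
    · have hsq := hF.sqf D q h
      have hne : D.primeFactors.Nonempty := Nat.nonempty_primeFactors.mpr hD
      set p := D.primeFactors.max' hne with hp
      have hpm : p ∈ D.primeFactors := Finset.max'_mem _ _
      have hpp : p.Prime := Nat.prime_of_mem_primeFactors hpm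
      have hpD : p ∣ D := Nat.dvd_of_mem_primeFactors hpm
      have hst := hF.sub D q p h hpp hpD
      have hup : upp D p = p := by
        unfold upp
        have : D.primeFactors.filter (fun x => p ≤ x) = {p} := by
          ext x
          simp only [Finset.mem_filter, Finset.mem_singleton]
          constructor
          · rintro ⟨h1, h2⟩
            exact le_antisymm (Finset.le_max' _ _ h1) h2
          · rintro rfl
            exact ⟨hpm, le_refl _⟩
        rw [this, Finset.prod_singleton]
      have hmul : seg D p * p = D := by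
        have := seg_mul_upp0 (s := p) hsq
        rwa [hup] at this
      have hD'1 : 1 ≤ seg D p := state_pos hF hst
      have hlt : seg D p < D := by
        calc seg D p < seg D p * p := by nlinarith [hpp.one_lt]
          _ = D := hmul
      have hkey := key hF hst
      have hp0 : (0 : ℝ) < p := by exact_mod_cast hpp.pos
      have hmulR : (seg D p : ℝ) * p = D := by exact_mod_cast hmul
      rcases le_or_gt z (seg D p : ℝ) with hc | hc
      · obtain ⟨d, h1, h2, h3⟩ := ih (seg D p) hlt hst hz hc
        exact ⟨d, h1.trans ⟨p, hmul.symm⟩, h2, h3⟩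
      · rcases le_or_gt (p : ℝ) z with hc2 | hc2
        · obtain ⟨d, h1, h2, h3⟩ := ih (seg D p) hlt hst (z := z / p)
            (by rw [le_div_iff₀ hp0]; linarith) (by rw [div_le_iff₀ hp0]; linarith)
          refine ⟨d * p, ?_, ?_, ?_⟩
          · calc d * p ∣ seg D p * p := Nat.mul_dvd_mul_right h1 p
              _ = D := hmul
          · push_cast
            rw [div_lt_iff₀ hR16] at h2 ⊢
            rw [div_lt_iff₀ hp0] at h2
            linarith
          · push_cast
            rwa [le_div_iff₀ hp0] at h3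
        · refine ⟨seg D p, ⟨p, hmul.symm⟩, ?_, hc.le⟩
          rw [div_lt_iff₀ hR16]
          linarith

theorem Fn_zero {k : ℕ} {R : ℝ} {St : ℕ → ℕ → Prop} (hF : Fam k R St) {y P : ℝ}
    (hP : 32 * R ≤ P) (h : y ≤ P / (16 * R)) : Fn St y P = 0 := by
  have hR := hF.R_one
  have hR16 : 0 < 16 * R := by linarith
  have he : DD St y P = ∅ := by
    classical
    unfold DD
    rw [Finset.eq_empty_iff_forall_notMem]
    intro D hD0
    obtain ⟨hD, hy, q, hq1, hq2, hst⟩ := Finset.mem_filter.mp hD0
    have hDy : (D : ℝ) ≤ y := by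
      have h1 := (Finset.mem_Icc.mp hD).2
      have h2 := (Finset.mem_Icc.mp hD).1
      have hy0 : 0 ≤ y := by
        by_contra hc
        push Not at hc
        have : ⌊y⌋₊ = 0 := Nat.floor_of_nonpos hc.le
        omega
      exact (Nat.le_floor_iff hy0).mp h1
    have hk := key_large hF hst (by linarith)
    rw [le_div_iff₀ hR16] at h
    nlinarith
  unfold Fn
  rw [he]
  simp

end Pool.Agent.H95R2.Leh
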