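import Pool.Agent.H95R2.Leh.Defs

set_option autoImplicit false

/-! Module SEG: segments of squarefree integers. -/

namespace Pool.Agent.H95R2.Leh

open Finset

theorem seg_mul_upp {D s : ℕ} (hD : Squarefree D) : seg D s * upp D s = D := by
  unfold seg upp
  have h := Finset.prod_filter_mul_prod_filter_not D.primeFactors (fun p => p < s) (fun p => p)
  simp only [not_lt] at h
  rw [h]
  exact Nat.prod_primeFactors_of_squarefree hD

theorem exists_split {D : ℕ} (hD : Squarefree D) {z : ℝ} (hz : 1 ≤ z) (hzD : z < D) :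
    ∃ s : ℕ, s.Prime ∧ s ∣ D ∧ z < (upp D s : ℝ) ∧ (upp D s : ℝ) ≤ z * s := by
  classical
  have hD0 : D ≠ 0 := hD.ne_zero
  have hD1 : D ≠ 1 := by
    rintro rfl
    have : (1 : ℝ) < ((1 : ℕ) : ℝ) := lt_of_le_of_lt hz hzD
    simp at this
  set T := D.primeFactors.filter (fun s => z < (upp D s : ℝ)) with hT
  have hne : T.Nonempty := by
    refine ⟨D.minFac, ?_⟩
    rw [hT, Finset.mem_filter, Nat.mem_primeFactors]
    refine ⟨⟨Nat.minFac_prime hD1, Nat.minFac_dvd D, hD0⟩, ?_⟩
    have : upp D D.minFac = D := by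
      unfold upp
      rw [Finset.filter_true_of_mem]
      · exact Nat.prod_primeFactors_of_squarefree hD
      · intro p hp
        rw [Nat.mem_primeFactors] at hp
        exact Nat.minFac_le_of_dvd hp.1.two_le hp.2.1
    rw [this]
    exact hzD
  set s := T.max' hne with hs
  have hsT : s ∈ T := Finset.max'_mem T hne
  rw [hT, Finset.mem_filter, Nat.mem_primeFactors] at hsT
  obtain ⟨⟨hsp, hsD, -⟩, hsz⟩ := hsT
  refine ⟨s, hsp, hsD, hsz, ?_⟩
  have h1 : upp D s = s * upp D (s + 1) := by
    unfold upp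
    have : D.primeFactors.filter (fun p => s ≤ p) =
        insert s (D.primeFactors.filter (fun p => s + 1 ≤ p)) := by
      ext p
      rw [Finset.mem_insert, Finset.mem_filter, Finset.mem_filter]
      constructor
      · rintro ⟨h1, h2⟩
        rcases Nat.eq_or_lt_of_le h2 with h | h
        · exact Or.inl h.symm
        · exact Or.inr ⟨h1, h⟩
      · rintro (h | ⟨h1, h2⟩)
        · subst h
          exact ⟨Nat.mem_primeFactors.2 ⟨hsp, hsD, hD0⟩, le_rfl⟩
        · exact ⟨h1, by omega⟩
    rw [this, Finset.prod_insert]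
    rw [Finset.mem_filter]
    rintro ⟨-, h⟩
    omega
  have h2 : (upp D (s + 1) : ℝ) ≤ z := by
    by_contra hcon
    push Not at hcon
    set U := D.primeFactors.filter (fun p => s + 1 ≤ p) with hU
    have hUne : U.Nonempty := by
      rw [Finset.nonempty_iff_ne_empty]
      intro hemp
      have : upp D (s + 1) = 1 := by
        unfold upp
        rw [← hU, hemp, Finset.prod_empty]
      rw [this] at hcon
      push_cast at hcon
      linarith
    set s' := U.min' hUne with hs'
    have hs'U : s' ∈ U := Finset.min'_mem U hUne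
    have hs'U' := hs'U
    rw [hU, Finset.mem_filter] at hs'U'
    have h3 : upp D s' = upp D (s + 1) := by
      unfold upp
      congr 1
      ext p
      rw [Finset.mem_filter, Finset.mem_filter]
      constructor
      · rintro ⟨h1, h2⟩
        exact ⟨h1, hs'U'.2.trans h2⟩
      · rintro ⟨h1, h2⟩
        exact ⟨h1, Finset.min'_le U p (by rw [hU, Finset.mem_filter]; exact ⟨h1, h2⟩)⟩
    have h4 : s' ∈ T := by
      rw [hT, Finset.mem_filter, h3]
      exact ⟨hs'U'.1, hcon⟩
    have h5 := Finset.le_max' T s' h4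
    omega
  rw [h1]
  push_cast
  rw [mul_comm z]
  exact mul_le_mul_of_nonneg_left h2 (Nat.cast_nonneg _)

/-- a state of a `Fam` satisfies `Near` for each of its factorisations -/
theorem near_of_state {k : ℕ} {R : ℝ} {St : ℕ → ℕ → Prop} (hF : Fam k R St) {D q N Q : ℕ}
    {P : ℝ} (hD : St D q) (hq : P / 2 < q) (hP : 32 * R ≤ P) (hDNQ : D = N * Q) :
    Near k N (16 * R / P) Q := by
  have hsq := hF.sqf D q hD
  have hcop := hF.cop D q hD
  have hR := hF.R_one
  have hP0 : 0 < P := by linarith
  have hs := hF.small D q hD (by linarith)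
  subst hDNQ
  have hNQ : Nat.Coprime N Q := Nat.coprime_of_squarefree_mul hsq
  rw [Nat.totient_mul hNQ] at hs hcop
  constructor
  · have h1 : Q ∣ N * Q := Dvd.intro_left _ rfl
    have h2 : Nat.totient Q ∣ Nat.totient N * Nat.totient Q := Dvd.intro_left _ rfl
    exact (hcop.coprime_dvd_left h1).coprime_dvd_right h2
  · have h1 : |(k : ℝ) * Nat.totient N * Nat.totient Q - N * Q| * (P / 2) ≤ 8 * R * (N * Q) := by
      push_cast at hs
      rw [← mul_assoc] at hs
      refine le_trans ?_ hs
      exact mul_le_mul_of_nonneg_left hq.le (abs_nonneg _)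
    have h2 : 16 * R / P * ((N : ℝ) * Q) = (8 * R * (N * Q)) / (P / 2) := by
      field_simp
      ring
    rw [h2, le_div_iff₀ (by positivity)]
    exact h1

/-- lower bound for `k φ(N)` for every divisor `N` of a state -/
theorem tot_of_state {k : ℕ} {R : ℝ} {St : ℕ → ℕ → Prop} (hF : Fam k R St) {D q N : ℕ}
    (hD : St D q) (hq : 16 * R ≤ q) (hN : N ∣ D) : (N : ℝ) ≤ 2 * (k * Nat.totient N) := by
  have hsq := hF.sqf D q hD
  have hR := hF.R_one
  have hs := hF.small D q hD hq
  obtain ⟨Q, rfl⟩ := hN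
  have hNQ : Nat.Coprime N Q := Nat.coprime_of_squarefree_mul hsq
  have hQ0 : Q ≠ 0 := by
    rintro rfl
    exact hsq.ne_zero (by simp)
  have hQ1 : (0 : ℝ) < Q := by exact_mod_cast Nat.pos_of_ne_zero hQ0
  rw [Nat.totient_mul hNQ] at hs
  push_cast at hs
  have h1 : |(k : ℝ) * (Nat.totient N * Nat.totient Q) - N * Q| * (16 * R) ≤ 8 * R * (N * Q) :=
    le_trans (mul_le_mul_of_nonneg_left hq (abs_nonneg _)) hs
  have h2 : |(k : ℝ) * (Nat.totient N * Nat.totient Q) - N * Q| ≤ N * Q / 2 := by
    have : |(k : ℝ) * (Nat.totient N * Nat.totient Q) - N * Q| * (16 * R) ≤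
        (N * Q / 2) * (16 * R) := by
      refine h1.trans (le_of_eq ?_)
      ring
    exact le_of_mul_le_mul_right this (by linarith)
  have h3 := (abs_le.1 h2).1
  have h4 : (Nat.totient Q : ℝ) ≤ Q := by exact_mod_cast Nat.totient_le Q
  have h5 : (k : ℝ) * (Nat.totient N * Nat.totient Q) ≤ k * Nat.totient N * Q := by
    rw [← mul_assoc]
    exact mul_le_mul_of_nonneg_left h4 (by positivity)
  have h6 : (N : ℝ) * Q ≤ 2 * (k * Nat.totient N) * Q := by linarith
  exact le_of_mul_le_mul_right h6 hQ1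

end Pool.Agent.H95R2.Leh
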