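import Pool.Agent.H95R2.Leh.Defs
import Pool.Agent.H95R2.Leh.Farey
import Pool.Agent.H95R2.Leh.Seg
import Pool.Agent.H95R2.Leh.DenseA
import Pool.Agent.Helper923.PPS.Smooth
import Pool.Agent.Helper923.HMertens

set_option autoImplicit false

/-!
# Lehmer's totient problem: the trivial bound and the smooth bound for `Fn`
-/

namespace Pool.Agent.H95R2.Leh


theorem db_mem_DD {St : ℕ → ℕ → Prop} {y P : ℝ} {D : ℕ} (h : D ∈ DD St y P) :
    1 ≤ D ∧ (D : ℝ) ≤ y ∧ y / 2 < (D : ℝ) ∧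
      ∃ q : ℕ, P / 2 < (q : ℝ) ∧ (q : ℝ) ≤ P ∧ St D q := by
  classical
  unfold DD at h
  rw [Finset.mem_filter, Finset.mem_Icc] at h
  obtain ⟨⟨h1, h2⟩, h3, h4⟩ := h
  refine ⟨h1, ?_, h3, h4⟩
  exact (Nat.le_floor_iff' (by omega)).1 h2

/-- every `D` in `DD` factors as `D = N * d` with `d` near `z`, and `N` determines `D` -/
theorem db_core {k : ℕ} {R : ℝ} {St : ℕ → ℕ → Prop} (hF : Fam k R St) {y P z : ℝ}
    (hP : 256 * R ≤ P) (hyP : P / (16 * R) < y) (hz : 0 ≤ z) (hz2 : z ^ 2 = P / (256 * R)) :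
    ∃ f : ℕ → ℕ, Set.InjOn f (DD St y P : Set ℕ) ∧ ∀ D ∈ DD St y P,
      f D ∣ D ∧ (D : ℝ) ≤ f D * z ∧ (f D : ℝ) * z ≤ 16 * R * y := by
  have hR := hF.R_one
  have hR0 : 0 < R := by linarith
  have hP0 : 0 < P := by linarith
  have hz1 : 1 ≤ z := by
    have h1 : 1 ≤ z ^ 2 := by
      rw [hz2, le_div_iff₀ (by positivity)]; linarith
    nlinarith
  have hzz : z ≤ z ^ 2 := by nlinarith
  have hzP : z * (256 * R) ≤ P := by
    have h1 : z ≤ P / (256 * R) := hz2 ▸ hzz
    rwa [le_div_iff₀ (by positivity)] at h1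
  have hyP' : P < y * (16 * R) := by
    rwa [div_lt_iff₀ (by positivity)] at hyP
  have hex : ∀ D : ℕ, ∃ d : ℕ, D ∈ DD St y P →
      d ∣ D ∧ z / (16 * R) < (d : ℝ) ∧ (d : ℝ) ≤ z := by
    intro D
    by_cases hD : D ∈ DD St y P
    · obtain ⟨h1, h2, h3, q, h4, h5, h6⟩ := db_mem_DD hD
      have hzD : z ≤ D := by
        have : z * R ≤ D * R := by nlinarith
        exact le_of_mul_le_mul_right this hR0
      obtain ⟨d, hd⟩ := dense hF h6 hz1 hzD
      exact ⟨d, fun _ => hd⟩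
    · exact ⟨0, fun h => absurd h hD⟩
  choose g hg using hex
  have hgpos : ∀ D ∈ DD St y P, 1 ≤ g D := by
    intro D hD
    have h1 := (hg D hD).1
    have h2 := (db_mem_DD hD).1
    exact Nat.pos_of_dvd_of_pos h1 (by omega)
  have hfac : ∀ D ∈ DD St y P, D = D / g D * g D := fun D hD =>
    (Nat.div_mul_cancel (hg D hD).1).symm
  refine ⟨fun D => D / g D, ?_, ?_⟩
  · intro D hD D' hD' hE
    have hD : D ∈ DD St y P := hD
    have hD' : D' ∈ DD St y P := hD'
    have hE : D / g D = D' / g D' := hE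
    obtain ⟨h1, h2, h3, q, h4, h5, h6⟩ := db_mem_DD hD
    obtain ⟨h1', h2', h3', q', h4', h5', h6'⟩ := db_mem_DD hD'
    have e1 := hfac D hD
    have e2 := hfac D' hD'
    have n1 := near_of_state hF h6 h4 (by linarith) e1
    have n2 := near_of_state hF h6' h4' (by linarith) e2
    rw [← hE] at n2
    have hN0 : 0 < D / g D := Nat.div_pos (Nat.le_of_dvd (by omega) (hg D hD).1) (hgpos D hD)
    have hk := tot_of_state hF h6 (N := D / g D) (by linarith) (Nat.div_dvd_of_dvd (hg D hD).1)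
    have hη : 0 < 16 * R / P := by positivity
    have hη4 : 4 * (16 * R / P) * z ^ 2 < 1 := by
      rw [hz2]
      have : 4 * (16 * R / P) * (P / (256 * R)) = 1 / 4 := by
        field_simp; norm_num
      rw [this]; norm_num
    have hQ := farey_unique hN0 hk hη hη4 (hgpos D hD) (hgpos D' hD') n1 n2
      (hg D hD).2.2 (hg D' hD').2.2
    rw [e1, e2, hE, hQ]
  · intro D hD
    obtain ⟨h1, h2, h3, -⟩ := db_mem_DD hD
    obtain ⟨g1, g2, g3⟩ := hg D hD
    have e1 : (D : ℝ) = ((D / g D : ℕ) : ℝ) * (g D : ℝ) := by exact_mod_cast hfac D hD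
    refine ⟨Nat.div_dvd_of_dvd g1, ?_, ?_⟩
    · calc (D : ℝ) = ((D / g D : ℕ) : ℝ) * (g D : ℝ) := e1
        _ ≤ ((D / g D : ℕ) : ℝ) * z := mul_le_mul_of_nonneg_left g3 (Nat.cast_nonneg _)
    · have g2' : z < (g D : ℝ) * (16 * R) := by rwa [div_lt_iff₀ (by positivity)] at g2
      calc ((D / g D : ℕ) : ℝ) * z ≤ ((D / g D : ℕ) : ℝ) * ((g D : ℝ) * (16 * R)) :=
            mul_le_mul_of_nonneg_left g2'.le (Nat.cast_nonneg _)
        _ = (16 * R) * (((D / g D : ℕ) : ℝ) * (g D : ℝ)) := by ring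
        _ = 16 * R * D := by rw [← e1]
        _ ≤ 16 * R * y := mul_le_mul_of_nonneg_left h2 (by positivity)

theorem db_sqrt_facts {R P : ℝ} (hR : 1 ≤ R) (hP : 256 * R ≤ P) :
    ∃ z : ℝ, 1 ≤ z ∧ z ^ 2 = P / (256 * R) ∧ Real.sqrt P ≤ 16 * R * z ∧ z ≤ Real.sqrt P ∧
      z * (256 * R) ≤ P := by
  have hR0 : 0 < R := by linarith
  have hP0 : 0 < P := by linarith
  have h0 : 0 ≤ P / (256 * R) := by positivity
  have hs := Real.sq_sqrt h0
  have hz1 : 1 ≤ Real.sqrt (P / (256 * R)) := by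
    rw [Real.one_le_sqrt, le_div_iff₀ (by positivity)]; linarith
  refine ⟨Real.sqrt (P / (256 * R)), hz1, hs, ?_, ?_, ?_⟩
  · apply Real.sqrt_le_iff.2
    refine ⟨by positivity, ?_⟩
    rw [mul_pow, hs]
    have : (16 * R) ^ 2 * (P / (256 * R)) = R * P := by
      field_simp; norm_num
    rw [this]
    nlinarith
  · apply Real.sqrt_le_sqrt
    rw [div_le_iff₀ (by positivity)]
    nlinarith
  · have h1 : Real.sqrt (P / (256 * R)) ≤ P / (256 * R) := by
      nlinarith
    rwa [le_div_iff₀ (by positivity)] at h1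

theorem Fn_triv : ∃ C : ℝ, 1 ≤ C ∧ ∀ (k : ℕ) (R : ℝ) (St : ℕ → ℕ → Prop), Fam k R St →
    ∀ y P : ℝ, 0 < y → C * R ≤ P → Fn St y P ≤ C * R ^ 2 := by
  refine ⟨256, by norm_num, ?_⟩
  intro k R St hF y P hy hP
  have hR := hF.R_one
  have hR0 : 0 < R := by linarith
  rcases le_or_gt y (P / (16 * R)) with h | h
  · rw [Fn_zero hF (by linarith) h]; positivity
  obtain ⟨z, hz1, hz2, hz3, hz4, hz5⟩ := db_sqrt_facts hR hP
  have hz0 : 0 < z := by linarith
  obtain ⟨f, hf1, hf2⟩ := db_core hF hP h hz0.le hz2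
  have hc : (DD St y P).card ≤ ⌊16 * R * y / z⌋₊ := by
    have h1 : ((DD St y P).image f) ⊆ Finset.Icc 1 ⌊16 * R * y / z⌋₊ := by
      intro N hN
      obtain ⟨D, hD, rfl⟩ := Finset.mem_image.1 hN
      obtain ⟨a1, a2, a3⟩ := hf2 D hD
      have a4 := (db_mem_DD hD).1
      rw [Finset.mem_Icc]
      have a5 : 1 ≤ f D := Nat.pos_of_dvd_of_pos a1 (by omega)
      refine ⟨a5, ?_⟩
      apply Nat.le_floor
      rw [le_div_iff₀ hz0]
      exact a3
    have h2 := Finset.card_le_card h1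
    rw [Finset.card_image_of_injOn hf1, Nat.card_Icc] at h2
    omega
  have hc' : ((DD St y P).card : ℝ) ≤ 16 * R * y / z := by
    refine le_trans (by exact_mod_cast hc) (Nat.floor_le (by positivity))
  unfold Fn
  rw [div_le_iff₀ hy]
  calc ((DD St y P).card : ℝ) * Real.sqrt P ≤ (16 * R * y / z) * (16 * R * z) :=
        mul_le_mul hc' hz3 (Real.sqrt_nonneg _) (by positivity)
    _ = 256 * R ^ 2 * y := by field_simp; norm_num

theorem db_sp_eq_self {zz n : ℕ} (hn : n ≠ 0) (h : ∀ p : ℕ, p.Prime → p ∣ n → p ≤ zz) :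
    Pool.Agent.Helper923.PPS.sp zz n = n := by
  unfold Pool.Agent.Helper923.PPS.sp
  rw [Finset.filter_true_of_mem]
  · exact Nat.prod_factorization_pow_eq_self hn
  · intro p hp
    exact h p (Nat.prime_of_mem_primeFactors hp) (Nat.dvd_of_mem_primeFactors hp)

theorem Fn_smooth : ∃ C : ℝ, 1 ≤ C ∧ ∀ (k : ℕ) (R : ℝ) (St : ℕ → ℕ → Prop), Fam k R St →
    ∀ y P : ℝ, 0 < y → C * R ≤ P →
      Fn St y P ≤ C * R ^ 2 * Real.log P * Real.exp (-(Real.log y / Real.log P)) := by
  classical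
  obtain ⟨Cr, hCr1, hCr⟩ := Pool.Agent.Helper923.PPS.rankin_count
    Pool.Agent.Helper923.HMertens.mertens_log Pool.Agent.Helper923.HMertens.mertens_ratio
  refine ⟨3000 + 1280 * Cr, by linarith, ?_⟩
  intro k R St hF y P hy hP0
  have hR := hF.R_one
  have hR0 : 0 < R := by linarith
  have hP3 : 3000 * R ≤ P := by nlinarith
  have hP : 256 * R ≤ P := by linarith
  have hP1 : 3000 ≤ P := by nlinarith
  have hPpos : 0 < P := by linarith
  have hlogP : 0 ≤ Real.log P := Real.log_nonneg (by linarith)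
  rcases le_or_gt y (P / (16 * R)) with h | h
  · rw [Fn_zero hF (by linarith) h]
    positivity
  obtain ⟨z, hz1, hz2, hz3, hz4, hz5⟩ := db_sqrt_facts hR hP
  have hz0 : 0 < z := by linarith
  obtain ⟨f, hf1, hf2⟩ := db_core hF hP h hz0.le hz2
  have hyP' : P < y * (16 * R) := by
    rwa [div_lt_iff₀ (by positivity)] at h
  have h2z : 2 * z ≤ y := by
    have : 2 * z * R ≤ y * R := by nlinarith
    exact le_of_mul_le_mul_right this hR0
  have hv0 : 0 ≤ Real.log (y / (2 * z)) := by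
    apply Real.log_nonneg
    rw [le_div_iff₀ (by positivity)]
    linarith
  have hzz : 3000 ≤ ⌊P⌋₊ := Nat.le_floor (by exact_mod_cast hP1)
  have hc := hCr ⌊P⌋₊ ⌊16 * R * y / z⌋₊ (Real.log (y / (2 * z))) hzz hv0
  have hsub : ((DD St y P).image f) ⊆ (Finset.Icc 1 ⌊16 * R * y / z⌋₊).filter
      (fun n => Real.exp (Real.log (y / (2 * z))) <
        (Pool.Agent.Helper923.PPS.sp ⌊P⌋₊ n : ℝ)) := by
    intro N hN
    obtain ⟨D, hD, rfl⟩ := Finset.mem_image.1 hN
    obtain ⟨a1, a2, a3⟩ := hf2 D hD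
    obtain ⟨b1, b2, b3, q, b4, b5, b6⟩ := db_mem_DD hD
    have a5 : 1 ≤ f D := Nat.pos_of_dvd_of_pos a1 (by omega)
    rw [Finset.mem_filter, Finset.mem_Icc]
    refine ⟨⟨a5, ?_⟩, ?_⟩
    · apply Nat.le_floor
      rw [le_div_iff₀ hz0]
      exact a3
    · rw [db_sp_eq_self (by omega), Real.exp_log (by positivity), div_lt_iff₀ (by positivity)]
      · nlinarith
      · intro p hp hpd
        have c1 := hF.lt D q p b6 hp (hpd.trans a1)
        have c2 : q ≤ ⌊P⌋₊ := Nat.le_floor b5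
        omega
  have hcard := Finset.card_le_card hsub
  rw [Finset.card_image_of_injOn hf1] at hcard
  have hcard' : ((DD St y P).card : ℝ) ≤ Cr * (⌊16 * R * y / z⌋₊ : ℝ) * Real.log (⌊P⌋₊ : ℝ) *
      Real.exp (-(Real.log (y / (2 * z))) / Real.log (⌊P⌋₊ : ℝ)) := by
    have hcard2 : ((DD St y P).card : ℝ) ≤ (((Finset.Icc 1 ⌊16 * R * y / z⌋₊).filter
      (fun n => Real.exp (Real.log (y / (2 * z))) <
        (Pool.Agent.Helper923.PPS.sp ⌊P⌋₊ n : ℝ))).card : ℝ) := by exact_mod_cast hcard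
    refine hcard2.trans ?_
    convert hc using 2
  -- estimates
  have e1 : (⌊16 * R * y / z⌋₊ : ℝ) ≤ 16 * R * y / z := Nat.floor_le (by positivity)
  have hzzR : (3000 : ℝ) ≤ (⌊P⌋₊ : ℝ) := by exact_mod_cast hzz
  have hlz0 : 0 < Real.log (⌊P⌋₊ : ℝ) := Real.log_pos (by linarith)
  have e2 : Real.log (⌊P⌋₊ : ℝ) ≤ Real.log P :=
    Real.log_le_log (by linarith) (Nat.floor_le hPpos.le)
  have hlP : 0 < Real.log P := lt_of_lt_of_le hlz0 e2
  have e3 : Real.exp (-(Real.log (y / (2 * z))) / Real.log (⌊P⌋₊ : ℝ)) ≤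
      5 * Real.exp (-(Real.log y / Real.log P)) := by
    have s1 : Real.log (y / (2 * z)) / Real.log P ≤
        Real.log (y / (2 * z)) / Real.log (⌊P⌋₊ : ℝ) :=
      div_le_div_of_nonneg_left hv0 hlz0 e2
    have s2 : Real.log (y / (2 * z)) = Real.log y - Real.log 2 - Real.log z := by
      rw [Real.log_div (by positivity) (by positivity), Real.log_mul (by norm_num) (by positivity)]
      ring
    have s3 : Real.log z ≤ 1 / 2 * Real.log P := by
      have := Real.log_le_log hz0 hz4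
      rw [Real.log_sqrt hPpos.le] at this
      linarith
    have s4 : Real.log 2 ≤ Real.log P := Real.log_le_log (by norm_num) (by linarith)
    have s5 : Real.log y / Real.log P - 3 / 2 ≤ Real.log (y / (2 * z)) / Real.log P := by
      rw [s2, sub_le_iff_le_add, ← sub_le_iff_le_add', ← sub_div, div_le_iff₀ hlP]
      linarith
    have s6 : -(Real.log (y / (2 * z))) / Real.log (⌊P⌋₊ : ℝ) ≤
        3 / 2 + -(Real.log y / Real.log P) := by
      rw [neg_div]; linarith
    calc Real.exp (-(Real.log (y / (2 * z))) / Real.log (⌊P⌋₊ : ℝ))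
        ≤ Real.exp (3 / 2 + -(Real.log y / Real.log P)) := Real.exp_le_exp.2 s6
      _ = Real.exp (3 / 2) * Real.exp (-(Real.log y / Real.log P)) := Real.exp_add _ _
      _ ≤ 5 * Real.exp (-(Real.log y / Real.log P)) := by
          apply mul_le_mul_of_nonneg_right _ (Real.exp_pos _).le
          have t1 : Real.exp (3 / 2) = Real.sqrt (Real.exp 1 ^ 3) := by
            rw [← Real.exp_nat_mul, ← Real.exp_half]
            norm_num
          rw [t1, Real.sqrt_le_left (by norm_num)]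
          have t2 := Real.exp_one_lt_d9
          have t3 : Real.exp 1 ^ 3 ≤ (2.7182818286 : ℝ) ^ 3 :=
            pow_le_pow_left₀ (Real.exp_pos 1).le t2.le 3
          refine t3.trans (by norm_num)
  have hfin : ((DD St y P).card : ℝ) ≤ Cr * (16 * R * y / z) * Real.log P *
      (5 * Real.exp (-(Real.log y / Real.log P))) := by
    refine hcard'.trans ?_
    gcongr
  unfold Fn
  rw [div_le_iff₀ hy]
  calc ((DD St y P).card : ℝ) * Real.sqrt P
      ≤ (Cr * (16 * R * y / z) * Real.log P *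
      (5 * Real.exp (-(Real.log y / Real.log P)))) * (16 * R * z) :=
        mul_le_mul hfin hz3 (Real.sqrt_nonneg _) (by positivity)
    _ = 1280 * Cr * (R ^ 2 * Real.log P * Real.exp (-(Real.log y / Real.log P)) * y) := by
        field_simp; norm_num
    _ ≤ (3000 + 1280 * Cr) * (R ^ 2 * Real.log P * Real.exp (-(Real.log y / Real.log P)) * y) := by
        apply mul_le_mul_of_nonneg_right (by linarith) (by positivity)
    _ = (3000 + 1280 * Cr) * R ^ 2 * Real.log P * Real.exp (-(Real.log y / Real.log P)) * y := by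
        ring

end Pool.Agent.H95R2.Leh
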