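import Pool.Agent.H95R2.Leh.Defs

set_option autoImplicit false

/-!
# The states of the Lehmer numbers form a family
-/

namespace Pool.Agent.H95R2.Leh

theorem leh_basic {n : ℕ} (h : Leh n) :
    Squarefree n ∧ Odd n ∧ Nat.Coprime n (Nat.totient n) := by
  obtain ⟨h1, h2, h3⟩ := h
  have hco : Nat.Coprime n (n - 1) := by
    obtain ⟨m, rfl⟩ : ∃ m, n = m + 1 := ⟨n - 1, by omega⟩
    simp
  refine ⟨?_, ?_, hco.coprime_dvd_right h3⟩
  · rw [Nat.squarefree_iff_prime_squarefree]
    intro p hp hpp
    have e1 : p ∣ Nat.totient n := by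
      have h4 : Nat.totient (p ^ 2) ∣ Nat.totient n :=
        Nat.totient_dvd_of_dvd (by rw [pow_two]; exact hpp)
      rw [Nat.totient_prime_pow hp (by norm_num)] at h4
      refine dvd_trans ?_ h4
      exact ⟨p - 1, by simp⟩
    have e2 : p ∣ n := dvd_trans (dvd_mul_right p p) hpp
    exact Nat.Prime.not_coprime_iff_dvd.2 ⟨p, hp, e2, dvd_trans e1 h3⟩ hco
  · by_contra hodd
    rw [Nat.not_odd_iff_even] at hodd
    rcases Nat.lt_or_ge 2 n with h5 | h5
    · have h6 : Even (Nat.totient n) := Nat.totient_even h5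
      have h7 : 2 ∣ n - 1 := dvd_trans h6.two_dvd h3
      have h8 : 2 ∣ n := hodd.two_dvd
      exact Nat.Prime.not_coprime_iff_dvd.2 ⟨2, Nat.prime_two, h8, h7⟩ hco
    · have h9 : n = 2 := by omega
      rw [h9] at h2
      exact h2 Nat.prime_two

/-- `∏ p ≤ (|S| + 1) ∏ (p - 1)` for a finite set of integers `≥ 2` -/
theorem prod_le_card (S : Finset ℕ) (hS : ∀ p ∈ S, 2 ≤ p) :
    ∏ p ∈ S, p ≤ (S.card + 1) * ∏ p ∈ S, (p - 1) := by
  induction S using Finset.induction_on_max with
  | empty => simp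
  | insert a s ha ih =>
    have hna : a ∉ s := fun h => lt_irrefl _ (ha a h)
    rw [Finset.prod_insert hna, Finset.prod_insert hna, Finset.card_insert_of_notMem hna]
    have ih' := ih (fun p hp => hS p (Finset.mem_insert_of_mem hp))
    have h2a : 2 ≤ a := hS a (Finset.mem_insert_self a s)
    have hsub : s ⊆ Finset.Ico 2 a := by
      intro p hp
      rw [Finset.mem_Ico]
      exact ⟨hS p (Finset.mem_insert_of_mem hp), ha p hp⟩
    have hcard := Finset.card_le_card hsub
    rw [Nat.card_Ico] at hcard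
    obtain ⟨b, rfl⟩ : ∃ b, a = b + 2 := ⟨a - 2, by omega⟩
    have h3 : b + 2 - 1 = b + 1 := by omega
    rw [h3]
    calc (b + 2) * ∏ p ∈ s, p ≤ (b + 2) * ((s.card + 1) * ∏ p ∈ s, (p - 1)) :=
          Nat.mul_le_mul_left _ ih'
      _ = ((b + 2) * (s.card + 1)) * ∏ p ∈ s, (p - 1) := by ring
      _ ≤ ((s.card + 1 + 1) * (b + 1)) * ∏ p ∈ s, (p - 1) := by
          apply Nat.mul_le_mul_right
          have h4 : s.card ≤ b := by omega
          nlinarith
      _ = (s.card + 1 + 1) * ((b + 1) * ∏ p ∈ s, (p - 1)) := by ring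

theorem le_omega_mul_totient (n : ℕ) :
    n ≤ (n.primeFactors.card + 1) * Nat.totient n := by
  have h1 := Nat.totient_mul_prod_primeFactors n
  have h2 := prod_le_card n.primeFactors (fun p hp => (Nat.prime_of_mem_primeFactors hp).two_le)
  have hpos : 0 < ∏ p ∈ n.primeFactors, (p - 1) :=
    Finset.prod_pos fun p hp => by
      have := (Nat.prime_of_mem_primeFactors hp).two_le
      omega
  have h3 : n * ∏ p ∈ n.primeFactors, (p - 1) ≤
      ((n.primeFactors.card + 1) * Nat.totient n) * ∏ p ∈ n.primeFactors, (p - 1) := by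
    rw [← h1]
    calc Nat.totient n * ∏ p ∈ n.primeFactors, p ≤
        Nat.totient n * ((n.primeFactors.card + 1) * ∏ p ∈ n.primeFactors, (p - 1)) :=
          Nat.mul_le_mul_left _ h2
      _ = _ := by ring
  exact Nat.le_of_mul_le_mul_right h3 hpos

theorem leh_k {n : ℕ} (h : Leh n) : ∃ k : ℕ, 2 ≤ k ∧ n - 1 = k * Nat.totient n ∧
    k ≤ n.primeFactors.card + 1 := by
  obtain ⟨h1, h2, k, hk⟩ := h
  have hn : n ≠ 0 := by omega
  have htot : 0 < Nat.totient n := Nat.totient_pos.2 (by omega)
  refine ⟨k, ?_, by rw [hk, mul_comm], ?_⟩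
  · by_contra hlt
    have h3 : k = 0 ∨ k = 1 := by omega
    rcases h3 with h3 | h3
    · rw [h3, mul_zero] at hk
      omega
    · rw [h3, mul_one] at hk
      exact h2 ((Nat.totient_eq_iff_prime (by omega)).1 hk.symm)
  · have h4 := le_omega_mul_totient n
    have h5 : Nat.totient n * k ≤ Nat.totient n * (n.primeFactors.card + 1) := by
      rw [← hk, mul_comm (Nat.totient n)]
      omega
    exact Nat.le_of_mul_le_mul_left h5 htot

theorem seg_dvd (n q : ℕ) : seg n q ∣ n :=
  dvd_trans (Finset.prod_dvd_prod_of_subset _ _ _ (Finset.filter_subset _ _))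
    (Nat.prod_primeFactors_dvd n)

theorem seg_primeFactors (n q : ℕ) :
    (seg n q).primeFactors = n.primeFactors.filter (fun p => p < q) :=
  Nat.primeFactors_prod fun p hp =>
    Nat.prime_of_mem_primeFactors (Finset.mem_of_mem_filter p hp)

theorem upp_primeFactors (n q : ℕ) :
    (upp n q).primeFactors = n.primeFactors.filter (fun p => q ≤ p) :=
  Nat.primeFactors_prod fun p hp =>
    Nat.prime_of_mem_primeFactors (Finset.mem_of_mem_filter p hp)

theorem seg_seg (n q s : ℕ) (hs : s ≤ q) : seg (seg n q) s = seg n s := by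
  unfold seg
  have h := seg_primeFactors n q
  unfold seg at h
  rw [h, Finset.filter_filter]
  apply Finset.prod_congr ?_ (fun _ _ => rfl)
  apply Finset.filter_congr
  intro p _
  constructor
  · exact fun hp => hp.2
  · exact fun hp => ⟨lt_of_lt_of_le hp hs, hp⟩

theorem seg_mul_upp' {n s : ℕ} (hn : Squarefree n) : seg n s * upp n s = n := by
  unfold seg upp
  have h : n.primeFactors.filter (fun p => s ≤ p)
      = n.primeFactors.filter (fun p => ¬ p < s) := by
    apply Finset.filter_congr
    intro p _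
    exact not_lt.symm
  rw [h, Finset.prod_filter_mul_prod_filter_not]
  exact Nat.prod_primeFactors_of_squarefree hn

theorem seg_upp_coprime (n s : ℕ) : Nat.Coprime (seg n s) (upp n s) := by
  unfold seg upp
  rw [Nat.coprime_prod_left_iff]
  intro i hi
  rw [Nat.coprime_prod_right_iff]
  intro j hj
  rw [Finset.mem_filter] at hi hj
  rw [Nat.coprime_primes (Nat.prime_of_mem_primeFactors hi.1)
    (Nat.prime_of_mem_primeFactors hj.1)]
  omega

theorem prod_ge (S : Finset ℕ) (q : ℝ) (hq : 1 ≤ q) (hS : ∀ p ∈ S, q ≤ (p : ℝ)) :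
    1 - (S.card : ℝ) / q ≤ ∏ p ∈ S, (1 - ((p : ℝ))⁻¹) ∧
      0 ≤ ∏ p ∈ S, (1 - ((p : ℝ))⁻¹) ∧ ∏ p ∈ S, (1 - ((p : ℝ))⁻¹) ≤ 1 := by
  classical
  induction S using Finset.induction_on with
  | empty => simp
  | insert a s ha ih =>
    obtain ⟨i1, i2, i3⟩ := ih (fun p hp => hS p (Finset.mem_insert_of_mem hp))
    have hqa : q ≤ (a : ℝ) := hS a (Finset.mem_insert_self a s)
    have hq0 : 0 < q := by linarith
    have ha0 : (0 : ℝ) < a := by linarith
    have hinv : ((a : ℝ))⁻¹ ≤ q⁻¹ := inv_anti₀ hq0 hqa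
    have hinv0 : 0 ≤ ((a : ℝ))⁻¹ := inv_nonneg.2 ha0.le
    have hinv1 : ((a : ℝ))⁻¹ ≤ 1 := inv_le_one_of_one_le₀ (by linarith)
    rw [Finset.prod_insert ha, Finset.card_insert_of_notMem ha]
    set T := ∏ p ∈ s, (1 - ((p : ℝ))⁻¹) with hT
    refine ⟨?_, ?_, ?_⟩
    · push_cast
      have e1 : ((s.card : ℝ) + 1) / q = (s.card : ℝ) / q + q⁻¹ := by
        rw [add_div, one_div]
      rw [e1]
      have e2 : T * ((a : ℝ))⁻¹ ≤ 1 * q⁻¹ := mul_le_mul i3 hinv hinv0 zero_le_one
      nlinarith
    · exact mul_nonneg (by linarith) i2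
    · have : (1 - ((a : ℝ))⁻¹) * T ≤ 1 * 1 := mul_le_mul (by linarith) i3 i2 zero_le_one
      linarith

theorem fam_leh (x k : ℕ) (R : ℝ) (hk : 1 ≤ k) (hR : 1 ≤ R) : Fam k R (StL x k R) := by
  refine ⟨hk, hR, ?_, ?_, ?_, ?_, ?_, ?_⟩
  · rintro D q ⟨n, hn, -, -, -, -, h⟩
    obtain ⟨hsq, -, -⟩ := leh_basic hn
    rcases h with ⟨-, -, rfl⟩ | ⟨-, rfl⟩
    · exact hsq.squarefree_of_dvd (seg_dvd n q)
    · exact hsq
  · rintro D q ⟨n, hn, -, -, -, -, h⟩
    obtain ⟨-, -, hco⟩ := leh_basic hn
    rcases h with ⟨-, -, rfl⟩ | ⟨-, rfl⟩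
    · exact (hco.coprime_dvd_left (seg_dvd n q)).coprime_dvd_right
        (Nat.totient_dvd_of_dvd (seg_dvd n q))
    · exact hco
  · rintro D q ⟨n, hn, -, -, hkn, -, h⟩ hD
    obtain ⟨-, hodd, hco⟩ := leh_basic hn
    have hDn : D ∣ n := by
      rcases h with ⟨-, -, rfl⟩ | ⟨-, rfl⟩
      · exact seg_dvd n q
      · exact dvd_rfl
    have hcoD : Nat.Coprime D (Nat.totient D) :=
      (hco.coprime_dvd_left hDn).coprime_dvd_right (Nat.totient_dvd_of_dvd hDn)
    have h1 : Nat.totient D ∣ D := ⟨k, by rw [mul_comm]; exact hD.symm⟩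
    have h2 : Nat.totient D = 1 := Nat.Coprime.eq_one_of_dvd hcoD.symm h1
    have hD1 : D = 1 := by
      rcases (Nat.totient_eq_one_iff).1 h2 with h3 | h3
      · exact h3
      · exfalso
        rw [h3] at hDn
        rw [← Nat.not_even_iff_odd] at hodd
        exact hodd (even_iff_two_dvd.2 hDn)
    rw [h2, hD1, mul_one] at hD
    rw [hD, one_mul] at hkn
    exact hn.2.1 ((Nat.totient_eq_iff_prime (by have := hn.1; omega)).1 hkn.symm)
  · rintro D q ⟨n, hn, hx1, hx2, hkn, hcard, h⟩ hq
    obtain ⟨hsq, hodd, hco⟩ := leh_basic hn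
    have hn1 := hn.1
    rcases h with ⟨hqp, hqn, rfl⟩ | ⟨rfl, rfl⟩
    · set D := seg n q with hD
      set M := upp n q with hM
      have hDM : D * M = n := seg_mul_upp' hsq
      have hcop : Nat.Coprime D M := seg_upp_coprime n q
      have hphi : Nat.totient n = Nat.totient D * Nat.totient M := by
        rw [← hDM, Nat.totient_mul hcop]
      have hMpf : M.primeFactors = n.primeFactors.filter (fun p => q ≤ p) :=
        upp_primeFactors n q
      have hMr : (Nat.totient M : ℝ) = M * ∏ p ∈ M.primeFactors, (1 - ((p : ℝ))⁻¹) := by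
        have := Nat.totient_eq_mul_prod_factors M
        have h2 : ((Nat.totient M : ℚ) : ℝ) =
          (((M : ℚ) * ∏ p ∈ M.primeFactors, (1 - ((p : ℚ))⁻¹) : ℚ) : ℝ) := by
          rw [this]
        push_cast at h2
        exact h2
      have hq1 : (1 : ℝ) ≤ q := by exact_mod_cast hqp.one_lt.le
      obtain ⟨p1, p2, p3⟩ := prod_ge M.primeFactors q hq1 (by
        intro p hp
        rw [hMpf, Finset.mem_filter] at hp
        exact_mod_cast hp.2)
      have hcM : (M.primeFactors.card : ℝ) ≤ R := by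
        refine le_trans ?_ hcard
        rw [hMpf]
        exact_mod_cast Finset.card_le_card (Finset.filter_subset _ _)
      have hD0 : 0 < D := Nat.pos_of_ne_zero (by rintro h0; rw [h0, zero_mul] at hDM; omega)
      have hM0 : 0 < M := Nat.pos_of_ne_zero (by rintro h0; rw [h0, mul_zero] at hDM; omega)
      have hphM : 0 < Nat.totient M := Nat.totient_pos.2 hM0
      have hM1 : 1 < M := by
        have : q ∈ M.primeFactors := by
          rw [hMpf, Finset.mem_filter]
          exact ⟨Nat.mem_primeFactors.2 ⟨hqp, hqn, by omega⟩, le_refl q⟩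
        have h3 := Nat.le_of_dvd hM0 (Nat.dvd_of_mem_primeFactors this)
        have := hqp.one_lt
        omega
      have hlt : Nat.totient M < M := Nat.totient_lt M hM1
      -- the key identity
      have hkey : (k : ℝ) * Nat.totient D * Nat.totient M = D * M - 1 := by
        have h4 : n - 1 = k * (Nat.totient D * Nat.totient M) := by rw [← hphi]; exact hkn
        have h5 : (n : ℝ) - 1 = k * (Nat.totient D * Nat.totient M) := by
          have h6 : ((n - 1 : ℕ) : ℝ) = (n : ℝ) - 1 := by
            rw [Nat.cast_sub hn1.le, Nat.cast_one]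
          rw [← h6, h4]
          push_cast
          ring
        have h7 : (n : ℝ) = D * M := by rw [← hDM]; push_cast; ring
        rw [h7] at h5
        linarith
      have hq0 : (0 : ℝ) < q := by linarith
      have hRq : R / q ≤ 1 / 16 := by
        rw [div_le_div_iff₀ hq0 (by norm_num)]
        linarith
      have hMR : (0 : ℝ) < M := by exact_mod_cast hM0
      have hDR : (0 : ℝ) < D := by exact_mod_cast hD0
      have hpMR : (0 : ℝ) < Nat.totient M := by exact_mod_cast hphM
      have hlow : (M : ℝ) * (1 - R / q) ≤ Nat.totient M := by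
        rw [hMr]
        apply mul_le_mul_of_nonneg_left _ hMR.le
        have : (M.primeFactors.card : ℝ) / q ≤ R / q := div_le_div_of_nonneg_right hcM hq0.le
        linarith
      -- M - φ(M) ≤ M R / q
      have hdiff : (M : ℝ) - Nat.totient M ≤ M * (R / q) := by linarith
      have hge1 : (1 : ℝ) ≤ (M : ℝ) - Nat.totient M := by
        have : Nat.totient M + 1 ≤ M := hlt
        have h8 : ((Nat.totient M + 1 : ℕ) : ℝ) ≤ M := by exact_mod_cast this
        push_cast at h8
        linarith
      have hD1 : (1 : ℝ) ≤ D := by exact_mod_cast hD0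
      have hval : ((k : ℝ) * Nat.totient D - D) * Nat.totient M
          = D * ((M : ℝ) - Nat.totient M) - 1 := by
        rw [sub_mul, hkey]; ring
      have hnn : 0 ≤ (k : ℝ) * Nat.totient D - D := by
        by_contra hneg
        push Not at hneg
        have h9 : ((k : ℝ) * Nat.totient D - D) * Nat.totient M < 0 :=
          mul_neg_of_neg_of_pos hneg hpMR
        have h10 : (1 : ℝ) ≤ D * ((M : ℝ) - Nat.totient M) := by nlinarith
        linarith
      rw [abs_of_nonneg hnn]
      have hup : ((k : ℝ) * Nat.totient D - D) * Nat.totient M ≤ D * (M * (R / q)) := by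
        rw [hval]
        have : (D : ℝ) * ((M : ℝ) - Nat.totient M) ≤ D * (M * (R / q)) :=
          mul_le_mul_of_nonneg_left hdiff hDR.le
        linarith
      have hMlow : (M : ℝ) / 2 ≤ Nat.totient M := by nlinarith
      -- (kφ(D) - D) * (M/2) ≤ D M R/q
      have h11 : ((k : ℝ) * Nat.totient D - D) * (M / 2) ≤ D * (M * (R / q)) :=
        le_trans (mul_le_mul_of_nonneg_left hMlow hnn) hup
      have h12 : ((k : ℝ) * Nat.totient D - D) ≤ 2 * D * (R / q) := by
        have h13 : ((k : ℝ) * Nat.totient D - D) * M ≤ (2 * D * (R / q)) * M := by linarith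
        exact le_of_mul_le_mul_right h13 hMR
      calc ((k : ℝ) * Nat.totient D - D) * q ≤ (2 * D * (R / q)) * q :=
            mul_le_mul_of_nonneg_right h12 hq0.le
        _ = 2 * R * D := by field_simp
        _ ≤ 8 * R * D := by nlinarith
    · have h1 : (k : ℝ) * Nat.totient D = D - 1 := by
        have h6 : ((D - 1 : ℕ) : ℝ) = (D : ℝ) - 1 := by
          rw [Nat.cast_sub hn1.le, Nat.cast_one]
        rw [← h6, hkn]
        push_cast
        ring
      rw [h1]
      have h2 : |(D : ℝ) - 1 - D| = 1 := by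
        rw [show (D : ℝ) - 1 - D = -1 by ring, abs_neg, abs_one]
      rw [h2, one_mul]
      have h3 : ((2 * x : ℕ) : ℝ) ≤ 4 * D := by
        have : 2 * x ≤ 4 * D := by omega
        exact_mod_cast this
      have h4 : (0 : ℝ) < D := by
        have : 0 < D := by omega
        exact_mod_cast this
      nlinarith
  · rintro D q s ⟨n, hn, hx1, hx2, hkn, hcard, h⟩ hs hsD
    refine ⟨n, hn, hx1, hx2, hkn, hcard, Or.inl ⟨hs, ?_, ?_⟩⟩
    · rcases h with ⟨-, -, rfl⟩ | ⟨-, rfl⟩
      · exact dvd_trans hsD (seg_dvd n q)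
      · exact hsD
    · rcases h with ⟨-, -, rfl⟩ | ⟨-, rfl⟩
      · have hne : seg n q ≠ 0 := by
          intro h0
          have := seg_dvd n q
          rw [h0] at this
          have := Nat.eq_zero_of_zero_dvd this
          have := hn.1
          omega
        have : s ∈ (seg n q).primeFactors := Nat.mem_primeFactors.2 ⟨hs, hsD, hne⟩
        rw [seg_primeFactors, Finset.mem_filter] at this
        exact seg_seg n q s this.2.le
      · rfl
  · rintro D q p ⟨n, hn, hx1, hx2, hkn, hcard, h⟩ hp hpD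
    have hn1 := hn.1
    rcases h with ⟨-, -, rfl⟩ | ⟨rfl, rfl⟩
    · have hne : seg n q ≠ 0 := by
        intro h0
        have := seg_dvd n q
        rw [h0] at this
        have := Nat.eq_zero_of_zero_dvd this
        omega
      have : p ∈ (seg n q).primeFactors := Nat.mem_primeFactors.2 ⟨hp, hpD, hne⟩
      rw [seg_primeFactors, Finset.mem_filter] at this
      exact this.2
    · have := Nat.le_of_dvd (by omega) hpD
      omega

end Pool.Agent.H95R2.Leh
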