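import Mathlib
import Pool.Agent.H95R2.Leh.Defs

set_option autoImplicit false

/-! ITER: the iteration (pure real analysis), task 10 of helper95's project on Lehmer numbers. -/

namespace Pool.Agent.H95R2.Leh

open Filter

/-- the sequence `c_0 = 9/10`, `c_{j+1} = 5 c_j - 31/10` -/
noncomputable def cseq (j : ℕ) : ℝ := 31 / 40 + 5 ^ j / 8

theorem cseq_zero : cseq 0 = 9 / 10 := by norm_num [cseq]

theorem cseq_succ (j : ℕ) : cseq (j + 1) = 5 * cseq j - 31 / 10 := by
  unfold cseq; ring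

theorem cseq_ge (j : ℕ) : 9 / 10 ≤ cseq j := by
  unfold cseq
  have : (1 : ℝ) ≤ 5 ^ j := one_le_pow₀ (by norm_num)
  linarith

/-- the recursive bound -/
noncomputable def eseq (κ b s : ℝ) (M : ℕ) : ℕ → ℝ
  | 0 => κ
  | a + 1 => (2 * κ) ^ M * (b + s * eseq κ b s M a)

theorem eseq_nonneg (κ b s : ℝ) (M : ℕ) (hκ : 1 ≤ κ) (hb : 0 ≤ b) (hs : 0 ≤ s) (a : ℕ) :
    0 ≤ eseq κ b s M a := by
  induction a with
  | zero => unfold eseq; linarith
  | succ a ih => unfold eseq; positivity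

theorem iter_core (x w q κ b s c2L Lsq : ℝ) (J : ℕ) (F : ℝ → ℝ → ℝ) (hw : 1 ≤ w) (hq : 0 ≤ q)
    (hκ : 1 ≤ κ) (hb : 0 ≤ b) (hs : 0 ≤ s) (hJ : c2L ≤ cseq J) (hJ2 : ∀ j < J, cseq j ≤ Lsq)
    (H1 : ∀ y P : ℝ, 0 < y → Real.exp q ≤ P → P ≤ x → F y P ≤ κ)
    (H2 : ∀ y P : ℝ, 0 < y → Real.exp q ≤ P → P ≤ x →
      Real.log y < 9 / 10 * Real.log P → F y P = 0)
    (H3 : ∀ y P : ℝ, 0 < y → Real.exp q ≤ P → P ≤ x →
      c2L * Real.log P ≤ Real.log y → F y P ≤ b)
    (H4 : ∀ P c β0 β1 : ℝ, Real.exp q ≤ P → P ≤ x →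
      9 / 10 ≤ c → c ≤ Lsq → 0 ≤ β0 → 0 ≤ β1 →
      (∀ y' P' : ℝ, 0 < y' → 0 < P' → Real.log P / w ≤ Real.log P' → P' ≤ P → F y' P' ≤ β0) →
      (∀ y' P' : ℝ, 0 < y' → 0 < P' → Real.log P / w ≤ Real.log P' → P' ≤ P →
        (5 * c - 31 / 10) * Real.log P' ≤ Real.log y' → F y' P' ≤ β1) →
      ∀ y : ℝ, 0 < y → c * Real.log P ≤ Real.log y → F y P ≤ b + κ * (s * β0 + β1)) (a : ℕ) :
    ∀ y P : ℝ, 0 < y → 0 < P → q * w ^ (a * (J + 1)) ≤ Real.log P → P ≤ x →
      F y P ≤ eseq κ b s (J + 1) a := by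
  have hw0 : 0 < w := by linarith
  have hexp : ∀ (m : ℕ) (P : ℝ), 0 < P → q * w ^ m ≤ Real.log P → Real.exp q ≤ P := by
    intro m P hP h
    rw [← Real.le_log_iff_exp_le hP]
    have : (1 : ℝ) ≤ w ^ m := one_le_pow₀ hw
    nlinarith
  have hlogP : ∀ (m : ℕ) (P : ℝ), q * w ^ m ≤ Real.log P → 0 ≤ Real.log P := by
    intro m P h
    exact le_trans (by positivity) h
  induction a with
  | zero =>
    intro y P hy hP h hx
    unfold eseq
    exact H1 y P hy (hexp _ P hP h) hx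
  | succ a ih =>
    set G : ℝ := b + s * eseq κ b s (J + 1) a with hG
    have he0 := eseq_nonneg κ b s (J + 1) hκ hb hs a
    have hG0 : 0 ≤ G := by positivity
    have hbG : b ≤ G := by rw [hG]; nlinarith [mul_nonneg hs he0]
    have h2κ : 1 ≤ 2 * κ := by linarith
    -- downward induction
    have claim : ∀ i : ℕ, i ≤ J → ∀ y P : ℝ, 0 < y → 0 < P →
        q * w ^ (a * (J + 1) + 1 + i) ≤ Real.log P → P ≤ x →
        cseq (J - i) * Real.log P ≤ Real.log y → F y P ≤ (2 * κ) ^ (i + 1) * G := by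
      intro i
      induction i with
      | zero =>
        intro _ y P hy hP h hx hc
        have h1 : F y P ≤ b := by
          apply H3 y P hy (hexp _ P hP h) hx
          have : c2L * Real.log P ≤ cseq J * Real.log P :=
            mul_le_mul_of_nonneg_right hJ (hlogP _ P h)
          simp only [Nat.sub_zero] at hc
          linarith
        have h2 : G ≤ (2 * κ) ^ (0 + 1) * G := by
          rw [zero_add, pow_one]; nlinarith
        linarith
      | succ i ihi =>
        intro hi y P hy hP h hx hc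
        have hstep := H4 P (cseq (J - (i + 1))) (eseq κ b s (J + 1) a) ((2 * κ) ^ (i + 1) * G)
          (hexp _ P hP h) hx (cseq_ge _) (hJ2 _ (by omega)) he0 (by positivity)
          (by
            intro y' P' hy' hP' hl hPP
            apply ih y' P' hy' hP' _ (hPP.trans hx)
            have h3 : q * w ^ (a * (J + 1) + 1 + i) ≤ Real.log P' := by
              refine le_trans ?_ hl
              rw [le_div_iff₀ hw0]
              calc q * w ^ (a * (J + 1) + 1 + i) * w = q * w ^ (a * (J + 1) + 1 + (i + 1)) := by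
                    rw [mul_assoc, ← pow_succ]; rfl
                _ ≤ _ := h
            refine le_trans ?_ h3
            apply mul_le_mul_of_nonneg_left _ hq
            exact pow_le_pow_right₀ hw (by omega))
          (by
            intro y' P' hy' hP' hl hPP hc'
            apply ihi (by omega) y' P' hy' hP' _ (hPP.trans hx)
            · rw [← cseq_succ, show J - (i + 1) + 1 = J - i by omega] at hc'
              exact hc'
            · refine le_trans ?_ hl
              rw [le_div_iff₀ hw0]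
              calc q * w ^ (a * (J + 1) + 1 + i) * w = q * w ^ (a * (J + 1) + 1 + (i + 1)) := by
                    rw [mul_assoc, ← pow_succ]; rfl
                _ ≤ _ := h)
          y hy hc
        refine hstep.trans ?_
        have hp1 : 1 ≤ (2 * κ) ^ (i + 1) := one_le_pow₀ h2κ
        have e1 : s * eseq κ b s (J + 1) a = G - b := by rw [hG]; ring
        rw [e1]
        have e2 : (2 * κ) ^ (i + 1 + 1) * G = 2 * κ * ((2 * κ) ^ (i + 1) * G) := by ring
        rw [e2]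
        have e3 : G ≤ (2 * κ) ^ (i + 1) * G := by nlinarith
        have e4 : κ * G ≤ κ * ((2 * κ) ^ (i + 1) * G) := mul_le_mul_of_nonneg_left e3 (by linarith)
        nlinarith
    intro y P hy hP h hx
    have heq : eseq κ b s (J + 1) (a + 1) = (2 * κ) ^ (J + 1) * G := by
      rw [hG]; rfl
    rw [heq]
    have hm : (a + 1) * (J + 1) = a * (J + 1) + 1 + J := by ring
    rw [hm] at h
    rcases lt_or_ge (Real.log y) (9 / 10 * Real.log P) with h9 | h9
    · rw [H2 y P hy (hexp _ P hP h) hx h9]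
      positivity
    · apply claim J le_rfl y P hy hP h hx
      rw [Nat.sub_self, cseq_zero]
      exact h9

theorem eseq_bound (κ b s T : ℝ) (M : ℕ) (hκ : 1 ≤ κ) (hT : 1 ≤ T) (hb : 0 ≤ b)
    (hM : (2 * κ) ^ M ≤ T / 2) (hs : s = T⁻¹ * T⁻¹) (a : ℕ) :
    eseq κ b s M a ≤ b * T + T⁻¹ ^ a * κ := by
  have hT0 : 0 < T := by linarith
  have hs0 : 0 ≤ s := by rw [hs]; positivity
  induction a with
  | zero =>
    unfold eseq
    rw [pow_zero, one_mul]
    nlinarith [mul_nonneg hb hT0.le]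
  | succ a ih =>
    unfold eseq
    have he0 := eseq_nonneg κ b s M hκ hb hs0 a
    have hTi : 0 < T⁻¹ := by positivity
    have hTi1 : T⁻¹ ≤ 1 := inv_le_one_of_one_le₀ hT
    calc (2 * κ) ^ M * (b + s * eseq κ b s M a) ≤ (T / 2) * (b + s * eseq κ b s M a) :=
          mul_le_mul_of_nonneg_right hM (by positivity)
      _ ≤ (T / 2) * (b + s * (b * T + T⁻¹ ^ a * κ)) := by
          apply mul_le_mul_of_nonneg_left _ (by positivity)
          have := mul_le_mul_of_nonneg_left ih hs0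
          linarith
      _ = b * T / 2 + (b * T) * (T * s) / 2 + (T * s) * (T⁻¹ ^ a * κ) / 2 := by ring
      _ = b * T / 2 + (b * T) * T⁻¹ / 2 + (T⁻¹ ^ (a + 1) * κ) / 2 := by
          have : T * s = T⁻¹ := by rw [hs]; field_simp
          rw [this]; ring
      _ ≤ b * T + T⁻¹ ^ (a + 1) * κ := by
          have h1 : 0 ≤ b * T := by positivity
          have h2 : 0 ≤ T⁻¹ ^ (a + 1) * κ := by positivity
          have h3 : (b * T) * T⁻¹ ≤ b * T := by nlinarith
          linarith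

set_option maxHeartbeats 4000000 in
/-- ITER.  Compared with the first stub the premises of the step hypothesis contain `0 < P'`. -/
theorem iterate (A c1 c2 c3 : ℝ) (hA : 1 ≤ A) (hc1 : 1 ≤ c1) (hc2 : 1 ≤ c2) (hc3 : 0 ≤ c3) :
    ∃ X0 : ℝ, ∀ x : ℝ, X0 ≤ x → ∀ F : ℝ → ℝ → ℝ,
    (∀ y P : ℝ, 0 < y → Real.exp ((Real.log x) ^ (3 / 4 : ℝ)) ≤ P → P ≤ 2 * x →
      F y P ≤ (Real.log (Real.log x)) ^ c3) →
    (∀ y P : ℝ, 0 < y → Real.exp ((Real.log x) ^ (3 / 4 : ℝ)) ≤ P → P ≤ 2 * x →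
      Real.log y < 9 / 10 * Real.log P → F y P = 0) →
    (∀ y P : ℝ, 0 < y → Real.exp ((Real.log x) ^ (3 / 4 : ℝ)) ≤ P → P ≤ 2 * x →
      c2 * Real.log (Real.log x) * Real.log P ≤ Real.log y → F y P ≤ (Real.log x) ^ (-(A + 1))) →
    (∀ P c β0 β1 : ℝ, Real.exp ((Real.log x) ^ (3 / 4 : ℝ)) ≤ P → P ≤ 2 * x →
      9 / 10 ≤ c → c ≤ (Real.log (Real.log x)) ^ 2 → 0 ≤ β0 → 0 ≤ β1 →
      (∀ y' P' : ℝ, 0 < y' → 0 < P' →
        Real.log P / (c1 * Real.log (Real.log x)) ≤ Real.log P' → P' ≤ P → F y' P' ≤ β0) →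
      (∀ y' P' : ℝ, 0 < y' → 0 < P' →
        Real.log P / (c1 * Real.log (Real.log x)) ≤ Real.log P' → P' ≤ P →
        (5 * c - 31 / 10) * Real.log P' ≤ Real.log y' → F y' P' ≤ β1) →
      ∀ y : ℝ, 0 < y → c * Real.log P ≤ Real.log y →
        F y P ≤ (Real.log x) ^ (-(A + 1)) +
          (Real.log (Real.log x)) ^ c3 * ((Real.log x) ^ (-(1 / 2) : ℝ) * β0 + β1)) →
    ∀ y : ℝ, 0 < y → F y (2 * x) ≤ (Real.log x) ^ (-A) := by
  set N : ℕ := ⌈4 * A⌉₊ + 8 with hN
  have hN1 : 4 * A + 8 ≤ N := by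
    rw [hN]; push_cast
    linarith [Nat.le_ceil (4 * A)]
  set m0 : ℝ := Real.log (40 * c2) + 2 with hm0
  have hlog40 : 0 ≤ Real.log (40 * c2) := Real.log_nonneg (by linarith)
  have hm02 : 2 ≤ m0 := by linarith
  have hlogc1 : 0 ≤ Real.log c1 := Real.log_nonneg hc1
  set K : ℝ := 8 * (m0 * (1 + c3)) + 4 * (N * m0 * (Real.log c1 + 1)) with hK
  have hK0 : 0 ≤ K := by positivity
  -- conditions on `L`
  have hev1 : ∀ᶠ L : ℝ in atTop, K * (Real.log L) ^ 2 ≤ L := by
    have h := (Real.isLittleO_pow_log_id_atTop (n := 2)).bound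
      (show (0 : ℝ) < 1 / (K + 1) by positivity)
    filter_upwards [h, eventually_ge_atTop 1] with L hL hL1
    simp only [id, Real.norm_eq_abs] at hL
    rw [abs_of_nonneg (by positivity), abs_of_nonneg (by linarith)] at hL
    have h2 : (K + 1) * (Real.log L) ^ 2 ≤ L := by
      calc (K + 1) * (Real.log L) ^ 2 ≤ (K + 1) * (1 / (K + 1) * L) :=
            mul_le_mul_of_nonneg_left hL (by positivity)
        _ = L := by field_simp
    nlinarith [sq_nonneg (Real.log L)]
  have hev2 : ∀ᶠ L : ℝ in atTop, K * (Real.log L) ^ 2 ≤ L ∧ Real.exp 1 ≤ L ∧ c2 ≤ L ∧ 8 ≤ L := by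
    filter_upwards [hev1, eventually_ge_atTop (Real.exp 1), eventually_ge_atTop c2,
      eventually_ge_atTop 8] with L h1 h2 h3 h4
    exact ⟨h1, h2, h3, h4⟩
  have hev3 : ∀ᶠ x : ℝ in atTop, (K * (Real.log (Real.log (Real.log x))) ^ 2 ≤ Real.log (Real.log x) ∧
      Real.exp 1 ≤ Real.log (Real.log x) ∧ c2 ≤ Real.log (Real.log x) ∧
      8 ≤ Real.log (Real.log x)) ∧ 1 ≤ Real.log x ∧ 1 ≤ x :=
    ((Real.tendsto_log_atTop.comp Real.tendsto_log_atTop).eventually hev2).and
      ((Real.tendsto_log_atTop.eventually_ge_atTop 1).and (eventually_ge_atTop 1))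
  obtain ⟨X0, hX0⟩ := eventually_atTop.1 hev3
  refine ⟨X0, fun x hx F H1 H2 H3 H4 y hy => ?_⟩
  obtain ⟨⟨hKL, hLe, hLc2, hL8⟩, hl1, hx1⟩ := hX0 x hx
  set l : ℝ := Real.log x with hl
  set L : ℝ := Real.log l with hL
  set t : ℝ := Real.log L with ht
  have hl0 : 0 < l := by linarith
  have hL0 : 0 < L := by linarith
  have ht1 : 1 ≤ t := by
    rw [ht, Real.le_log_iff_exp_le hL0]; exact hLe
  have hexpL : Real.exp L = l := Real.exp_log hl0
  -- choice of J
  have hex : ∃ j : ℕ, c2 * L ≤ cseq j := by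
    obtain ⟨j, hj⟩ := pow_unbounded_of_one_lt (8 * (c2 * L)) (show (1 : ℝ) < 5 by norm_num)
    refine ⟨j, ?_⟩
    unfold cseq
    linarith
  classical
  set J : ℕ := Nat.find hex with hJdef
  have hJ : c2 * L ≤ cseq J := Nat.find_spec hex
  have hJlt : ∀ j < J, cseq j < c2 * L := fun j hj => not_le.1 (Nat.find_min hex hj)
  have hJ2 : ∀ j < J, cseq j ≤ L ^ 2 := by
    intro j hj
    have := hJlt j hj
    nlinarith
  have hJbound : ((J + 1 : ℕ) : ℝ) ≤ m0 * t := by
    have hJle : (J : ℝ) ≤ Real.log (40 * c2) + t := by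
      rcases Nat.eq_zero_or_pos J with h0 | h0
      · rw [h0]; push_cast; linarith
      · have h1 := hJlt (J - 1) (by omega)
        unfold cseq at h1
        have h2 : (5 : ℝ) ^ J = 5 * 5 ^ (J - 1) := by
          rw [← pow_succ']; congr 1; omega
        have h3 : (5 : ℝ) ^ J ≤ 40 * c2 * L := by
          rw [h2]; linarith
        have h4 : (J : ℝ) * Real.log 5 ≤ Real.log (40 * c2) + t := by
          have := Real.log_le_log (by positivity) h3
          rw [Real.log_pow, Real.log_mul (by positivity) hL0.ne'] at this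
          exact this
        have h5 : 1 ≤ Real.log 5 := by
          rw [Real.le_log_iff_exp_le (by norm_num)]
          linarith [Real.exp_one_lt_d9]
        nlinarith [Nat.cast_nonneg (α := ℝ) J]
    push_cast
    rw [hm0]
    nlinarith
  -- the bound (2κ)^M ≤ l^(1/4)/2
  set κ : ℝ := L ^ c3 with hκ
  have hκ1 : 1 ≤ κ := Real.one_le_rpow (by linarith) hc3
  set T : ℝ := l ^ (1 / 4 : ℝ) with hT
  have hT1 : 1 ≤ T := Real.one_le_rpow hl1 (by norm_num)
  have hT0 : 0 < T := by linarith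
  have hlogT : Real.log T = L / 4 := by
    rw [hT, Real.log_rpow hl0]; ring
  have hlogκ : Real.log κ = c3 * t := by rw [hκ, Real.log_rpow hL0]
  have hlog2 : Real.log 2 ≤ 1 := by linarith [Real.log_two_lt_d9]
  have hlog2' : 0 < Real.log 2 := Real.log_pos (by norm_num)
  have hM : (2 * κ) ^ (J + 1) ≤ T / 2 := by
    rw [← Real.log_le_log_iff (by positivity) (by positivity), Real.log_pow,
      Real.log_mul (by norm_num) (by positivity), Real.log_div hT0.ne' (by norm_num), hlogT, hlogκ]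
    have h1 : ((J + 1 : ℕ) : ℝ) * (Real.log 2 + c3 * t) ≤ (m0 * t) * ((1 + c3) * t) := by
      apply mul_le_mul hJbound _ (by positivity) (by positivity)
      nlinarith
    have h2 : (m0 * t) * ((1 + c3) * t) ≤ L / 8 := by
      have h3 : 8 * (m0 * (1 + c3)) * t ^ 2 ≤ K * t ^ 2 := by
        apply mul_le_mul_of_nonneg_right _ (sq_nonneg t)
        rw [hK]
        have : 0 ≤ 4 * (N * m0 * (Real.log c1 + 1)) := by positivity
        linarith
      have h4 : (m0 * t) * ((1 + c3) * t) = (8 * (m0 * (1 + c3)) * t ^ 2) / 8 := by ring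
      rw [h4]
      linarith
    linarith
  -- domain
  have hw : 1 ≤ c1 * L := le_trans (by linarith) (le_mul_of_one_le_left hL0.le hc1)
  have hpow : (c1 * L) ^ (N * (J + 1)) ≤ T := by
    rw [← Real.log_le_log_iff (by positivity) (by positivity), Real.log_pow,
      Real.log_mul (by linarith) hL0.ne', hlogT]
    push_cast
    have h1 : (N : ℝ) * ((J : ℝ) + 1) * (Real.log c1 + t) ≤
        (N * (m0 * t)) * ((Real.log c1 + 1) * t) := by
      apply mul_le_mul _ _ (by positivity) (by positivity)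
      · apply mul_le_mul_of_nonneg_left _ (Nat.cast_nonneg N)
        push_cast at hJbound
        exact hJbound
      · have : Real.log c1 * 1 ≤ Real.log c1 * t := mul_le_mul_of_nonneg_left ht1 hlogc1
        linarith
    have h2 : (N * (m0 * t)) * ((Real.log c1 + 1) * t) ≤ L / 4 := by
      have h3 : 4 * (N * m0 * (Real.log c1 + 1)) * t ^ 2 ≤ K * t ^ 2 := by
        apply mul_le_mul_of_nonneg_right _ (sq_nonneg t)
        rw [hK]
        have : 0 ≤ 8 * (m0 * (1 + c3)) := by positivity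
        linarith
      have h4 : (N * (m0 * t)) * ((Real.log c1 + 1) * t) =
          (4 * (N * m0 * (Real.log c1 + 1)) * t ^ 2) / 4 := by ring
      rw [h4]
      linarith
    linarith
  have hs : l ^ (-(1 / 2) : ℝ) = T⁻¹ * T⁻¹ := by
    rw [hT, ← Real.rpow_neg hl0.le, ← Real.rpow_add hl0]
    norm_num
  have hmain := iter_core (2 * x) (c1 * L) (l ^ (3 / 4 : ℝ)) κ (l ^ (-(A + 1))) (l ^ (-(1 / 2) : ℝ))
    (c2 * L) (L ^ 2) J F hw (by positivity) hκ1 (by positivity) (by positivity) hJ hJ2 H1 H2 H3 H4 N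
    y (2 * x) hy (by linarith) (by
      have h1 : l ≤ Real.log (2 * x) := by
        rw [hl]; exact Real.log_le_log (by linarith) (by linarith)
      refine le_trans ?_ h1
      calc l ^ (3 / 4 : ℝ) * (c1 * L) ^ (N * (J + 1)) ≤ l ^ (3 / 4 : ℝ) * T :=
            mul_le_mul_of_nonneg_left hpow (by positivity)
        _ = l := by
            rw [hT, ← Real.rpow_add hl0]; norm_num) le_rfl
  have heb := eseq_bound κ (l ^ (-(A + 1))) (l ^ (-(1 / 2) : ℝ)) T (J + 1) hκ1 hT1 (by positivity)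
    hM hs N
  refine (hmain.trans heb).trans ?_
  -- final numerical estimate
  have hκT : κ ≤ T := by
    have h1 : 2 * κ ≤ (2 * κ) ^ (J + 1) := by
      calc 2 * κ = (2 * κ) ^ 1 := (pow_one _).symm
        _ ≤ _ := pow_le_pow_right₀ (by linarith) (by omega)
    linarith
  have e1 : l ^ (-(A + 1)) * T = l ^ (-A) * l ^ (-(3 / 4) : ℝ) := by
    rw [hT, ← Real.rpow_add hl0, ← Real.rpow_add hl0]; congr 1; ring
  have e2 : T⁻¹ ^ N * κ ≤ l ^ (-A) * l ^ (-(3 / 4) : ℝ) := by
    have h1 : T⁻¹ ^ N = l ^ (-((N : ℝ) / 4)) := by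
      rw [hT, ← Real.rpow_neg hl0.le, ← Real.rpow_natCast, ← Real.rpow_mul hl0.le]
      congr 1; ring
    rw [h1]
    calc l ^ (-((N : ℝ) / 4)) * κ ≤ l ^ (-((N : ℝ) / 4)) * T :=
          mul_le_mul_of_nonneg_left hκT (by positivity)
      _ = l ^ (-((N : ℝ) / 4) + 1 / 4) := by rw [hT, ← Real.rpow_add hl0]
      _ ≤ l ^ (-A + -(3 / 4)) := Real.rpow_le_rpow_of_exponent_le hl1 (by linarith)
      _ = _ := by rw [← Real.rpow_add hl0]
  have e3 : 2 * l ^ (-(3 / 4) : ℝ) ≤ 1 := by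
    have h1 : l ^ (-(3 / 4) : ℝ) = Real.exp (-(3 / 4) * L) := by
      rw [Real.rpow_def_of_pos hl0, mul_comm]
    rw [h1]
    have h2 : Real.exp (-(3 / 4) * L) ≤ Real.exp (-1) := Real.exp_le_exp.2 (by linarith)
    have h3 : Real.exp (-1) ≤ 1 / 2 := by
      rw [Real.exp_neg, inv_le_comm₀ (Real.exp_pos 1) (by norm_num)]
      linarith [Real.exp_one_gt_d9]
    linarith
  have e4 : 0 ≤ l ^ (-A) := by positivity
  calc l ^ (-(A + 1)) * T + T⁻¹ ^ N * κ ≤ l ^ (-A) * l ^ (-(3 / 4) : ℝ) + l ^ (-A) * l ^ (-(3 / 4) : ℝ) := by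
        rw [e1]; linarith
    _ = l ^ (-A) * (2 * l ^ (-(3 / 4) : ℝ)) := by ring
    _ ≤ l ^ (-A) * 1 := mul_le_mul_of_nonneg_left e3 e4
    _ = _ := mul_one _

end Pool.Agent.H95R2.Leh
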