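import Pool.Agent.H95R2.Leh.StepE
import Pool.Agent.H95R2.Leh.Iter
import Pool.Agent.H95R2.Leh.FamLeh
import Pool.Agent.H95R2.Leh.Omega

set_option autoImplicit false

/-! the final count -/

namespace Pool.Agent.H95R2.Leh

open Finset

/-- the bound for one quotient `k` -/
theorem one_k (A C0 : ℝ) (hA : 1 ≤ A) (hC0 : 1 ≤ C0) : ∃ X0 : ℝ, 16 ≤ X0 ∧ ∀ x : ℕ, X0 ≤ x →
    1 ≤ C0 * Real.log (Real.log x) ∧
    ∀ (k : ℕ) (St : ℕ → ℕ → Prop), Fam k (C0 * Real.log (Real.log x)) St →
      ((DD St x (2 * x)).card : ℝ) ≤ Real.sqrt x * (Real.log x) ^ (-A) := by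
  obtain ⟨c1, c3, X1, hc1, hc3, hstep⟩ := step (A + 1) C0 (by linarith) hC0
  obtain ⟨Ct, hCt, htriv⟩ := Fn_triv
  obtain ⟨Cs, hCs, hsmooth⟩ := Fn_smooth
  set c3' := max c3 3 with hc3'
  have hc3'0 : 0 ≤ c3' := le_trans hc3 (le_max_left _ _)
  obtain ⟨X2, hiter⟩ := iterate A c1 (A + 4) c3' hA hc1 (by linarith) hc3'0
  obtain ⟨La, hLa, ha⟩ := ev_poly (320 * Ct * Cs * C0) 1
  obtain ⟨Lb, hLb, hb⟩ := ev_poly (2 * Cs * C0 ^ 2) 2
  set L0 := max (max La Lb) (Ct * C0 ^ 2 + 16) with hL0
  refine ⟨max (max X1 X2) (max 16 (Real.exp (Real.exp L0))), ?_, ?_⟩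
  · exact le_trans (le_max_left _ _) (le_max_right _ _)
  intro x hx
  simp only [max_le_iff] at hx
  obtain ⟨⟨hx1, hx2⟩, hx16, hxL⟩ := hx
  have hx0 : (0 : ℝ) < x := by linarith
  have hlx : Real.exp L0 ≤ Real.log x := by
    have := Real.log_le_log (Real.exp_pos _) hxL
    rwa [Real.log_exp] at this
  have hlx0 : 0 < Real.log x := lt_of_lt_of_le (Real.exp_pos _) hlx
  set L := Real.log (Real.log x) with hL
  have hLL0 : L0 ≤ L := by
    have := Real.log_le_log (Real.exp_pos _) hlx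
    rwa [Real.log_exp] at this
  have hexpL : Real.exp L = Real.log x := Real.exp_log hlx0
  have hrp : ∀ t : ℝ, (Real.log x) ^ t = Real.exp (t * L) := by
    intro t
    rw [Real.rpow_def_of_pos hlx0, ← hL, mul_comm]
  rw [hL0] at hLL0
  simp only [max_le_iff] at hLL0
  obtain ⟨⟨hLa', hLb'⟩, hLc⟩ := hLL0
  replace ha := ha L hLa'
  replace hb := hb L hLb'
  rw [pow_one] at ha
  have hCC : 0 ≤ Ct * C0 ^ 2 := by positivity
  have hL16 : 16 ≤ L := by linarith
  have hL1 : 1 ≤ L := by linarith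
  have hCtC0 : Ct * C0 ^ 2 ≤ L := by linarith
  refine ⟨one_le_mul_of_one_le_of_one_le hC0 hL1, ?_⟩
  intro k St hF
  set R := C0 * L with hR
  have hR1 : 1 ≤ R := one_le_mul_of_one_le_of_one_le hC0 hL1
  set E4 := Real.exp (L / 4) with hE4
  have hCtCs : 1 ≤ Ct * Cs := one_le_mul_of_one_le_of_one_le hCt hCs
  have hX1 : 320 * R ≤ E4 := by
    refine le_trans ?_ ha
    calc 320 * R = 320 * (1 * (C0 * L)) := by rw [hR]; ring
      _ ≤ 320 * ((Ct * Cs) * (C0 * L)) := by
          apply mul_le_mul_of_nonneg_left _ (by norm_num)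
          exact mul_le_mul_of_nonneg_right hCtCs (by positivity)
      _ = _ := by ring
  have hX2 : Ct * R ≤ E4 := by
    refine le_trans ?_ ha
    have h1 : Ct * (C0 * L) ≤ Cs * (Ct * (C0 * L)) := le_mul_of_one_le_left (by positivity) hCs
    have h2 : Cs * (Ct * (C0 * L)) ≤ 320 * (Cs * (Ct * (C0 * L))) :=
      le_mul_of_one_le_left (by positivity) (by norm_num)
    calc Ct * R ≤ 320 * (Cs * (Ct * (C0 * L))) := by rw [hR]; linarith
      _ = _ := by ring
  have hX3 : Cs * R ≤ E4 := by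
    refine le_trans ?_ ha
    have h1 : Cs * (C0 * L) ≤ Ct * (Cs * (C0 * L)) := le_mul_of_one_le_left (by positivity) hCt
    have h2 : Ct * (Cs * (C0 * L)) ≤ 320 * (Ct * (Cs * (C0 * L))) :=
      le_mul_of_one_le_left (by positivity) (by norm_num)
    calc Cs * R ≤ 320 * (Ct * (Cs * (C0 * L))) := by rw [hR]; linarith
      _ = _ := by ring
  -- facts for P in the range
  have hPf : ∀ P : ℝ, Real.exp ((Real.log x) ^ (3 / 4 : ℝ)) ≤ P →
      0 < P ∧ E4 ≤ Real.log P ∧ E4 ≤ P := by
    intro P hP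
    have hP0 : 0 < P := lt_of_lt_of_le (Real.exp_pos _) hP
    have h1 : Real.exp (3 / 4 * L) ≤ Real.log P := by
      have := Real.log_le_log (Real.exp_pos _) hP
      rwa [Real.log_exp, hrp] at this
    have h2 : E4 ≤ Real.exp (3 / 4 * L) := Real.exp_le_exp.mpr (by linarith)
    have h3 := Real.add_one_le_exp (Real.log P)
    rw [Real.exp_log hP0] at h3
    exact ⟨hP0, by linarith, by linarith⟩
  have h := hiter x hx2 (Fn St) ?_ ?_ ?_ ?_ x hx0
  · -- conclusion
    unfold Fn at h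
    rw [div_le_iff₀ hx0] at h
    have hs : Real.sqrt x ≤ Real.sqrt (2 * x) := Real.sqrt_le_sqrt (by linarith)
    have hs0 : 0 < Real.sqrt x := Real.sqrt_pos.mpr hx0
    have h2 : ((DD St x (2 * x)).card : ℝ) * Real.sqrt x ≤
        (Real.log x) ^ (-A) * x := by
      refine le_trans ?_ h
      exact mul_le_mul_of_nonneg_left hs (by positivity)
    have h3 : (x : ℝ) = Real.sqrt x * Real.sqrt x := (Real.mul_self_sqrt hx0.le).symm
    have h4 : (Real.log x) ^ (-A) * x = (Real.sqrt x * (Real.log x) ^ (-A)) * Real.sqrt x := by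
      calc (Real.log x) ^ (-A) * (x : ℝ) = (Real.log x) ^ (-A) * (Real.sqrt x * Real.sqrt x) := by
            rw [← h3]
        _ = _ := by ring
    rw [h4] at h2
    exact le_of_mul_le_mul_right h2 hs0
  · -- trivial bound
    intro y P hy hP _
    obtain ⟨hP0, hlP, hPE⟩ := hPf P hP
    refine le_trans (htriv k R St hF y P hy (by linarith)) ?_
    have h1 : L ^ (3 : ℝ) ≤ L ^ c3' := Real.rpow_le_rpow_of_exponent_le hL1 (le_max_right _ _)
    refine le_trans ?_ h1
    have h2 : L ^ (3 : ℝ) = L ^ 3 := by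
      rw [show (3 : ℝ) = ((3 : ℕ) : ℝ) by norm_num, Real.rpow_natCast]
    rw [h2, hR]
    calc Ct * (C0 * L) ^ 2 = (Ct * C0 ^ 2) * L ^ 2 := by ring
      _ ≤ L * L ^ 2 := mul_le_mul_of_nonneg_right hCtC0 (by positivity)
      _ = L ^ 3 := by ring
  · -- zero
    intro y P hy hP _ hly
    obtain ⟨hP0, hlP, hPE⟩ := hPf P hP
    apply Fn_zero hF (by linarith)
    have h1 : Real.log (16 * R) ≤ 1 / 10 * Real.log P := by
      have h2 := Real.log_le_sub_one_of_pos (show 0 < 16 * R by linarith)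
      linarith
    have h2 : Real.log y ≤ Real.log (P / (16 * R)) := by
      rw [Real.log_div hP0.ne' (by positivity)]
      linarith
    exact (Real.log_le_log_iff hy (by positivity)).mp h2
  · -- smooth
    intro y P hy hP hPu hly
    obtain ⟨hP0, hlP, hPE⟩ := hPf P hP
    refine le_trans (hsmooth k R St hF y P hy (by linarith)) ?_
    have hlP0 : 0 < Real.log P := by linarith
    have hlPu : Real.log P ≤ 2 * Real.exp L := by
      have h1 := Real.log_le_log hP0 hPu
      rw [Real.log_mul (by norm_num) hx0.ne', ← hexpL] at h1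
      have h2 := Real.log_two_lt_d9
      have h3 : (1 : ℝ) ≤ Real.exp L := Real.one_le_exp (by linarith)
      linarith
    have h4 : Real.exp (-(Real.log y / Real.log P)) ≤ Real.exp (-((A + 4) * L)) := by
      apply Real.exp_le_exp.mpr
      have : (A + 4) * L ≤ Real.log y / Real.log P := by
        rw [le_div_iff₀ hlP0]; exact hly
      linarith
    rw [hrp, hR]
    calc Cs * (C0 * L) ^ 2 * Real.log P * Real.exp (-(Real.log y / Real.log P)) ≤
          Cs * (C0 * L) ^ 2 * (2 * Real.exp L) * Real.exp (-((A + 4) * L)) := by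
          apply mul_le_mul _ h4 (Real.exp_pos _).le (by positivity)
          exact mul_le_mul_of_nonneg_left hlPu (by positivity)
      _ = (2 * Cs * C0 ^ 2 * L ^ 2) * (Real.exp L * Real.exp (-((A + 4) * L))) := by ring
      _ ≤ E4 * (Real.exp L * Real.exp (-((A + 4) * L))) :=
          mul_le_mul_of_nonneg_right hb (by positivity)
      _ ≤ Real.exp (-(A + 1) * L) := by
          rw [hE4, ← Real.exp_add, ← Real.exp_add]
          apply Real.exp_le_exp.mpr
          linarith
  · -- step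
    intro P c β0 β1 hPl hPu hc9 hcL hβ0 hβ1 hyp0 hyp1 y hy hcy
    refine le_trans (hstep x hx1 k R St hF le_rfl P c β0 β1 hPl hPu hc9 hcL hβ0 hβ1 hyp0 hyp1
      y hy hcy) ?_
    have h1 : L ^ c3 ≤ L ^ c3' := Real.rpow_le_rpow_of_exponent_le hL1 (le_max_left _ _)
    have h2 : 0 ≤ (Real.log x) ^ (-(1 / 2) : ℝ) * β0 + β1 := by positivity
    have := mul_le_mul_of_nonneg_right h1 h2
    linarith

open Classical in
/-- the dyadic count -/
theorem dyadic (A : ℝ) (hA : 1 ≤ A) : ∃ C X0 : ℝ, 1 ≤ C ∧ 16 ≤ X0 ∧ ∀ x : ℕ, X0 ≤ x →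
    ((((Finset.Icc 1 x).filter (fun n => Leh n ∧ x < 2 * n)).card : ℕ) : ℝ) ≤
      C * (Real.sqrt x / (Real.log x) ^ A) := by
  obtain ⟨C0, Co, hC0, hCo, homega⟩ := omega_large A
  obtain ⟨X1, hX1, hone⟩ := one_k (A + 1) C0 (by linarith) hC0
  refine ⟨3 * C0 + Co, X1, by linarith, hX1, ?_⟩
  intro x hx
  obtain ⟨hRone, hcount⟩ := hone x hx
  have hx16 : (16 : ℝ) ≤ x := le_trans hX1 hx
  have hx16' : 16 ≤ x := by exact_mod_cast hx16
  have hx0 : (0 : ℝ) < x := by linarith
  set L := Real.log (Real.log x) with hL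
  set R := C0 * L with hR
  have hlx1 : 1 < Real.log x := by
    have h1 : Real.exp 1 < 16 := by
      have := Real.exp_one_lt_d9; linarith
    have h2 := Real.log_lt_log (Real.exp_pos 1) (lt_of_lt_of_le h1 hx16)
    rwa [Real.log_exp] at h2
  have hlx0 : 0 < Real.log x := by linarith
  have hLlog : L ≤ Real.log x := by
    have := Real.log_le_sub_one_of_pos hlx0
    linarith
  have hL0 : 0 < L := Real.log_pos hlx1
  -- the set is covered
  set M := ⌊R⌋₊ + 1 with hM
  have hsub : (Finset.Icc 1 x).filter (fun n => Leh n ∧ x < 2 * n) ⊆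
      ((Finset.Icc 1 M).biUnion (fun k => DD (StL x k R) x (2 * x))) ∪
      (Finset.Icc 1 x).filter (fun n => Leh n ∧ x < 2 * n ∧
        C0 * Real.log (Real.log x) < (n.primeFactors.card : ℝ)) := by
    intro n hn
    rw [Finset.mem_filter, Finset.mem_Icc] at hn
    obtain ⟨⟨hn1, hnx⟩, hleh, hx2⟩ := hn
    rw [Finset.mem_union]
    by_cases hw : C0 * Real.log (Real.log x) < (n.primeFactors.card : ℝ)
    · right
      rw [Finset.mem_filter, Finset.mem_Icc]
      exact ⟨⟨hn1, hnx⟩, hleh, hx2, hw⟩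
    · left
      push Not at hw
      obtain ⟨k, hk2, hkn, hkw⟩ := leh_k hleh
      rw [Finset.mem_biUnion]
      refine ⟨k, ?_, ?_⟩
      · rw [Finset.mem_Icc]
        refine ⟨by omega, ?_⟩
        have h1 : n.primeFactors.card ≤ ⌊R⌋₊ := Nat.le_floor hw
        omega
      · unfold DD
        rw [Finset.mem_filter, Finset.mem_Icc]
        refine ⟨⟨hn1, ?_⟩, ?_, 2 * x, ?_, ?_, ?_⟩
        · rw [Nat.floor_natCast]; exact hnx
        · have : (x : ℝ) < 2 * n := by exact_mod_cast hx2
          linarith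
        · push_cast; linarith
        · push_cast; linarith
        · exact ⟨n, hleh, hx2, hnx, hkn, hw, Or.inr ⟨rfl, rfl⟩⟩
  have hM2 : (M : ℝ) ≤ 2 * R := by
    have h1 : ((⌊R⌋₊ : ℕ) : ℝ) ≤ R := Nat.floor_le (by linarith)
    rw [hM]; push_cast
    linarith
  have h1 : ((((Finset.Icc 1 M).biUnion (fun k => DD (StL x k R) x (2 * x))).card : ℕ) : ℝ) ≤
      M * (Real.sqrt x * (Real.log x) ^ (-(A + 1))) := by
    have h2 : ((((Finset.Icc 1 M).biUnion (fun k => DD (StL x k R) x (2 * x))).card : ℕ) : ℝ) ≤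
        ∑ k ∈ Finset.Icc 1 M, ((DD (StL x k R) x (2 * x)).card : ℝ) := by
      exact_mod_cast Finset.card_biUnion_le
    refine le_trans h2 ?_
    calc ∑ k ∈ Finset.Icc 1 M, ((DD (StL x k R) x (2 * x)).card : ℝ) ≤
        ∑ _k ∈ Finset.Icc 1 M, (Real.sqrt x * (Real.log x) ^ (-(A + 1))) := by
          apply Finset.sum_le_sum
          intro k hk
          rw [Finset.mem_Icc] at hk
          exact hcount k (StL x k R) (fam_leh x k R hk.1 hRone)
      _ = M * (Real.sqrt x * (Real.log x) ^ (-(A + 1))) := by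
          rw [Finset.sum_const, nsmul_eq_mul, Nat.card_Icc]
          simp
  have h2 := homega x hx16'
  have h3 : ((((Finset.Icc 1 x).filter (fun n => Leh n ∧ x < 2 * n)).card : ℕ) : ℝ) ≤
      ((((Finset.Icc 1 M).biUnion (fun k => DD (StL x k R) x (2 * x))).card : ℕ) : ℝ) +
      ((((Finset.Icc 1 x).filter (fun n => Leh n ∧ x < 2 * n ∧
        C0 * Real.log (Real.log x) < (n.primeFactors.card : ℝ))).card : ℕ) : ℝ) := by
    exact_mod_cast le_trans (Finset.card_le_card hsub) (Finset.card_union_le _ _)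
  have h4 : (M : ℝ) * (Real.sqrt x * (Real.log x) ^ (-(A + 1))) ≤
      2 * C0 * (Real.sqrt x / (Real.log x) ^ A) := by
    have h5 : (Real.log x) ^ (-(A + 1)) = 1 / (Real.log x * (Real.log x) ^ A) := by
      rw [Real.rpow_neg hlx0.le, Real.rpow_add hlx0, Real.rpow_one, mul_comm, one_div]
    rw [h5]
    have h6 : 0 < (Real.log x) ^ A := Real.rpow_pos_of_pos hlx0 A
    calc (M : ℝ) * (Real.sqrt x * (1 / (Real.log x * (Real.log x) ^ A))) ≤
        (2 * C0 * Real.log x) * (Real.sqrt x * (1 / (Real.log x * (Real.log x) ^ A))) := by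
          apply mul_le_mul_of_nonneg_right _ (by positivity)
          have : R ≤ C0 * Real.log x := by
            rw [hR]; exact mul_le_mul_of_nonneg_left hLlog (by linarith)
          linarith
      _ = _ := by field_simp
  have h7 : 0 ≤ Real.sqrt x / (Real.log x) ^ A := by positivity
  have h8 : Co * Real.sqrt x / (Real.log x) ^ A = Co * (Real.sqrt x / (Real.log x) ^ A) := by
    ring
  rw [h8] at h2
  nlinarith

theorem half_bound (A : ℝ) (hA : 1 ≤ A) : ∃ X0 : ℝ, 16 ≤ X0 ∧ ∀ x : ℕ, X0 ≤ x →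
    Real.sqrt ((x / 2 : ℕ) : ℝ) / (Real.log ((x / 2 : ℕ) : ℝ)) ^ A ≤
      4 / 5 * (Real.sqrt x / (Real.log x) ^ A) := by
  refine ⟨max 16 (Real.exp (11 * A * 2)), le_max_left _ _, ?_⟩
  intro x hx
  simp only [max_le_iff] at hx
  obtain ⟨hx16, hxe⟩ := hx
  have hx16' : 16 ≤ x := by exact_mod_cast hx16
  have hx0 : (0 : ℝ) < x := by linarith
  set h : ℕ := x / 2 with hh
  have hh1 : x ≤ 3 * h := by omega
  have hh2 : 2 * h ≤ x := by omega
  have hh1' : (x : ℝ) ≤ 3 * h := by exact_mod_cast hh1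
  have hh2' : 2 * (h : ℝ) ≤ x := by exact_mod_cast hh2
  have hh0 : (0 : ℝ) < h := by linarith
  have hlx : 11 * A * 2 ≤ Real.log x := by
    have := Real.log_le_log (Real.exp_pos _) hxe
    rwa [Real.log_exp] at this
  have hlx0 : 0 < Real.log x := by linarith
  have hl3 : Real.log 3 ≤ 2 := by
    have := Real.log_le_sub_one_of_pos (show (0:ℝ) < 3 by norm_num)
    linarith
  have hlh : Real.log x - 2 ≤ Real.log h := by
    have h1 := Real.log_le_log hx0 hh1'
    rw [Real.log_mul (by norm_num) hh0.ne'] at h1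
    linarith
  have hlh0 : 0 < Real.log h := by linarith
  -- Bernoulli
  set t := 2 / Real.log x with ht
  have ht0 : 0 < t := by positivity
  have ht1 : A * t ≤ 1 / 11 := by
    rw [ht, mul_div_assoc', div_le_iff₀ hlx0]
    linarith
  have htle : t ≤ 1 / 11 := by
    have : t ≤ A * t := le_mul_of_one_le_left ht0.le hA
    linarith
  have hbern : 10 / 11 ≤ (1 - t) ^ A := by
    have h1 := one_add_mul_self_le_rpow_one_add (s := -t) (by linarith) hA
    have h2 : (1 : ℝ) + -t = 1 - t := by ring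
    rw [h2] at h1
    linarith
  have hpow : 10 / 11 * (Real.log x) ^ A ≤ (Real.log h) ^ A := by
    have h1 : Real.log x * (1 - t) ≤ Real.log h := by
      have : Real.log x * (1 - t) = Real.log x - 2 := by
        rw [ht]; field_simp
      linarith
    have h2 : (Real.log x * (1 - t)) ^ A ≤ (Real.log h) ^ A :=
      Real.rpow_le_rpow (by
        apply mul_nonneg hlx0.le; linarith) h1 (by linarith)
    rw [Real.mul_rpow hlx0.le (by linarith)] at h2
    have h3 : 0 < (Real.log x) ^ A := Real.rpow_pos_of_pos hlx0 A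
    have h4 := mul_le_mul_of_nonneg_left hbern h3.le
    linarith
  have hsq : Real.sqrt h ≤ 72 / 100 * Real.sqrt x := by
    have h1 : Real.sqrt h ≤ Real.sqrt ((72 / 100) ^ 2 * x) := by
      apply Real.sqrt_le_sqrt
      linarith
    rwa [Real.sqrt_mul (by positivity), Real.sqrt_sq (by norm_num)] at h1
  have h3 : 0 < (Real.log x) ^ A := Real.rpow_pos_of_pos hlx0 A
  have h4 : 0 < (Real.log h) ^ A := Real.rpow_pos_of_pos hlh0 A
  calc Real.sqrt h / (Real.log h) ^ A ≤ (72 / 100 * Real.sqrt x) / (10 / 11 * (Real.log x) ^ A) :=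
        div_le_div₀ (by positivity) hsq (by positivity) hpow
    _ = 99 / 125 * (Real.sqrt x / (Real.log x) ^ A) := by
        field_simp; ring
    _ ≤ _ := by
        apply mul_le_mul_of_nonneg_right (by norm_num) (by positivity)

open Classical in
theorem lehmer_count_one (A : ℝ) (hA : 1 ≤ A) : ∃ C : ℝ, 0 < C ∧ ∀ x : ℕ, 2 ≤ x →
    ((((Finset.Icc 1 x).filter Leh).card : ℕ) : ℝ) ≤
      C * (Real.sqrt x / (Real.log x) ^ A) := by
  obtain ⟨C1, X1, hC1, hX1, hdy⟩ := dyadic A hA
  obtain ⟨X2, hX2, hhalf⟩ := half_bound A hA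
  set N0 : ℕ := ⌈max X1 X2⌉₊ with hN0
  have hB : ∀ x : ℕ, 2 ≤ x → 0 < Real.sqrt x / (Real.log x) ^ A := by
    intro x hx
    have hx1 : (1 : ℝ) < x := by exact_mod_cast (by omega : 1 < x)
    have h1 : 0 < Real.log x := Real.log_pos hx1
    have h2 : 0 < Real.sqrt x := Real.sqrt_pos.mpr (by linarith)
    have h3 : 0 < (Real.log x) ^ A := Real.rpow_pos_of_pos h1 A
    positivity
  set Cs := ∑ y ∈ Finset.Icc 2 N0, (y : ℝ) / (Real.sqrt y / (Real.log y) ^ A) with hCs
  have hCs0 : 0 ≤ Cs := by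
    apply Finset.sum_nonneg
    intro y hy
    rw [Finset.mem_Icc] at hy
    have := hB y hy.1
    positivity
  refine ⟨5 * C1 + Cs, by linarith, ?_⟩
  intro x
  induction x using Nat.strong_induction_on with
  | _ x ih =>
    intro hx2
    have hBx := hB x hx2
    by_cases hxN : x ≤ N0
    · have h1 : (x : ℝ) / (Real.sqrt x / (Real.log x) ^ A) ≤ Cs := by
        rw [hCs]
        apply Finset.single_le_sum (f := fun y : ℕ => (y : ℝ) / (Real.sqrt y / (Real.log y) ^ A))
        · intro y hy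
          rw [Finset.mem_Icc] at hy
          have := hB y hy.1
          positivity
        · rw [Finset.mem_Icc]; exact ⟨hx2, hxN⟩
      rw [div_le_iff₀ hBx] at h1
      have h2 : ((((Finset.Icc 1 x).filter Leh).card : ℕ) : ℝ) ≤ x := by
        have : ((Finset.Icc 1 x).filter Leh).card ≤ x := by
          refine le_trans (Finset.card_filter_le _ _) ?_
          rw [Nat.card_Icc]; omega
        exact_mod_cast this
      nlinarith
    · push Not at hxN
      have hxr : max X1 X2 ≤ x := by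
        have h1 : max X1 X2 ≤ N0 := Nat.le_ceil _
        have h2 : (N0 : ℝ) ≤ x := by exact_mod_cast hxN.le
        linarith
      have hx1 : X1 ≤ x := le_trans (le_max_left _ _) hxr
      have hx2' : X2 ≤ x := le_trans (le_max_right _ _) hxr
      have hx16 : (16 : ℝ) ≤ x := by linarith
      have hx16' : 16 ≤ x := by exact_mod_cast hx16
      have h1 := hdy x hx1
      have h2 := hhalf x hx2'
      have h3 := ih (x / 2) (by omega) (by omega)
      have hsub : (Finset.Icc 1 x).filter Leh ⊆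
          ((Finset.Icc 1 (x / 2)).filter Leh) ∪
          ((Finset.Icc 1 x).filter (fun n => Leh n ∧ x < 2 * n)) := by
        intro n hn
        rw [Finset.mem_filter, Finset.mem_Icc] at hn
        rw [Finset.mem_union, Finset.mem_filter, Finset.mem_filter, Finset.mem_Icc,
          Finset.mem_Icc]
        by_cases h : x < 2 * n
        · right; exact ⟨hn.1, hn.2, h⟩
        · left; exact ⟨⟨hn.1.1, by omega⟩, hn.2⟩
      have h4 : ((((Finset.Icc 1 x).filter Leh).card : ℕ) : ℝ) ≤
          ((((Finset.Icc 1 (x / 2)).filter Leh).card : ℕ) : ℝ) +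
          ((((Finset.Icc 1 x).filter (fun n => Leh n ∧ x < 2 * n)).card : ℕ) : ℝ) := by
        exact_mod_cast le_trans (Finset.card_le_card hsub) (Finset.card_union_le _ _)
      have h5 : (5 * C1 + Cs) * (Real.sqrt ((x / 2 : ℕ) : ℝ) /
          (Real.log ((x / 2 : ℕ) : ℝ)) ^ A) ≤
          (5 * C1 + Cs) * (4 / 5 * (Real.sqrt x / (Real.log x) ^ A)) :=
        mul_le_mul_of_nonneg_left h2 (by linarith)
      nlinarith

open Classical in
theorem lehmer_count (A : ℝ) : ∃ C : ℝ, 0 < C ∧ ∀ x : ℕ, 2 ≤ x →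
    ((((Finset.Icc 1 x).filter Leh).card : ℕ) : ℝ) ≤ C * Real.sqrt x / (Real.log x) ^ A := by
  obtain ⟨C, hC, h⟩ := lehmer_count_one (max A 1) (le_max_right _ _)
  refine ⟨C, hC, ?_⟩
  intro x hx
  by_cases hx3 : x = 2
  · subst hx3
    have h0 : (Finset.Icc 1 2).filter Leh = ∅ := by
      rw [Finset.filter_eq_empty_iff]
      intro n hn hl
      rw [Finset.mem_Icc] at hn
      obtain ⟨h1, h2, -⟩ := hl
      have : n = 2 := by omega
      rw [this] at h2
      exact h2 Nat.prime_two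
    rw [h0]
    have h1 : 0 < Real.log (2 : ℕ) := Real.log_pos (by norm_num)
    have h3 : 0 < (Real.log (2 : ℕ)) ^ A := Real.rpow_pos_of_pos h1 A
    rw [Finset.card_empty, Nat.cast_zero]
    positivity
  have hx3' : (3 : ℝ) ≤ x := by exact_mod_cast (by omega : 3 ≤ x)
  have hlx1 : 1 ≤ Real.log x := by
    have h1 : Real.exp 1 < 3 := by
      have := Real.exp_one_lt_d9; linarith
    have h2 := Real.log_le_log (Real.exp_pos 1) (le_trans h1.le hx3')
    rwa [Real.log_exp] at h2
  refine le_trans (h x hx) ?_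
  rw [mul_div_assoc]
  apply mul_le_mul_of_nonneg_left _ hC.le
  apply div_le_div_of_nonneg_left (Real.sqrt_nonneg _) (Real.rpow_pos_of_pos (by linarith) A)
  exact Real.rpow_le_rpow_of_exponent_le hlx1 (le_max_left _ _)

end Pool.Agent.H95R2.Leh
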