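import Pool.Agent.H95R2.Leh.Seg
import Pool.Agent.H95R2.Leh.DenseB
import Pool.Agent.H95R2.Leh.ClsA
import Pool.Agent.H95R2.Leh.ClsB

set_option autoImplicit false

/-! class bounds in normalised form -/

namespace Pool.Agent.H95R2.Leh

open Finset

theorem Fn_eq {St : ℕ → ℕ → Prop} {y P : ℝ} (hy : 0 < y) (hP : 0 < P) :
    ((DD St y P).card : ℝ) = Fn St y P * y / Real.sqrt P := by
  unfold Fn
  have h := Real.sqrt_pos.mpr hP
  field_simp

/-- the two counting functions of a class in normalised form -/
theorem dd_norm {St : ℕ → ℕ → Prop} {y P P' Y F : ℝ} (hy : 0 < y) (hP : 0 < P) (hP' : 0 < P')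
    (hY : 0 < Y) (h1 : Fn St (2 * y / Y) P' ≤ F) (h2 : Fn St (y / Y) P' ≤ F) :
    (((DD St (2 * y / Y) P').card : ℝ) + (DD St (y / Y) P').card) * (Real.sqrt P / y) ≤
      3 * F * (Real.sqrt P / (Y * Real.sqrt P')) := by
  have hs := Real.sqrt_pos.mpr hP'
  have hs' := Real.sqrt_pos.mpr hP
  rw [Fn_eq (by positivity) hP', Fn_eq (by positivity) hP']
  have e1 : (Fn St (2 * y / Y) P' * (2 * y / Y) / Real.sqrt P' +
      Fn St (y / Y) P' * (y / Y) / Real.sqrt P') * (Real.sqrt P / y) =
      (2 * Fn St (2 * y / Y) P' + Fn St (y / Y) P') * (Real.sqrt P / (Y * Real.sqrt P')) := by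
    field_simp
  rw [e1]
  apply mul_le_mul_of_nonneg_right _ (by positivity)
  linarith

theorem log_le_four_exp {t : ℝ} (ht : 0 ≤ t) : t ≤ 4 * Real.exp (t / 4) := by
  have := Real.add_one_le_exp (t / 4)
  linarith

/-- normalised class bounds -/
theorem cls_norm : ∃ C : ℝ, 1 ≤ C ∧ ∀ (k : ℕ) (R : ℝ) (St : ℕ → ℕ → Prop), Fam k R St →
    ∀ y P z P' Y F : ℝ, 0 < y → 256 * R ≤ P → 0 < z → 4 * (16 * R / P) * z ^ 2 < 1 →
    6400 * R ≤ P' → 1 ≤ Real.log P' → 1 ≤ Y → 1 / 4 ≤ (16 * R / P) * Y ^ 2 →
    Fn St (2 * y / Y) P' ≤ F → Fn St (y / Y) P' ≤ F →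
    ((Cls St y P z P' Y).card : ℝ) * (Real.sqrt P / y) ≤
      C * R * (1 + Real.log (1 + Real.log P)) * F / Real.log P' ∧
    ((Cls St y P z P' Y).card : ℝ) * (Real.sqrt P / y) ≤
      C * R * F * Real.exp (Real.log Y - (Real.log P + Real.log P') / 2) ∧
    ((Cls St y P z P' Y).card : ℝ) * (Real.sqrt P / y) ≤
      C * R * F * Real.exp (-(Real.log Y - (Real.log P + Real.log P') / 2)) := by
  obtain ⟨Cr, hCr1, hCr⟩ := cls_rough
  obtain ⟨Cp, hCp1, hCp⟩ := cls_prime
  refine ⟨1600 * Cr + 3 * Cp, by linarith, ?_⟩
  intro k R St hF y P z P' Y F hy hP hz hz4 hP' hlP' hY hM4 hF1 hF2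
  have hR := hF.R_one
  have hP0 : 0 < P := by linarith
  have hP'0 : 0 < P' := by linarith
  have hY0 : 0 < Y := by linarith
  have hF0 : 0 ≤ F := by
    refine le_trans ?_ hF2
    unfold Fn
    positivity
  have hlP : 1 ≤ Real.log P := by
    have h1 : (256 : ℝ) ≤ P := by linarith
    have h2 : Real.exp 1 ≤ P := by
      have := Real.exp_one_lt_d9
      linarith
    have := Real.log_le_log (Real.exp_pos 1) h2
    rwa [Real.log_exp] at this
  set sP := Real.sqrt P with hsP
  set sP' := Real.sqrt P' with hsP'
  have hsP0 : 0 < sP := Real.sqrt_pos.mpr hP0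
  have hsP'0 : 0 < sP' := Real.sqrt_pos.mpr hP'0
  have hsPsq : sP ^ 2 = P := Real.sq_sqrt hP0.le
  have hsP'sq : sP' ^ 2 = P' := Real.sq_sqrt hP'0.le
  -- G = Y / (sP * sP')
  set G := Y / (sP * sP') with hG
  have hG0 : 0 < G := by positivity
  have hGexp : Real.exp (Real.log Y - (Real.log P + Real.log P') / 2) = G := by
    have e1 : Real.log P = 2 * Real.log sP := by
      rw [← hsPsq, Real.log_pow]; norm_num
    have e2 : Real.log P' = 2 * Real.log sP' := by
      rw [← hsP'sq, Real.log_pow]; norm_num
    rw [e1, e2, show Real.log Y - (2 * Real.log sP + 2 * Real.log sP') / 2 =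
      Real.log Y - (Real.log sP + Real.log sP') by ring, Real.exp_sub, Real.exp_add,
      Real.exp_log hY0, Real.exp_log hsP0, Real.exp_log hsP'0]
  have hGexp' : Real.exp (-(Real.log Y - (Real.log P + Real.log P') / 2)) = 1 / G := by
    rw [Real.exp_neg, hGexp, one_div]
  rw [hGexp, hGexp']
  have hwt : sP / (Y * sP') = 1 / (G * P') := by
    rw [hG, ← hsP'sq]
    field_simp
  have hYG : Y = G * (sP * sP') := by
    rw [hG]; field_simp
  set M := (16 * R / P) * Y ^ 2 with hM
  have hMG : M = 16 * R * G ^ 2 * P' := by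
    rw [hM, hYG, ← hsPsq, ← hsP'sq]
    field_simp
  have hdd := dd_norm (St := St) hy hP0 hP'0 hY0 hF1 hF2
  rw [hwt] at hdd
  set DS := ((DD St (2 * y / Y) P').card : ℝ) + (DD St (y / Y) P').card with hDS
  set NC := ((Cls St y P z P' Y).card : ℝ) with hNC
  set LL := 1 + Real.log (1 + Real.log P) with hLL
  have hLL1 : 1 ≤ LL := by
    have : 0 ≤ Real.log (1 + Real.log P) := Real.log_nonneg (by linarith)
    linarith
  have hW0 : 0 < sP / y := by positivity
  -- (B2)
  have hB2 : NC * (sP / y) ≤ 384 * R * F * G := by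
    have h1 := cls_farey hF (y := y) (P := P) (z := z) (P' := P') (Y := Y) hy hP (by linarith) hY
    have h2 : NC * (sP / y) ≤ (DS * (sP / y)) * (1 + 4 * (16 * R / P) * Y ^ 2) := by
      calc NC * (sP / y) ≤ (DS * (1 + 4 * (16 * R / P) * Y ^ 2)) * (sP / y) :=
            mul_le_mul_of_nonneg_right h1 hW0.le
        _ = _ := by ring
    have h3 : 1 + 4 * (16 * R / P) * Y ^ 2 ≤ 8 * M := by
      rw [hM]; linarith
    have h30 : 0 ≤ 1 + 4 * (16 * R / P) * Y ^ 2 := by positivity
    calc NC * (sP / y) ≤ (DS * (sP / y)) * (1 + 4 * (16 * R / P) * Y ^ 2) := h2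
      _ ≤ (3 * F * (1 / (G * P'))) * (8 * M) := by
          apply mul_le_mul hdd h3 h30 (by positivity)
      _ = 384 * R * F * G := by
          rw [hMG]; field_simp; ring
  -- (B3)
  have hB3 : NC * (sP / y) ≤ 3 * Cp * F / (G * Real.log P') := by
    have h1 := hCp k R St hF y P z P' Y hy hP (by linarith) hY0 hz hz4
    calc NC * (sP / y) ≤ (DS * (Cp * P' / Real.log P')) * (sP / y) :=
            mul_le_mul_of_nonneg_right h1 hW0.le
      _ = (DS * (sP / y)) * (Cp * P' / Real.log P') := by ring
      _ ≤ (3 * F * (1 / (G * P'))) * (Cp * P' / Real.log P') := by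
          apply mul_le_mul_of_nonneg_right hdd (by positivity)
      _ = 3 * Cp * F / (G * Real.log P') := by field_simp
  have hB3' : NC * (sP / y) ≤ 3 * Cp * F / G := by
    refine le_trans hB3 ?_
    apply div_le_div_of_nonneg_left (by positivity) hG0
    exact le_mul_of_one_le_right hG0.le hlP'
  have hlP'0 : 0 < Real.log P' := by linarith
  refine ⟨?_, ?_, ?_⟩
  · -- (B1)
    by_cases hG1 : 1 < G
    · refine le_trans hB3 ?_
      rw [div_le_div_iff₀ (by positivity) hlP'0]
      have h1 : 3 * Cp ≤ (1600 * Cr + 3 * Cp) * R * LL := by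
        have h10 : 1 ≤ R * LL := one_le_mul_of_one_le_of_one_le hR hLL1
        have h11 : (1600 * Cr + 3 * Cp) * 1 ≤ (1600 * Cr + 3 * Cp) * (R * LL) :=
          mul_le_mul_of_nonneg_left h10 (by linarith)
        rw [mul_assoc]
        linarith
      have h2 : 3 * Cp * F * Real.log P' ≤ ((1600 * Cr + 3 * Cp) * R * LL) * F * Real.log P' := by
        apply mul_le_mul_of_nonneg_right _ hlP'0.le
        exact mul_le_mul_of_nonneg_right h1 hF0
      have h3 : ((1600 * Cr + 3 * Cp) * R * LL) * F * Real.log P' ≤
          ((1600 * Cr + 3 * Cp) * R * LL) * F * Real.log P' * G := by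
        apply le_mul_of_one_le_right (by positivity) hG1.le
      calc 3 * Cp * F * Real.log P' ≤ _ := h2
        _ ≤ _ := h3
        _ = _ := by ring
    · push Not at hG1
      by_cases hMs : sP' ≤ M
      · -- rough bound
        have hsP'1 : 1 ≤ sP' := by
          rw [hsP']
          rw [show (1 : ℝ) = Real.sqrt 1 by simp]
          apply Real.sqrt_le_sqrt
          linarith
        have hM1 : 1 ≤ M := le_trans hsP'1 hMs
        have h400 : 400 * M ≤ P' ^ 2 := by
          rw [hMG]
          have : G ^ 2 ≤ 1 := pow_le_one₀ hG0.le hG1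
          have h2 : 16 * R * G ^ 2 * P' ≤ 16 * R * 1 * P' := by
            apply mul_le_mul_of_nonneg_right _ hP'0.le
            apply mul_le_mul_of_nonneg_left this (by positivity)
          calc 400 * (16 * R * G ^ 2 * P') ≤ 400 * (16 * R * 1 * P') := by linarith
            _ = (6400 * R) * P' := by ring
            _ ≤ P' * P' := mul_le_mul_of_nonneg_right hP' hP'0.le
            _ = P' ^ 2 := by ring
        have h1 := hCr k R St hF y P z P' Y hy hP (by linarith) hY hM1 h400
        rw [← hM] at h1
        have hl2 : 0 < Real.log (2 + M) := Real.log_pos (by linarith)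
        have hl2' : Real.log (2 + M) ≤ 1 + M := by
          have := Real.log_le_sub_one_of_pos (show 0 < 2 + M by linarith)
          linarith
        have hlM : Real.log P' / 2 ≤ Real.log (2 + M) := by
          have e2 : Real.log P' = 2 * Real.log sP' := by
            rw [← hsP'sq, Real.log_pow]; norm_num
          rw [e2]
          have : Real.log sP' ≤ Real.log (2 + M) := Real.log_le_log hsP'0 (by linarith)
          linarith
        have h2 : 1 + Cr * M * LL / Real.log (2 + M) ≤ 3 * Cr * M * LL / Real.log (2 + M) := by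
          rw [← sub_nonneg]
          have : 3 * Cr * M * LL / Real.log (2 + M) - (1 + Cr * M * LL / Real.log (2 + M)) =
            (2 * Cr * M * LL - Real.log (2 + M)) / Real.log (2 + M) := by
            field_simp; ring
          rw [this]
          apply div_nonneg _ hl2.le
          have h5 : M ≤ Cr * M * LL := by
            have : 1 ≤ Cr * LL := one_le_mul_of_one_le_of_one_le hCr1 hLL1
            calc M = M * 1 := by ring
              _ ≤ M * (Cr * LL) := mul_le_mul_of_nonneg_left this (by linarith)
              _ = _ := by ring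
          linarith
        have h3 : 3 * Cr * M * LL / Real.log (2 + M) ≤ 6 * Cr * M * LL / Real.log P' := by
          rw [div_le_div_iff₀ hl2 hlP'0]
          have h6 : 0 ≤ 3 * Cr * M * LL := by positivity
          have h7 := mul_le_mul_of_nonneg_left hlM h6
          linarith
        calc NC * (sP / y) ≤ (DS * (1 + Cr * M * LL / Real.log (2 + M))) * (sP / y) :=
              mul_le_mul_of_nonneg_right h1 hW0.le
          _ = (DS * (sP / y)) * (1 + Cr * M * LL / Real.log (2 + M)) := by ring
          _ ≤ (3 * F * (1 / (G * P'))) * (6 * Cr * M * LL / Real.log P') := by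
              apply mul_le_mul hdd (le_trans h2 h3) (by positivity) (by positivity)
          _ = (288 * Cr * R * LL * F / Real.log P') * G := by
              rw [hMG]; field_simp; ring
          _ ≤ (288 * Cr * R * LL * F / Real.log P') * 1 := by
              apply mul_le_mul_of_nonneg_left hG1 (by positivity)
          _ ≤ (1600 * Cr + 3 * Cp) * R * LL * F / Real.log P' := by
              rw [mul_one]
              apply div_le_div_of_nonneg_right _ hlP'0.le
              apply mul_le_mul_of_nonneg_right _ hF0
              apply mul_le_mul_of_nonneg_right _ (by linarith)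
              apply mul_le_mul_of_nonneg_right _ (by linarith)
              linarith
      · push Not at hMs
        -- G^2 ≤ 1/(16 R sP')
        have h1 : 16 * R * G ^ 2 * sP' < 1 := by
          have : 16 * R * G ^ 2 * sP' * sP' < 1 * sP' := by
            calc 16 * R * G ^ 2 * sP' * sP' = M := by rw [hMG, ← hsP'sq]; ring
              _ < sP' := hMs
              _ = 1 * sP' := by ring
          exact lt_of_mul_lt_mul_right this hsP'0.le
        -- sP' = exp (log P' / 2)
        have e3 : sP' = Real.exp (Real.log P' / 4) ^ 2 := by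
          rw [← Real.exp_nat_mul]
          have : ((2 : ℕ) : ℝ) * (Real.log P' / 4) = Real.log P' / 2 := by push_cast; ring
          rw [this, hsP', Real.sqrt_eq_rpow, Real.rpow_def_of_pos hP'0]
          ring_nf
        set E := Real.exp (Real.log P' / 4) with hE
        have hE0 : 0 < E := Real.exp_pos _
        have h2 : (G * E) ^ 2 < 1 := by
          have : (G * E) ^ 2 = G ^ 2 * sP' := by rw [e3]; ring
          rw [this]
          have h20 : 0 < G ^ 2 * sP' := by positivity
          have h21 : 16 * R * G ^ 2 * sP' = (16 * R) * (G ^ 2 * sP') := by ring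
          rw [h21] at h1
          have h22 : 1 * (G ^ 2 * sP') ≤ (16 * R) * (G ^ 2 * sP') :=
            mul_le_mul_of_nonneg_right (by linarith) h20.le
          linarith
        have h3 : G * E < 1 := by
          by_contra h
          push Not at h
          have := one_le_pow₀ (n := 2) h
          linarith
        have h4 : Real.log P' ≤ 4 * E := log_le_four_exp (by linarith)
        have h5 : G * Real.log P' ≤ 4 := by
          have := mul_le_mul_of_nonneg_left h4 hG0.le
          linarith
        refine le_trans hB2 ?_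
        rw [le_div_iff₀ hlP'0]
        calc 384 * R * F * G * Real.log P' = 384 * (G * Real.log P') * (R * F) := by ring
          _ ≤ 384 * 4 * (R * F) := by
              apply mul_le_mul_of_nonneg_right _ (by positivity)
              linarith
          _ ≤ (1600 * Cr + 3 * Cp) * (R * F) := by
              apply mul_le_mul_of_nonneg_right _ (by positivity)
              linarith
          _ ≤ (1600 * Cr + 3 * Cp) * (R * F) * LL := by
              apply le_mul_of_one_le_right (by positivity) hLL1
          _ = _ := by ring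
  · refine le_trans hB2 ?_
    apply mul_le_mul_of_nonneg_right _ hG0.le
    apply mul_le_mul_of_nonneg_right _ hF0
    apply mul_le_mul_of_nonneg_right _ (by linarith)
    linarith
  · refine le_trans hB3' ?_
    rw [mul_one_div]
    apply div_le_div_of_nonneg_right _ hG0.le
    apply mul_le_mul_of_nonneg_right _ hF0
    have h11 : (1600 * Cr + 3 * Cp) * 1 ≤ (1600 * Cr + 3 * Cp) * R :=
      mul_le_mul_of_nonneg_left hR (by linarith)
    linarith

end Pool.Agent.H95R2.Leh
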