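import Pool.Agent.H95R2.Leh.StepA

set_option autoImplicit false

/-! bounds for the far classes and the small splitting primes in normalised form -/

namespace Pool.Agent.H95R2.Leh

open Finset

theorem far_norm {k : ℕ} {R : ℝ} {St : ℕ → ℕ → Prop} (hF : Fam k R St)
    {y P z P' Y P'' F : ℝ} (hy : 0 < y) (hP : 256 * R ≤ P) (hP' : 0 < P') (hP'' : 0 < P'')
    (hY : 0 < Y) (hz : 0 < z)
    (hz4 : 4 * (16 * R / P) * z ^ 2 < 1) (h1 : Fn St (2 * y * P' / Y) P'' ≤ F)
    (h2 : Fn St (y * P' / Y) P'' ≤ F) (h3 : Fn St (y * P' / (2 * Y)) P'' ≤ F) :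
    ((Far St y P z P' Y P'').card : ℝ) * (Real.sqrt P / y) ≤
      4 * F * Real.exp (-(Real.log Y - (Real.log P + Real.log P') / 2)) *
        Real.exp ((Real.log P' - Real.log P'') / 2) := by
  have hR := hF.R_one
  have hP0 : 0 < P := by linarith
  have hF0 : 0 ≤ F := by
    refine le_trans ?_ h2
    unfold Fn
    positivity
  set sP := Real.sqrt P with hsP
  set sP' := Real.sqrt P' with hsP'
  set sQ := Real.sqrt P'' with hsQ
  have hsP0 : 0 < sP := Real.sqrt_pos.mpr hP0
  have hsP'0 : 0 < sP' := Real.sqrt_pos.mpr hP'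
  have hsQ0 : 0 < sQ := Real.sqrt_pos.mpr hP''
  have hsPsq : sP ^ 2 = P := Real.sq_sqrt hP0.le
  have hsP'sq : sP' ^ 2 = P' := Real.sq_sqrt hP'.le
  have hsQsq : sQ ^ 2 = P'' := Real.sq_sqrt hP''.le
  have e1 : Real.log P = 2 * Real.log sP := by
    rw [← hsPsq, Real.log_pow]; norm_num
  have e2 : Real.log P' = 2 * Real.log sP' := by
    rw [← hsP'sq, Real.log_pow]; norm_num
  have e3 : Real.log P'' = 2 * Real.log sQ := by
    rw [← hsQsq, Real.log_pow]; norm_num
  have hexp : Real.exp (-(Real.log Y - (Real.log P + Real.log P') / 2)) *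
        Real.exp ((Real.log P' - Real.log P'') / 2) = sP * P' / (Y * sQ) := by
    rw [← Real.exp_add, e1, e2, e3, show -(Real.log Y - (2 * Real.log sP + 2 * Real.log sP') / 2) +
      (2 * Real.log sP' - 2 * Real.log sQ) / 2 =
      (Real.log sP + Real.log sP' + Real.log sP') - (Real.log Y + Real.log sQ) by ring,
      Real.exp_sub, Real.exp_add, Real.exp_add, Real.exp_add,
      Real.exp_log hY, Real.exp_log hsP0, Real.exp_log hsP'0, Real.exp_log hsQ0, ← hsP'sq]
    ring
  rw [mul_assoc, hexp]
  have hW0 : 0 < sP / y := by positivity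
  have hc := far_card hF (y := y) (P := P) (z := z) (P' := P') (Y := Y) (P'' := P'') hy hP hP' hY
    hz hz4
  rw [Fn_eq (by positivity) hP'', Fn_eq (by positivity) hP'', Fn_eq (by positivity) hP''] at hc
  rw [← hsQ] at hc
  have hc2 := mul_le_mul_of_nonneg_right hc hW0.le
  refine le_trans hc2 ?_
  have e5 : (Fn St (2 * y * P' / Y) P'' * (2 * y * P' / Y) / sQ + Fn St (y * P' / Y) P'' *
      (y * P' / Y) / sQ + Fn St (y * P' / (2 * Y)) P'' * (y * P' / (2 * Y)) / sQ) * (sP / y) =
      (2 * Fn St (2 * y * P' / Y) P'' + Fn St (y * P' / Y) P'' +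
        Fn St (y * P' / (2 * Y)) P'' / 2) * (sP * P' / (Y * sQ)) := by
    field_simp
  rw [e5]
  apply mul_le_mul_of_nonneg_right _ (by positivity)
  linarith

theorem sml_norm : ∃ C : ℝ, 1 ≤ C ∧ ∀ (k : ℕ) (R : ℝ) (St : ℕ → ℕ → Prop), Fam k R St →
    ∀ y P z : ℝ, 0 < y → 256 * R ≤ P → 1 ≤ z → z = Real.sqrt (P / (256 * R)) →
    1600 ≤ Real.log P → 9 / 10 * Real.log P ≤ Real.log y →
    ((Sml St y P z (Real.exp (Real.sqrt (Real.log P) / 4))).card : ℝ) * (Real.sqrt P / y) ≤
      C * R * Real.exp (-(7 / 10 * Real.sqrt (Real.log P))) := by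
  obtain ⟨C, hC1, hC⟩ := sml_card
  refine ⟨16 * C, by linarith, ?_⟩
  intro k R St hF y P z hy hP hz hzeq hlP hly
  have hR := hF.R_one
  have hP0 : 0 < P := by linarith
  set p := Real.log P with hp
  set r := Real.sqrt p with hr
  have hr0 : 0 ≤ r := Real.sqrt_nonneg _
  have hrsq : r ^ 2 = p := Real.sq_sqrt (by linarith)
  have hr40 : 40 ≤ r := by
    rw [hr]
    apply Real.le_sqrt_of_sq_le
    norm_num; linarith
  set w := Real.exp (r / 4) with hw
  have hlw : Real.log w = r / 4 := by rw [hw, Real.log_exp]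
  have hw3000 : 3000 ≤ w := by
    have h1 : Real.exp 10 ≤ w := Real.exp_le_exp.mpr (by linarith)
    have h2 : (3000 : ℝ) ≤ Real.exp 10 := by
      have h3 : Real.exp 10 = (Real.exp 1) ^ 10 := by rw [← Real.exp_nat_mul]; norm_num
      rw [h3]
      have h4 := Real.exp_one_gt_d9
      calc (3000 : ℝ) ≤ 2.7 ^ 10 := by norm_num
        _ ≤ (Real.exp 1) ^ 10 := by
          apply pow_le_pow_left₀ (by norm_num)
          linarith
    linarith
  have hz0 : 0 < z := by linarith
  have hzsq : z ^ 2 = P / (256 * R) := by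
    rw [hzeq]; exact Real.sq_sqrt (by positivity)
  have hz4 : 4 * (16 * R / P) * z ^ 2 < 1 := by
    rw [hzsq]
    have : 4 * (16 * R / P) * (P / (256 * R)) = 1 / 4 := by
      field_simp; norm_num
    rw [this]; norm_num
  have hlz : Real.log z ≤ p / 2 := by
    have h1 : 2 * Real.log z = Real.log (P / (256 * R)) := by
      rw [← hzsq, Real.log_pow]; norm_num
    have h2 : Real.log (P / (256 * R)) ≤ p := by
      rw [hp]
      apply Real.log_le_log (by positivity)
      apply div_le_self hP0.le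
      linarith
    linarith
  have hl2 : Real.log 2 ≤ 1 := by
    have := Real.log_two_lt_d9; linarith
  have hlog : 3 / 10 * p ≤ Real.log (y / (2 * z)) := by
    rw [Real.log_div (by positivity) (by positivity), Real.log_mul (by norm_num) (by positivity)]
    linarith
  have h2zy : 2 * z ≤ y := by
    by_contra h
    push Not at h
    have h1 : Real.log y ≤ Real.log (2 * z) := Real.log_le_log hy h.le
    rw [Real.log_mul (by norm_num) (by positivity)] at h1
    linarith
  have hc := hC k R St hF y P z w hy hP hz hz4 hw3000 h2zy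
  have hW0 : 0 < Real.sqrt P / y := by positivity
  have hc2 := mul_le_mul_of_nonneg_right hc hW0.le
  refine le_trans hc2 ?_
  have hsz : Real.sqrt P / z ≤ 16 * R := by
    have h1 : Real.sqrt P = Real.sqrt (256 * R) * z := by
      rw [hzeq, ← Real.sqrt_mul (by positivity)]
      congr 1
      field_simp
    rw [h1, mul_div_assoc, div_self hz0.ne', mul_one]
    have h2 : Real.sqrt (256 * R) ≤ Real.sqrt ((16 * R) ^ 2) := by
      apply Real.sqrt_le_sqrt
      nlinarith
    rwa [Real.sqrt_sq (by positivity)] at h2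
  have hexp : Real.exp (-(Real.log (y / (2 * z)) / Real.log w)) ≤ Real.exp (-(6 / 5 * r)) := by
    apply Real.exp_le_exp.mpr
    rw [hlw]
    have h1 : 6 / 5 * r ≤ Real.log (y / (2 * z)) / (r / 4) := by
      rw [le_div_iff₀ (by linarith)]
      calc 6 / 5 * r * (r / 4) = 3 / 10 * r ^ 2 := by ring
        _ = 3 / 10 * p := by rw [hrsq]
        _ ≤ _ := hlog
    linarith
  have hr4 : r / 4 ≤ Real.exp (r / 4) := by
    have := Real.add_one_le_exp (r / 4)
    linarith
  calc C * (y * w / z) * Real.log w * Real.exp (-(Real.log (y / (2 * z)) / Real.log w)) *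
        (Real.sqrt P / y)
      = C * (Real.sqrt P / z) * (w * Real.log w * Real.exp (-(Real.log (y / (2 * z)) /
          Real.log w))) := by
        field_simp
    _ ≤ C * (16 * R) * (w * Real.log w * Real.exp (-(Real.log (y / (2 * z)) / Real.log w))) := by
        apply mul_le_mul_of_nonneg_right _ _
        · exact mul_le_mul_of_nonneg_left hsz (by linarith)
        · rw [hlw]; positivity
    _ ≤ C * (16 * R) * (Real.exp (r / 4) * Real.exp (r / 4) * Real.exp (-(6 / 5 * r))) := by
        apply mul_le_mul_of_nonneg_left _ (by positivity)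
        apply mul_le_mul _ hexp (Real.exp_pos _).le (by positivity)
        rw [hlw]
        exact mul_le_mul_of_nonneg_left hr4 (by positivity)
    _ = 16 * C * R * Real.exp (-(7 / 10 * r)) := by
        rw [← Real.exp_add, ← Real.exp_add]
        ring_nf

end Pool.Agent.H95R2.Leh
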