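import Pool.Agent.H95R2.Leh.StepB

set_option autoImplicit false

/-! the combinatorial covering of `DD` -/

namespace Pool.Agent.H95R2.Leh

open Finset

theorem exists_scale {P s : ℝ} (hs : 1 < s) (hsP : s ≤ P) {n1 : ℕ} (hn : P < 2 ^ n1) :
    ∃ a : ℕ, a < n1 ∧ P / 2 ^ a / 2 < s ∧ s ≤ P / 2 ^ a := by
  have h1 : 1 ≤ P / s := by
    rw [le_div_iff₀ (by linarith)]; linarith
  obtain ⟨a, ha1, ha2⟩ := exists_nat_pow_near h1 (show (1 : ℝ) < 2 by norm_num)
  refine ⟨a, ?_, ?_, ?_⟩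
  · by_contra h
    push Not at h
    have h3 : (2 : ℝ) ^ n1 ≤ 2 ^ a := pow_le_pow_right₀ (by norm_num) h
    have h4 : P / s < P := div_lt_self (by linarith) hs
    linarith
  · rw [div_div, ← pow_succ, div_lt_iff₀ (by positivity)]
    rw [div_lt_iff₀ (by linarith)] at ha2
    linarith
  · rw [le_div_iff₀ (by positivity)]
    rw [le_div_iff₀ (by linarith)] at ha1
    linarith

theorem exists_scale' {z Q s P : ℝ} (hz : 0 < z) (hzQ : z < Q) (hQ : Q ≤ z * s) (hsP : s ≤ P)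
    {n1 : ℕ} (hn : P < 2 ^ n1) :
    ∃ l : ℕ, l < n1 ∧ z * 2 ^ (l + 1) / 2 < Q ∧ Q ≤ z * 2 ^ (l + 1) := by
  classical
  have hex : ∃ l : ℕ, Q ≤ z * 2 ^ (l + 1) := by
    refine ⟨n1, ?_⟩
    have : s ≤ 2 ^ (n1 + 1) := by
      have : (2 : ℝ) ^ n1 ≤ 2 ^ (n1 + 1) := pow_le_pow_right₀ (by norm_num) (by omega)
      linarith
    calc Q ≤ z * s := hQ
      _ ≤ _ := mul_le_mul_of_nonneg_left this hz.le
  have h1 := Nat.find_spec hex
  have h2 : z * 2 ^ (Nat.find hex + 1) / 2 < Q := by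
    rcases Nat.eq_zero_or_pos (Nat.find hex) with h0 | h0
    · rw [h0]; norm_num; exact hzQ
    · have h3 := Nat.find_min hex (show Nat.find hex - 1 < Nat.find hex by omega)
      push Not at h3
      have h4 : Nat.find hex - 1 + 1 = Nat.find hex := by omega
      rw [h4] at h3
      rw [pow_succ]
      linarith
  refine ⟨Nat.find hex, ?_, h2, h1⟩
  by_contra h
  push Not at h
  have h3 : (2 : ℝ) ^ n1 ≤ 2 ^ Nat.find hex := pow_le_pow_right₀ (by norm_num) h
  rw [pow_succ] at h2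
  have h5 : z * 2 ^ Nat.find hex < z * s := by linarith
  have h6 : (2 : ℝ) ^ Nat.find hex < s := lt_of_mul_lt_mul_left h5 hz.le
  linarith

theorem cover {k : ℕ} {R : ℝ} {St : ℕ → ℕ → Prop} (hF : Fam k R St) {y P z w T : ℝ} {n1 : ℕ}
    (hz : 1 ≤ z) (hzy : z ≤ y / 2) (hn : P < 2 ^ n1) {D : ℕ} (hD : D ∈ DD St y P) :
    D ∈ Sml St y P z w ∨ ∃ a < n1, ∃ l < n1, w < P / 2 ^ a ∧
      D ∈ Cls St y P z (P / 2 ^ a) (z * 2 ^ (l + 1)) ∧
      (Real.log (z * 2 ^ (l + 1)) ≤ Real.log (P / 2 ^ a) + Real.log 2 ∨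
       (∃ b < n1, Real.log (P / 2 ^ a) + T ≤ Real.log (P / 2 ^ b) ∧
          D ∈ Far St y P z (P / 2 ^ a) (z * 2 ^ (l + 1)) (P / 2 ^ b)) ∨
       (Real.log (z * 2 ^ (l + 1)) ≤ 2 * Real.log (P / 2 ^ a) + T + Real.log 2 ∧
          2 * (Real.log (P / 2 ^ a) - Real.log 2) ≤ Real.log (z * 2 ^ (l + 1))) ∨
       3 * (Real.log (P / 2 ^ a) - Real.log 2) ≤ Real.log (z * 2 ^ (l + 1))) := by
  classical
  have hD0 := hD
  rw [DD, Finset.mem_filter] at hD0
  obtain ⟨hDI, hDy, q, hq1, hq2, hSt⟩ := hD0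
  have hsq := hF.sqf D q hSt
  have hDne : D ≠ 0 := hsq.ne_zero
  obtain ⟨s, hs, hsD, hzs, hsz⟩ := exists_split hsq hz (by linarith)
  by_cases hsw : (s : ℝ) ≤ w
  · left
    rw [Sml, Finset.mem_filter]
    exact ⟨hD, s, hs, hsD, hsw, hzs, hsz⟩
  right
  push Not at hsw
  have hslt : ∀ p : ℕ, p.Prime → p ∣ D → (p : ℝ) ≤ P := by
    intro p hp hpD
    have := hF.lt D q p hSt hp hpD
    have h2 : (p : ℝ) < q := by exact_mod_cast this
    linarith
  have hs1 : (1 : ℝ) < s := by exact_mod_cast hs.one_lt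
  obtain ⟨a, ha, ha1, ha2⟩ := exists_scale hs1 (hslt s hs hsD) hn
  obtain ⟨l, hl, hl1, hl2⟩ := exists_scale' (by linarith : (0:ℝ) < z) hzs hsz (hslt s hs hsD) hn
  have hClsW : ∃ s : ℕ, s.Prime ∧ s ∣ D ∧ (P / 2 ^ a) / 2 < (s : ℝ) ∧ (s : ℝ) ≤ P / 2 ^ a ∧
    (z * 2 ^ (l + 1)) / 2 < (upp D s : ℝ) ∧ (upp D s : ℝ) ≤ z * 2 ^ (l + 1) ∧
      (upp D s : ℝ) ≤ z * s := ⟨s, hs, hsD, ha1, ha2, hl1, hl2, hsz⟩
  refine ⟨a, ha, l, hl, by linarith, ?_, ?_⟩
  · rw [Cls, Finset.mem_filter]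
    exact ⟨hD, hClsW⟩
  set Pa := P / 2 ^ a with hPa
  set Yl := z * 2 ^ (l + 1) with hYl
  have hPa0 : 0 < Pa := by linarith
  have hYl0 : 0 < Yl := by positivity
  have hs0 : (0 : ℝ) < s := by linarith
  set S := D.primeFactors.filter (fun p => s ≤ p) with hS
  have hsS : s ∈ S := by
    rw [hS, Finset.mem_filter]
    exact ⟨Nat.mem_primeFactors.mpr ⟨hs, hsD, hDne⟩, le_refl s⟩
  have hupp : upp D s = ∏ p ∈ S, p := rfl
  have hQ0 : (0 : ℝ) < upp D s := by linarith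
  have hlogYu : Real.log Yl ≤ Real.log (upp D s) + Real.log 2 := by
    rw [← Real.log_mul (by positivity) (by norm_num)]
    apply Real.log_le_log hYl0
    linarith
  have hlogYl : Real.log (upp D s) ≤ Real.log Yl := Real.log_le_log hQ0 hl2
  have hlogs : Real.log s ≤ Real.log Pa := Real.log_le_log hs0 ha2
  have hlogs' : Real.log Pa - Real.log 2 ≤ Real.log s := by
    rw [← Real.log_div (by positivity) (by norm_num)]
    exact Real.log_le_log (by positivity) ha1.le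
  -- lower bound for the product
  have hpow : ∀ m : ℕ, m ≤ S.card → (s : ℝ) ^ m ≤ upp D s := by
    intro m hm
    rw [hupp]
    push_cast
    calc (s : ℝ) ^ m ≤ (s : ℝ) ^ S.card := pow_le_pow_right₀ hs1.le hm
      _ = ∏ _p ∈ S, (s : ℝ) := by rw [Finset.prod_const]
      _ ≤ ∏ p ∈ S, (p : ℝ) := by
          apply Finset.prod_le_prod
          · intro i _; exact hs0.le
          · intro i hi
            rw [hS, Finset.mem_filter] at hi
            exact_mod_cast hi.2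
  have hpowlog : ∀ m : ℕ, m ≤ S.card → (m : ℝ) * (Real.log Pa - Real.log 2) ≤ Real.log Yl := by
    intro m hm
    have h1 := Real.log_le_log (by positivity) (hpow m hm)
    rw [Real.log_pow] at h1
    have h2 : (m : ℝ) * (Real.log Pa - Real.log 2) ≤ m * Real.log s :=
      mul_le_mul_of_nonneg_left hlogs' (by positivity)
    linarith
  have hcard1 : 1 ≤ S.card := Finset.card_pos.mpr ⟨s, hsS⟩
  by_cases h3 : 3 ≤ S.card
  · right; right; right
    have := hpowlog 3 h3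
    push_cast at this
    exact this
  push Not at h3
  by_cases h1 : S.card = 1
  · left
    obtain ⟨x, hx⟩ := Finset.card_eq_one.mp h1
    have hxs : x = s := by
      rw [hx, Finset.mem_singleton] at hsS
      exact hsS.symm
    have h4 : upp D s = s := by
      rw [hupp, hx, hxs, Finset.prod_singleton]
    rw [h4] at hlogYu
    linarith
  have h2 : S.card = 2 := by omega
  right
  -- S = {s, t}
  obtain ⟨t, ht, hSt2⟩ : ∃ t, t ≠ s ∧ S = {s, t} := by
    obtain ⟨u, v, huv, hSuv⟩ := Finset.card_eq_two.mp h2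
    rw [hSuv, Finset.mem_insert, Finset.mem_singleton] at hsS
    rcases hsS with h | h
    · exact ⟨v, by rw [h]; exact huv.symm, by rw [hSuv, h]⟩
    · refine ⟨u, by rw [h]; exact huv, ?_⟩
      rw [hSuv, h, Finset.pair_comm]
  have htS : t ∈ S := by rw [hSt2]; simp
  have htS' := htS
  rw [hS, Finset.mem_filter, Nat.mem_primeFactors] at htS'
  obtain ⟨⟨htp, htD, -⟩, hst⟩ := htS'
  have hst' : s < t := lt_of_le_of_ne hst (Ne.symm ht)
  have ht1 : (1 : ℝ) < t := by exact_mod_cast htp.one_lt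
  obtain ⟨b, hb, hb1, hb2⟩ := exists_scale ht1 (hslt t htp htD) hn
  have hnext : ∀ p : ℕ, p.Prime → p ∣ D → s < p → t ≤ p := by
    intro p hp hpD hsp
    have : p ∈ S := by
      rw [hS, Finset.mem_filter, Nat.mem_primeFactors]
      exact ⟨⟨hp, hpD, hDne⟩, hsp.le⟩
    rw [hSt2, Finset.mem_insert, Finset.mem_singleton] at this
    rcases this with h | h
    · omega
    · omega
  by_cases hT : Real.log Pa + T ≤ Real.log (P / 2 ^ b)
  · left
    refine ⟨b, hb, hT, ?_⟩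
    rw [Far, Finset.mem_filter]
    exact ⟨hD, s, t, hs, htp, hsD, htD, hst', hnext, ha1, ha2, hb1, hb2, hl1, hl2, hsz⟩
  push Not at hT
  right; left
  constructor
  · have h5 : upp D s = s * t := by
      rw [hupp, hSt2, Finset.prod_pair (Ne.symm ht)]
    have h6 : Real.log (upp D s) = Real.log s + Real.log t := by
      rw [h5]; push_cast
      rw [Real.log_mul (by positivity) (by positivity)]
    have h7 : Real.log t ≤ Real.log (P / 2 ^ b) := Real.log_le_log (by linarith) hb2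
    linarith
  · have := hpowlog 2 (by omega)
    push_cast at this
    exact this

end Pool.Agent.H95R2.Leh
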