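import Pool.Agent.H95R2.Leh.StepC

set_option autoImplicit false

/-! assembly of the covering -/

namespace Pool.Agent.H95R2.Leh

open Finset

theorem count_band {S : Finset ℕ} {u T : ℝ} (hT : 0 ≤ T)
    (h : ∀ a ∈ S, |u + a * Real.log 2| ≤ T) : (S.card : ℝ) ≤ 3 * T + 1 := by
  rcases S.eq_empty_or_nonempty with h0 | h0
  · rw [h0]; simp; linarith
  have hlog2 := Real.log_two_gt_d9
  have hlog20 : 0 < Real.log 2 := by linarith
  set m := S.min' h0 with hm
  have hmS : m ∈ S := S.min'_mem h0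
  have hsub : S ⊆ Finset.Icc m (m + ⌊2 * T / Real.log 2⌋₊) := by
    intro a ha
    rw [Finset.mem_Icc]
    have hma : m ≤ a := S.min'_le a ha
    refine ⟨hma, ?_⟩
    have h1 := abs_le.mp (h a ha)
    have h2 := abs_le.mp (h m hmS)
    have h3 : ((a - m : ℕ) : ℝ) ≤ 2 * T / Real.log 2 := by
      rw [le_div_iff₀ hlog20, Nat.cast_sub hma]
      nlinarith
    have h4 : a - m ≤ ⌊2 * T / Real.log 2⌋₊ := Nat.le_floor h3
    omega
  have h5 := Finset.card_le_card hsub
  rw [Nat.card_Icc] at h5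
  have h6 : (S.card : ℝ) ≤ (⌊2 * T / Real.log 2⌋₊ : ℝ) + 1 := by
    have : S.card ≤ ⌊2 * T / Real.log 2⌋₊ + 1 := by omega
    exact_mod_cast this
  have h7 : (⌊2 * T / Real.log 2⌋₊ : ℝ) ≤ 2 * T / Real.log 2 := Nat.floor_le (by positivity)
  have h8 : 2 * T / Real.log 2 ≤ 3 * T := by
    rw [div_le_iff₀ hlog20]
    nlinarith
  linarith

open Classical in
theorem card_biUnion_mul_le {ι : Type*} (I : Finset ι) (f : ι → Finset ℕ) {W e : ℝ}
    (hW : 0 ≤ W) (h : ∀ i ∈ I, ((f i).card : ℝ) * W ≤ e) :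
    ((I.biUnion f).card : ℝ) * W ≤ I.card * e := by
  have h1 : ((I.biUnion f).card : ℝ) ≤ ∑ i ∈ I, ((f i).card : ℝ) := by
    exact_mod_cast Finset.card_biUnion_le
  calc ((I.biUnion f).card : ℝ) * W ≤ (∑ i ∈ I, ((f i).card : ℝ)) * W :=
        mul_le_mul_of_nonneg_right h1 hW
    _ = ∑ i ∈ I, ((f i).card : ℝ) * W := by rw [Finset.sum_mul]
    _ ≤ ∑ _i ∈ I, e := Finset.sum_le_sum h
    _ = I.card * e := by rw [Finset.sum_const, nsmul_eq_mul]

theorem assemble {k : ℕ} {R : ℝ} {St : ℕ → ℕ → Prop} (hF : Fam k R St)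
    {y P z w U v ε1 ε2 e0 e1 e2 : ℝ} {n1 : ℕ}
    (hy : 0 < y) (hz : 1 ≤ z) (hzy : z ≤ y / 2) (hP1 : 1 ≤ P) (hn : P < 2 ^ n1) (hU : 1 ≤ U)
    (hε1 : 0 ≤ ε1) (hε2 : 0 ≤ ε2) (he0 : 0 ≤ e0) (he1 : 0 ≤ e1)
    (hpU : 41 * U + 6 ≤ Real.log P)
    (hsml : ((Sml St y P z w).card : ℝ) * (Real.sqrt P / y) ≤ e2)
    (hN : ∀ a < n1, ∀ l < n1, w < P / 2 ^ a →
      (Real.log (z * 2 ^ (l + 1)) - (Real.log P + Real.log (P / 2 ^ a)) / 2 ≤ -U ∨
       U ≤ Real.log (z * 2 ^ (l + 1)) - (Real.log P + Real.log (P / 2 ^ a)) / 2 ∨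
       Real.log (P / 2 ^ a) < v) →
      ((Cls St y P z (P / 2 ^ a) (z * 2 ^ (l + 1))).card : ℝ) * (Real.sqrt P / y) ≤ ε1)
    (hFar : ∀ a < n1, ∀ l < n1, ∀ b < n1, w < P / 2 ^ a →
      -U < Real.log (z * 2 ^ (l + 1)) - (Real.log P + Real.log (P / 2 ^ a)) / 2 →
      Real.log (P / 2 ^ a) + 4 * U ≤ Real.log (P / 2 ^ b) →
      ((Far St y P z (P / 2 ^ a) (z * 2 ^ (l + 1)) (P / 2 ^ b)).card : ℝ) *
        (Real.sqrt P / y) ≤ ε2)
    (h0 : ∀ a < n1, ∀ l < n1, v ≤ Real.log (P / 2 ^ a) → Real.log P / 4 ≤ Real.log (P / 2 ^ a) →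
      ((Cls St y P z (P / 2 ^ a) (z * 2 ^ (l + 1))).card : ℝ) * (Real.sqrt P / y) ≤ e0)
    (h1 : ∀ a < n1, ∀ l < n1, v ≤ Real.log (P / 2 ^ a) →
      |Real.log (z * 2 ^ (l + 1)) - (Real.log P + Real.log (P / 2 ^ a)) / 2| ≤ U →
      5 * Real.log (P / 2 ^ a) ≤ Real.log P + 2 * U + 6 * Real.log 2 →
      ((Cls St y P z (P / 2 ^ a) (z * 2 ^ (l + 1))).card : ℝ) * (Real.sqrt P / y) ≤ e1) :
    Fn St y P ≤ e2 + n1 ^ 2 * ε1 + n1 ^ 3 * ε2 + 128 * U ^ 2 * e0 + 4 * U * n1 * e1 := by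
  classical
  have hP0 : 0 < P := by linarith
  have hlog2 := Real.log_two_gt_d9
  have hlog2' := Real.log_two_lt_d9
  set W := Real.sqrt P / y with hW
  have hW0 : 0 ≤ W := by positivity
  have hz0 : 0 < z := by linarith
  have hpa : ∀ a : ℕ, Real.log (P / 2 ^ a) = Real.log P - a * Real.log 2 := by
    intro a
    rw [Real.log_div hP0.ne' (by positivity), Real.log_pow]
  have hYl : ∀ l : ℕ, Real.log (z * 2 ^ (l + 1)) = Real.log z + (l + 1) * Real.log 2 := by
    intro l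
    rw [Real.log_mul hz0.ne' (by positivity), Real.log_pow]
    push_cast; ring
  set p := Real.log P with hp
  let G : ℕ → ℕ → ℝ := fun a l =>
    Real.log (z * 2 ^ (l + 1)) - (p + Real.log (P / 2 ^ a)) / 2
  let IN := ((range n1) ×ˢ (range n1)).filter (fun i : ℕ × ℕ => w < P / 2 ^ i.1 ∧
    (G i.1 i.2 ≤ -U ∨ U ≤ G i.1 i.2 ∨ Real.log (P / 2 ^ i.1) < v))
  let IF := ((range n1) ×ˢ ((range n1) ×ˢ (range n1))).filter (fun i : ℕ × ℕ × ℕ =>
    w < P / 2 ^ i.1 ∧ -U < G i.1 i.2.1 ∧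
      Real.log (P / 2 ^ i.1) + 4 * U ≤ Real.log (P / 2 ^ i.2.2))
  let Lp : ℕ → Finset ℕ := fun a => (range n1).filter (fun l => |G a l| ≤ U)
  let A01 := (range n1).filter (fun a => v ≤ Real.log (P / 2 ^ a) ∧
    p / 4 ≤ Real.log (P / 2 ^ a) ∧ p - 2 * U - 2 * Real.log 2 ≤ Real.log (P / 2 ^ a))
  let A02 := (range n1).filter (fun a => v ≤ Real.log (P / 2 ^ a) ∧
    p / 4 ≤ Real.log (P / 2 ^ a) ∧ p - 10 * U - 2 * Real.log 2 ≤ 3 * Real.log (P / 2 ^ a) ∧
    3 * Real.log (P / 2 ^ a) ≤ p + 2 * U + 4 * Real.log 2)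
  let A1 := (range n1).filter (fun a => v ≤ Real.log (P / 2 ^ a) ∧
    5 * Real.log (P / 2 ^ a) ≤ p + 2 * U + 6 * Real.log 2)
  let C : ℕ → ℕ → Finset ℕ := fun a l => Cls St y P z (P / 2 ^ a) (z * 2 ^ (l + 1))
  have hsub : DD St y P ⊆ Sml St y P z w ∪ IN.biUnion (fun i => C i.1 i.2) ∪
      IF.biUnion (fun i => Far St y P z (P / 2 ^ i.1) (z * 2 ^ (i.2.1 + 1)) (P / 2 ^ i.2.2)) ∪
      (A01 ∪ A02).biUnion (fun a => (Lp a).biUnion (fun l => C a l)) ∪
      A1.biUnion (fun a => (Lp a).biUnion (fun l => C a l)) := by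
    intro D hD
    rcases cover hF (w := w) (T := 4 * U) hz hzy hn hD with h | ⟨a, ha, l, hl, hwa, hDC, hcase⟩
    · simp only [Finset.mem_union]
      left; left; left; left; exact h
    have hra : a ∈ range n1 := Finset.mem_range.mpr ha
    have hrl : l ∈ range n1 := Finset.mem_range.mpr hl
    by_cases hneg : (G a l ≤ -U ∨ U ≤ G a l ∨ Real.log (P / 2 ^ a) < v)
    · simp only [Finset.mem_union]
      left; left; left; right
      rw [Finset.mem_biUnion]
      refine ⟨(a, l), ?_, hDC⟩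
      rw [Finset.mem_filter, Finset.mem_product]
      exact ⟨⟨hra, hrl⟩, hwa, hneg⟩
    push Not at hneg
    obtain ⟨hg1, hg2, hv⟩ := hneg
    have hGdef : G a l = Real.log (z * 2 ^ (l + 1)) - (p + Real.log (P / 2 ^ a)) / 2 := rfl
    have hLl : l ∈ Lp a := by
      rw [Finset.mem_filter]
      exact ⟨hrl, abs_le.mpr ⟨hg1.le, hg2.le⟩⟩
    rw [hGdef] at hg1 hg2
    rcases hcase with hc | ⟨b, hb, hbT, hDF⟩ | ⟨hc1, hc2⟩ | hc
    · simp only [Finset.mem_union]
      left; right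
      rw [Finset.mem_biUnion]
      refine ⟨a, ?_, ?_⟩
      · rw [Finset.mem_union]; left
        rw [Finset.mem_filter]
        refine ⟨hra, hv, ?_, ?_⟩
        · linarith
        · linarith
      · rw [Finset.mem_biUnion]
        exact ⟨l, hLl, hDC⟩
    · simp only [Finset.mem_union]
      left; left; right
      rw [Finset.mem_biUnion]
      refine ⟨(a, l, b), ?_, hDF⟩
      rw [Finset.mem_filter, Finset.mem_product, Finset.mem_product]
      refine ⟨⟨hra, hrl, Finset.mem_range.mpr hb⟩, hwa, ?_, hbT⟩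
      rw [hGdef]; exact hg1
    · simp only [Finset.mem_union]
      left; right
      rw [Finset.mem_biUnion]
      refine ⟨a, ?_, ?_⟩
      · rw [Finset.mem_union]; right
        rw [Finset.mem_filter]
        refine ⟨hra, hv, ?_, ?_, ?_⟩
        · linarith
        · linarith
        · linarith
      · rw [Finset.mem_biUnion]
        exact ⟨l, hLl, hDC⟩
    · simp only [Finset.mem_union]
      right
      rw [Finset.mem_biUnion]
      refine ⟨a, ?_, ?_⟩
      · rw [Finset.mem_filter]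
        refine ⟨hra, hv, ?_⟩
        linarith
      · rw [Finset.mem_biUnion]
        exact ⟨l, hLl, hDC⟩
  -- cardinalities of the index sets
  have hINc : (IN.card : ℝ) ≤ (n1 : ℝ) ^ 2 := by
    have h : IN.card ≤ n1 * n1 := by
      refine le_trans (Finset.card_filter_le _ _) ?_
      rw [Finset.card_product, Finset.card_range]
    calc (IN.card : ℝ) ≤ ((n1 * n1 : ℕ) : ℝ) := by exact_mod_cast h
      _ = (n1 : ℝ) ^ 2 := by push_cast; ring
  have hIFc : (IF.card : ℝ) ≤ (n1 : ℝ) ^ 3 := by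
    have h : IF.card ≤ n1 * (n1 * n1) := by
      refine le_trans (Finset.card_filter_le _ _) ?_
      rw [Finset.card_product, Finset.card_product, Finset.card_range]
    calc (IF.card : ℝ) ≤ ((n1 * (n1 * n1) : ℕ) : ℝ) := by exact_mod_cast h
      _ = (n1 : ℝ) ^ 3 := by push_cast; ring
  have hLpc : ∀ a, ((Lp a).card : ℝ) ≤ 4 * U := by
    intro a
    have h := count_band (S := Lp a) (u := Real.log z + Real.log 2 -
      (p + Real.log (P / 2 ^ a)) / 2) (T := U) (by linarith) (by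
        intro l hl
        rw [Finset.mem_filter] at hl
        have h2 := hl.2
        have h3 : G a l = Real.log z + Real.log 2 - (p + Real.log (P / 2 ^ a)) / 2 +
          l * Real.log 2 := by
          show Real.log (z * 2 ^ (l + 1)) - (p + Real.log (P / 2 ^ a)) / 2 = _
          rw [hYl]; ring
        rw [h3] at h2
        exact h2)
    linarith
  have hA01c : (A01.card : ℝ) ≤ 13 * U := by
    have h := count_band (S := A01) (u := 0) (T := 2 * U + 2 * Real.log 2) (by linarith) (by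
        intro a ha
        rw [Finset.mem_filter] at ha
        have h2 := ha.2.2.2
        rw [hpa] at h2
        have h3 : (0 : ℝ) ≤ a * Real.log 2 := by positivity
        rw [zero_add, abs_of_nonneg h3]
        linarith)
    linarith
  have hA02c : (A02.card : ℝ) ≤ 19 * U := by
    have h := count_band (S := A02) (u := -(2 * p / 3)) (T := 4 * U + 4 / 3 * Real.log 2)
      (by linarith) (by
        intro a ha
        rw [Finset.mem_filter] at ha
        have h2 := ha.2.2.2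
        rw [hpa] at h2
        rw [abs_le]
        constructor <;> linarith)
    linarith
  have hA0c : ((A01 ∪ A02).card : ℝ) ≤ 32 * U := by
    have : ((A01 ∪ A02).card : ℝ) ≤ (A01.card : ℝ) + A02.card := by
      exact_mod_cast Finset.card_union_le _ _
    linarith
  have hA1c : (A1.card : ℝ) ≤ n1 := by
    have h : A1.card ≤ n1 := by
      refine le_trans (Finset.card_filter_le _ _) ?_
      rw [Finset.card_range]
    exact_mod_cast h
  -- bounds for the pieces
  have b1 : ((IN.biUnion (fun i => C i.1 i.2)).card : ℝ) * W ≤ n1 ^ 2 * ε1 := by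
    refine le_trans (card_biUnion_mul_le IN _ hW0 (e := ε1) ?_) ?_
    · intro i hi
      rw [Finset.mem_filter, Finset.mem_product] at hi
      exact hN i.1 (Finset.mem_range.mp hi.1.1) i.2 (Finset.mem_range.mp hi.1.2) hi.2.1 hi.2.2
    · exact mul_le_mul_of_nonneg_right hINc hε1
  have b2 : ((IF.biUnion (fun i => Far St y P z (P / 2 ^ i.1) (z * 2 ^ (i.2.1 + 1))
      (P / 2 ^ i.2.2))).card : ℝ) * W ≤ n1 ^ 3 * ε2 := by
    refine le_trans (card_biUnion_mul_le IF _ hW0 (e := ε2) ?_) ?_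
    · intro i hi
      rw [Finset.mem_filter, Finset.mem_product, Finset.mem_product] at hi
      exact hFar i.1 (Finset.mem_range.mp hi.1.1) i.2.1 (Finset.mem_range.mp hi.1.2.1) i.2.2
        (Finset.mem_range.mp hi.1.2.2) hi.2.1 hi.2.2.1 hi.2.2.2
    · exact mul_le_mul_of_nonneg_right hIFc hε2
  have b3 : (((A01 ∪ A02).biUnion (fun a => (Lp a).biUnion (fun l => C a l))).card : ℝ) * W ≤
      128 * U ^ 2 * e0 := by
    refine le_trans (card_biUnion_mul_le (A01 ∪ A02) _ hW0 (e := 4 * U * e0) ?_) ?_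
    · intro a ha
      have hva : a < n1 ∧ v ≤ Real.log (P / 2 ^ a) ∧ p / 4 ≤ Real.log (P / 2 ^ a) := by
        rw [Finset.mem_union] at ha
        rcases ha with ha | ha
        · rw [Finset.mem_filter] at ha
          exact ⟨Finset.mem_range.mp ha.1, ha.2.1, ha.2.2.1⟩
        · rw [Finset.mem_filter] at ha
          exact ⟨Finset.mem_range.mp ha.1, ha.2.1, ha.2.2.1⟩
      refine le_trans (card_biUnion_mul_le (Lp a) _ hW0 (e := e0) ?_) ?_
      · intro l hl
        rw [Finset.mem_filter] at hl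
        exact h0 a hva.1 l (Finset.mem_range.mp hl.1) hva.2.1 hva.2.2
      · exact mul_le_mul_of_nonneg_right (hLpc a) he0
    · calc ((A01 ∪ A02).card : ℝ) * (4 * U * e0) ≤ (32 * U) * (4 * U * e0) :=
            mul_le_mul_of_nonneg_right hA0c (by positivity)
        _ = 128 * U ^ 2 * e0 := by ring
  have b4 : ((A1.biUnion (fun a => (Lp a).biUnion (fun l => C a l))).card : ℝ) * W ≤
      4 * U * n1 * e1 := by
    refine le_trans (card_biUnion_mul_le A1 _ hW0 (e := 4 * U * e1) ?_) ?_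
    · intro a ha
      rw [Finset.mem_filter] at ha
      refine le_trans (card_biUnion_mul_le (Lp a) _ hW0 (e := e1) ?_) ?_
      · intro l hl
        rw [Finset.mem_filter] at hl
        exact h1 a (Finset.mem_range.mp ha.1) l (Finset.mem_range.mp hl.1) ha.2.1 hl.2 ha.2.2
      · exact mul_le_mul_of_nonneg_right (hLpc a) he1
    · calc (A1.card : ℝ) * (4 * U * e1) ≤ n1 * (4 * U * e1) :=
            mul_le_mul_of_nonneg_right hA1c (by positivity)
        _ = 4 * U * n1 * e1 := by ring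
  have hc1 := Finset.card_le_card hsub
  have hc2 : ((DD St y P).card : ℝ) ≤ ((Sml St y P z w).card : ℝ) +
      ((IN.biUnion (fun i => C i.1 i.2)).card : ℝ) +
      ((IF.biUnion (fun i => Far St y P z (P / 2 ^ i.1) (z * 2 ^ (i.2.1 + 1))
      (P / 2 ^ i.2.2))).card : ℝ) +
      (((A01 ∪ A02).biUnion (fun a => (Lp a).biUnion (fun l => C a l))).card : ℝ) +
      ((A1.biUnion (fun a => (Lp a).biUnion (fun l => C a l))).card : ℝ) := by
    have h5 := Finset.card_union_le (Sml St y P z w ∪ IN.biUnion (fun i => C i.1 i.2) ∪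
      IF.biUnion (fun i => Far St y P z (P / 2 ^ i.1) (z * 2 ^ (i.2.1 + 1)) (P / 2 ^ i.2.2)) ∪
      (A01 ∪ A02).biUnion (fun a => (Lp a).biUnion (fun l => C a l)))
      (A1.biUnion (fun a => (Lp a).biUnion (fun l => C a l)))
    have h6 := Finset.card_union_le (Sml St y P z w ∪ IN.biUnion (fun i => C i.1 i.2) ∪
      IF.biUnion (fun i => Far St y P z (P / 2 ^ i.1) (z * 2 ^ (i.2.1 + 1)) (P / 2 ^ i.2.2)))
      ((A01 ∪ A02).biUnion (fun a => (Lp a).biUnion (fun l => C a l)))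
    have h7 := Finset.card_union_le (Sml St y P z w ∪ IN.biUnion (fun i => C i.1 i.2))
      (IF.biUnion (fun i => Far St y P z (P / 2 ^ i.1) (z * 2 ^ (i.2.1 + 1)) (P / 2 ^ i.2.2)))
    have h8 := Finset.card_union_le (Sml St y P z w) (IN.biUnion (fun i => C i.1 i.2))
    exact_mod_cast (by omega : (DD St y P).card ≤ (Sml St y P z w).card +
      (IN.biUnion (fun i => C i.1 i.2)).card +
      (IF.biUnion (fun i => Far St y P z (P / 2 ^ i.1) (z * 2 ^ (i.2.1 + 1))
      (P / 2 ^ i.2.2))).card +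
      ((A01 ∪ A02).biUnion (fun a => (Lp a).biUnion (fun l => C a l))).card +
      (A1.biUnion (fun a => (Lp a).biUnion (fun l => C a l))).card)
  have hFn : Fn St y P = ((DD St y P).card : ℝ) * W := by
    unfold Fn
    rw [hW]; ring
  rw [hFn]
  have hc3 := mul_le_mul_of_nonneg_right hc2 hW0
  linarith

end Pool.Agent.H95R2.Leh
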