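import Pool.Agent.H95R2.Leh.StepD

set_option autoImplicit false

/-! the numerical part of the step -/

namespace Pool.Agent.H95R2.Leh

open Finset

theorem ev_poly (C : ℝ) (n : ℕ) : ∃ L0 : ℝ, 1 ≤ L0 ∧ ∀ L : ℝ, L0 ≤ L →
    C * L ^ n ≤ Real.exp (L / 4) := by
  have h := Real.tendsto_exp_div_pow_atTop n
  rw [Filter.tendsto_atTop] at h
  have h2 := h (C * 4 ^ n)
  rw [Filter.eventually_atTop] at h2
  obtain ⟨x0, hx0⟩ := h2
  refine ⟨max 1 (4 * x0), le_max_left _ _, ?_⟩
  intro L hL
  have hL1 : 1 ≤ L := le_trans (le_max_left _ _) hL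
  have hL2 : x0 ≤ L / 4 := by
    have := le_trans (le_max_right 1 (4 * x0)) hL
    linarith
  have h3 := hx0 (L / 4) hL2
  rw [le_div_iff₀ (by positivity)] at h3
  calc C * L ^ n = C * 4 ^ n * (L / 4) ^ n := by
        rw [div_pow]; field_simp
    _ ≤ _ := h3

theorem step_core (A C0 : ℝ) (hA : 1 ≤ A) (hC0 : 1 ≤ C0) : ∃ c1 L0 : ℝ, 1 ≤ c1 ∧ 1 ≤ L0 ∧
    ∀ L : ℝ, L0 ≤ L → ∀ (k : ℕ) (R : ℝ) (St : ℕ → ℕ → Prop), Fam k R St →
    R ≤ C0 * L →
    ∀ P c β0 β1 : ℝ, Real.exp (Real.exp (3 / 4 * L)) ≤ P → Real.log P ≤ 2 * Real.exp L →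
    9 / 10 ≤ c → c ≤ L ^ 2 → 0 ≤ β0 → 0 ≤ β1 →
    (∀ y' P' : ℝ, 0 < y' → 0 < P' → Real.log P / (c1 * L) ≤ Real.log P' → P' ≤ P →
      Fn St y' P' ≤ β0) →
    (∀ y' P' : ℝ, 0 < y' → 0 < P' → Real.log P / (c1 * L) ≤ Real.log P' → P' ≤ P →
      (5 * c - 31 / 10) * Real.log P' ≤ Real.log y' → Fn St y' P' ≤ β1) →
    ∀ y : ℝ, 0 < y → c * Real.log P ≤ Real.log y →
      Fn St y P ≤ Real.exp (-A * L) + L ^ 5 * (Real.exp (-(1 / 2) * L) * β0 + β1) := by
  obtain ⟨C1, hC1, hcls⟩ := cls_norm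
  obtain ⟨C2, hC2, hsml⟩ := sml_norm
  obtain ⟨Ct, hCt, htriv⟩ := Fn_triv
  obtain ⟨Cs, hCs, hsmooth⟩ := Fn_smooth
  set K := A + 10 with hK
  set c1 := 4 * (A + 6) with hc1
  obtain ⟨La, hLa, ha⟩ := ev_poly (4 * (6400 * Ct * Cs * C0)) 1
  obtain ⟨Lb, hLb, hb⟩ := ev_poly (6400 * Ct * Cs * C0 * c1) 2
  obtain ⟨Lc, hLc, hc⟩ := ev_poly (80 * c1 * K) 4
  obtain ⟨Ld, hLd, hd⟩ := ev_poly (47 * K) 1
  obtain ⟨Le, hLe, he⟩ := ev_poly (2 * (A + 4 * C2 * C0)) 1
  obtain ⟨Lf, hLf, hf⟩ := ev_poly (64 * C1 * C0 ^ 3 * Ct + 192 * C1 * Cs * C0 ^ 3) 4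
  obtain ⟨Lg, hLg, hg⟩ := ev_poly (1024 * Ct * C0 ^ 2) 2
  refine ⟨c1, max (max (max La Lb) (max Lc Ld)) (max (max Le Lf) (max Lg
    (2000 + 1536 * K ^ 2 * C1 * C0 + 24 * K * C1 * C0 * c1))), by linarith, ?_, ?_⟩
  · exact le_trans hLa (le_trans (le_max_left La Lb) (le_trans (le_max_left _ _)
      (le_max_left _ _)))
  intro L hL k R St hF hRL P c β0 β1 hPl hPu hc9 hcL hβ0 hβ1 hyp0 hyp1 y hy hcy
  simp only [max_le_iff] at hL
  obtain ⟨⟨⟨hL1, hL2⟩, hL3, hL4⟩, ⟨hL5, hL6⟩, hL7, hL8⟩ := hL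
  replace ha := ha L hL1
  replace hb := hb L hL2
  replace hc := hc L hL3
  replace hd := hd L hL4
  replace he := he L hL5
  replace hf := hf L hL6
  replace hg := hg L hL7
  rw [pow_one] at ha hd he
  have hK11 : 11 ≤ K := by linarith
  have hc28 : 28 ≤ c1 := by linarith
  have hR := hF.R_one
  have hL2000 : 2000 ≤ L := by
    have h1 : 0 ≤ 1536 * K ^ 2 * C1 * C0 := by positivity
    have h2 : 0 ≤ 24 * K * C1 * C0 * c1 := by positivity
    linarith
  have hLpos : 0 < L := by linarith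
  have hL1' : 1 ≤ L := by linarith
  have hCtCs : 1 ≤ Ct * Cs := one_le_mul_of_one_le_of_one_le hCt hCs
  have hP0 : 0 < P := lt_of_lt_of_le (Real.exp_pos _) hPl
  set p := Real.log P with hp
  have hPp : Real.exp p = P := Real.exp_log hP0
  have hp34 : Real.exp (3 / 4 * L) ≤ p := by
    have := Real.log_le_log (Real.exp_pos _) hPl
    rwa [Real.log_exp] at this
  set E4 := Real.exp (L / 4) with hE4
  have hE40 : 0 < E4 := Real.exp_pos _
  have hE4p2 : E4 ^ 2 ≤ p := by
    refine le_trans ?_ hp34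
    rw [hE4, ← Real.exp_nat_mul]
    apply Real.exp_le_exp.mpr
    push_cast; linarith
  have hE41 : 1 ≤ E4 := by
    rw [hE4]; apply Real.one_le_exp; linarith
  have hE4p : E4 ≤ p := by
    have h1 : E4 * 1 ≤ E4 * E4 := mul_le_mul_of_nonneg_left hE41 hE40.le
    have h2 : E4 * E4 = E4 ^ 2 := by ring
    linarith
  have hp0 : 0 < p := by linarith
  set r := Real.sqrt p with hr
  have hr0 : 0 ≤ r := Real.sqrt_nonneg _
  have hrsq : r ^ 2 = p := Real.sq_sqrt hp0.le
  have hE4r : E4 ≤ r := by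
    rw [hr]
    exact Real.le_sqrt_of_sq_le hE4p2
  set X := 6400 * Ct * Cs * C0 * L with hX
  have hC0L : 1 ≤ C0 * L := one_le_mul_of_one_le_of_one_le hC0 hL1'
  have hX1 : 6400 * R ≤ X := by
    calc 6400 * R ≤ 6400 * (C0 * L) := by linarith
      _ = 6400 * (1 * (C0 * L)) := by ring
      _ ≤ 6400 * ((Ct * Cs) * (C0 * L)) := by
          apply mul_le_mul_of_nonneg_left _ (by norm_num)
          exact mul_le_mul_of_nonneg_right hCtCs (by positivity)
      _ = X := by rw [hX]; ring
  have hX2 : Ct * R ≤ X := by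
    have h1 : Ct * R ≤ Ct * (C0 * L) := mul_le_mul_of_nonneg_left hRL (by linarith)
    have h2 : Ct * (C0 * L) ≤ Cs * (Ct * (C0 * L)) := le_mul_of_one_le_left (by positivity) hCs
    have h3 : Cs * (Ct * (C0 * L)) ≤ 6400 * (Cs * (Ct * (C0 * L))) :=
      le_mul_of_one_le_left (by positivity) (by norm_num)
    calc Ct * R ≤ 6400 * (Cs * (Ct * (C0 * L))) := by linarith
      _ = X := by rw [hX]; ring
  have hX3 : Cs * R ≤ X := by
    have h1 : Cs * R ≤ Cs * (C0 * L) := mul_le_mul_of_nonneg_left hRL (by linarith)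
    have h2 : Cs * (C0 * L) ≤ Ct * (Cs * (C0 * L)) := le_mul_of_one_le_left (by positivity) hCt
    have h3 : Ct * (Cs * (C0 * L)) ≤ 6400 * (Ct * (Cs * (C0 * L))) :=
      le_mul_of_one_le_left (by positivity) (by norm_num)
    calc Cs * R ≤ 6400 * (Ct * (Cs * (C0 * L))) := by linarith
      _ = X := by rw [hX]; ring
  have hX3' : 3 ≤ X := by linarith
  set w := Real.exp (r / 4) with hw
  have hXw : X ≤ w := by
    have h1 : r / 4 + 1 ≤ w := Real.add_one_le_exp _
    have h2 : 4 * X ≤ E4 := by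
      calc 4 * X = 4 * (6400 * Ct * Cs * C0) * L := by rw [hX]; ring
        _ ≤ E4 := ha
    linarith
  set v := p / (c1 * L) with hv
  have hc1L : 0 < c1 * L := by positivity
  have hvp : v * (c1 * L) = p := by
    rw [hv]; field_simp
  have hXv : X ≤ v := by
    rw [hv, le_div_iff₀ hc1L]
    calc X * (c1 * L) = 6400 * Ct * Cs * C0 * c1 * L ^ 2 := by rw [hX]; ring
      _ ≤ E4 := hb
      _ ≤ p := hE4p
  have hv0 : 0 < v := by linarith
  have hv80 : 80 * K * L ^ 3 ≤ v := by
    rw [hv, le_div_iff₀ hc1L]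
    calc 80 * K * L ^ 3 * (c1 * L) = 80 * c1 * K * L ^ 4 := by ring
      _ ≤ E4 := hc
      _ ≤ p := hE4p
  have hXexpv : X ≤ Real.exp v := by
    have := Real.add_one_le_exp v
    linarith
  set U := K * L with hU
  have hU1 : 1 ≤ U := one_le_mul_of_one_le_of_one_le (by linarith) hL1'
  have hKL : 6 ≤ K * L := by
    have h1 : 11 * 1 ≤ K * L := mul_le_mul hK11 hL1' (by norm_num) (by linarith)
    linarith
  have h47 : 47 * U ≤ p := by
    calc 47 * U = 47 * K * L := by rw [hU]; ring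
      _ ≤ E4 := hd
      _ ≤ p := hE4p
  have hpU : 41 * U + 6 ≤ p := by linarith
  have hvp10 : v ≤ p / 10 := by
    rw [hv]
    apply div_le_div_of_nonneg_left hp0.le (by norm_num)
    have h1 : 28 * 1 ≤ c1 * L := mul_le_mul hc28 hL1' (by norm_num) (by linarith)
    linarith
  have hp1600 : 1600 ≤ p := by
    have : 2000 ≤ p := by
      have h1 : L ≤ U := by
        rw [hU]
        exact le_mul_of_one_le_left hLpos.le (by linarith)
      linarith
    linarith
  have hPX : X ≤ P := by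
    have h1 := Real.add_one_le_exp p
    rw [hPp] at h1
    linarith
  have hP256 : 256 * R ≤ P := by linarith
  -- z
  set z := Real.sqrt (P / (256 * R)) with hz
  have hz1 : 1 ≤ z := by
    rw [hz]
    apply Real.le_sqrt_of_sq_le
    rw [one_pow, le_div_iff₀ (by positivity)]
    linarith
  have hz0 : 0 < z := by linarith
  have hzsq : z ^ 2 = P / (256 * R) := Real.sq_sqrt (by positivity)
  have hz4 : 4 * (16 * R / P) * z ^ 2 < 1 := by
    rw [hzsq]
    have : 4 * (16 * R / P) * (P / (256 * R)) = 1 / 4 := by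
      field_simp; norm_num
    rw [this]; norm_num
  have hlz : Real.log z ≤ p / 2 := by
    have h1 : 2 * Real.log z = Real.log (P / (256 * R)) := by
      rw [← hzsq, Real.log_pow]; norm_num
    have h2 : Real.log (P / (256 * R)) ≤ p := by
      rw [hp]
      apply Real.log_le_log (by positivity)
      apply div_le_self hP0.le
      linarith
    linarith
  have hlog2 := Real.log_two_gt_d9
  have hlog2' := Real.log_two_lt_d9
  have hly : 9 / 10 * p ≤ Real.log y := by
    have : 9 / 10 * p ≤ c * p := mul_le_mul_of_nonneg_right hc9 hp0.le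
    linarith
  have hzy : z ≤ y / 2 := by
    by_contra h
    push Not at h
    have h1 : Real.log (y / 2) ≤ Real.log z := Real.log_le_log (by positivity) h.le
    rw [Real.log_div hy.ne' (by norm_num)] at h1
    linarith
  -- LL
  set LL := 1 + Real.log (1 + p) with hLL
  have hLL0 : 0 ≤ LL := by
    have : 0 ≤ Real.log (1 + p) := Real.log_nonneg (by linarith)
    linarith
  have hLL3 : LL ≤ 3 * L := by
    have h1 : 1 + p ≤ Real.exp (L + 2) := by
      rw [Real.exp_add]
      have h2 : (3 : ℝ) ≤ Real.exp 2 := by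
        have := Real.add_one_le_exp (2 : ℝ)
        linarith
      have h3 : (1 : ℝ) ≤ Real.exp L := Real.one_le_exp hLpos.le
      have h4 : Real.exp L * 3 ≤ Real.exp L * Real.exp 2 :=
        mul_le_mul_of_nonneg_left h2 (Real.exp_pos L).le
      linarith
    have h2 := Real.log_le_log (by linarith) h1
    rw [Real.log_exp] at h2
    linarith
  -- n1
  set n1 := ⌊p / Real.log 2⌋₊ + 1 with hn1
  have hlog20 : 0 < Real.log 2 := by linarith
  have hn1a : P < 2 ^ n1 := by
    have h1 : p / Real.log 2 < (n1 : ℝ) := by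
      rw [hn1]; push_cast
      exact Nat.lt_floor_add_one _
    rw [div_lt_iff₀ hlog20] at h1
    have h2 : Real.exp p < Real.exp ((n1 : ℝ) * Real.log 2) := Real.exp_lt_exp.mpr h1
    rw [hPp] at h2
    have h3 : Real.exp ((n1 : ℝ) * Real.log 2) = 2 ^ n1 := by
      rw [Real.exp_nat_mul, Real.exp_log (by norm_num)]
    rwa [h3] at h2
  have hn1b : (n1 : ℝ) ≤ 2 * p := by
    have h1 : ((⌊p / Real.log 2⌋₊ : ℕ) : ℝ) ≤ p / Real.log 2 := Nat.floor_le (by positivity)
    have h2 : p / Real.log 2 ≤ 3 / 2 * p := by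
      rw [div_le_iff₀ hlog20]
      have h3 : 3 / 2 * p * (2 / 3) ≤ 3 / 2 * p * Real.log 2 :=
        mul_le_mul_of_nonneg_left (by linarith) (by positivity)
      linarith
    rw [hn1]; push_cast
    linarith
  have hn1c : (n1 : ℝ) ≤ 4 * Real.exp L := by linarith
  -- general facts on classes
  have hPa0 : ∀ a : ℕ, 0 < P / 2 ^ a := fun a => by positivity
  have hPaP : ∀ a : ℕ, P / 2 ^ a ≤ P := fun a =>
    div_le_self hP0.le (one_le_pow₀ (by norm_num))
  have hY1 : ∀ l : ℕ, 1 ≤ z * 2 ^ (l + 1) := fun l =>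
    one_le_mul_of_one_le_of_one_le hz1 (one_le_pow₀ (by norm_num))
  have hY4 : ∀ l : ℕ, 1 / 4 ≤ (16 * R / P) * (z * 2 ^ (l + 1)) ^ 2 := by
    intro l
    have h1 : (4 : ℝ) ≤ (2 ^ (l + 1)) ^ 2 := by
      have : (2 : ℝ) ≤ 2 ^ (l + 1) := by
        rw [pow_succ]
        have : (1 : ℝ) ≤ 2 ^ l := one_le_pow₀ (by norm_num)
        linarith
      have h2 := pow_le_pow_left₀ (by norm_num) this 2
      linarith
    have h2 : (16 * R / P) * (z * 2 ^ (l + 1)) ^ 2 = 1 / 16 * (2 ^ (l + 1)) ^ 2 := by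
      rw [mul_pow, hzsq]
      field_simp; norm_num
    rw [h2]; linarith
  set F0 := Ct * R ^ 2 with hF0
  have hF00 : 0 ≤ F0 := by positivity
  have hE4LL : 0 ≤ LL := hLL0
  set ε1 := C1 * R * F0 * Real.exp (-U) +
    C1 * Cs * R ^ 3 * LL * Real.exp (-(3 / 10 * (c1 * L))) with hε1
  have hε10 : 0 ≤ ε1 := by positivity
  set ε2 := 4 * F0 * Real.exp (-U) with hε2
  have hε20 : 0 ≤ ε2 := by positivity
  set e0 := C1 * R * LL * β0 * (4 / p) with he0
  have he00 : 0 ≤ e0 := by positivity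
  set e1 := C1 * R * LL * β1 / v with he1
  have he10 : 0 ≤ e1 := by positivity
  have hlogw : ∀ a : ℕ, w < P / 2 ^ a → 1 ≤ Real.log (P / 2 ^ a) := by
    intro a h
    have h1 := Real.log_le_log (Real.exp_pos _) h.le
    rw [Real.log_exp] at h1
    have h2 : 4 ≤ r := by
      have : 40 ≤ r := by
        rw [hr]; apply Real.le_sqrt_of_sq_le; norm_num; linarith
      linarith
    linarith
  have hmain := assemble hF (y := y) (P := P) (z := z) (w := w) (U := U) (v := v) (ε1 := ε1)
    (ε2 := ε2) (e0 := e0) (e1 := e1) (e2 := C2 * R * Real.exp (-(7 / 10 * r))) (n1 := n1)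
    hy hz1 hzy (by linarith) hn1a hU1 hε10 hε20 he00 he10 hpU
    (hsml k R St hF y P z hy hP256 hz1 hz hp1600 hly)
    (by
      intro a _ l _ hwa hcase
      set Y := z * 2 ^ (l + 1) with hY
      have hY0 : 0 < Y := by have := hY1 l; linarith
      have hPaX : X ≤ P / 2 ^ a := by linarith
      have hlPa := hlogw a hwa
      by_cases hG : Real.log Y - (p + Real.log (P / 2 ^ a)) / 2 ≤ -U ∨
        U ≤ Real.log Y - (p + Real.log (P / 2 ^ a)) / 2
      · have hc := hcls k R St hF y P z (P / 2 ^ a) Y F0 hy hP256 hz0 hz4 (by linarith) hlPa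
          (hY1 l) (hY4 l)
          (htriv k R St hF _ _ (by positivity) (by linarith))
          (htriv k R St hF _ _ (by positivity) (by linarith))
        have hex : C1 * R * F0 * Real.exp (-U) ≤ ε1 := by
          rw [hε1]
          have : 0 ≤ C1 * Cs * R ^ 3 * LL * Real.exp (-(3 / 10 * (c1 * L))) := by positivity
          linarith
        rcases hG with hG | hG
        · refine le_trans hc.2.1 (le_trans ?_ hex)
          apply mul_le_mul_of_nonneg_left _ (by positivity)
          exact Real.exp_le_exp.mpr hG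
        · refine le_trans hc.2.2 (le_trans ?_ hex)
          apply mul_le_mul_of_nonneg_left _ (by positivity)
          exact Real.exp_le_exp.mpr (by linarith)
      · push Not at hG
        have hv' : Real.log (P / 2 ^ a) < v := by
          rcases hcase with h | h | h
          · linarith
          · linarith
          · exact h
        have hlY : Real.log Y ≤ U + (p + v) / 2 := by linarith
        have hsm : ∀ y' : ℝ, 0 < y' → Real.log (y / Y) ≤ Real.log y' →
            Fn St y' (P / 2 ^ a) ≤ Cs * R ^ 2 * Real.log (P / 2 ^ a) *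
              Real.exp (-(3 / 10 * (c1 * L))) := by
          intro y' hy' hly'
          refine le_trans (hsmooth k R St hF y' (P / 2 ^ a) hy' (by linarith)) ?_
          apply mul_le_mul_of_nonneg_left _ (by positivity)
          apply Real.exp_le_exp.mpr
          rw [neg_le_neg_iff, le_div_iff₀ (by linarith)]
          rw [Real.log_div hy.ne' hY0.ne'] at hly'
          calc 3 / 10 * (c1 * L) * Real.log (P / 2 ^ a) ≤ 3 / 10 * (c1 * L) * v :=
                mul_le_mul_of_nonneg_left hv'.le (by positivity)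
            _ = 3 / 10 * p := by rw [← hvp]; ring
            _ ≤ Real.log y' := by linarith
        have hc := hcls k R St hF y P z (P / 2 ^ a) Y (Cs * R ^ 2 * Real.log (P / 2 ^ a) *
              Real.exp (-(3 / 10 * (c1 * L)))) hy hP256 hz0 hz4 (by linarith) hlPa
          (hY1 l) (hY4 l)
          (hsm _ (by positivity) (by
            apply Real.log_le_log (by positivity)
            apply div_le_div_of_nonneg_right _ hY0.le
            linarith))
          (hsm _ (by positivity) le_rfl)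
        refine le_trans hc.1 ?_
        have hex : C1 * Cs * R ^ 3 * LL * Real.exp (-(3 / 10 * (c1 * L))) ≤ ε1 := by
          rw [hε1]
          have : 0 ≤ C1 * R * F0 * Real.exp (-U) := by positivity
          linarith
        refine le_trans (le_of_eq ?_) hex
        have h5 : Real.log (P / 2 ^ a) ≠ 0 := by linarith
        rw [← hLL]
        field_simp)
    (by
      intro a _ l _ b _ hwa hG hab
      set Y := z * 2 ^ (l + 1) with hY
      have hY0 : 0 < Y := by have := hY1 l; linarith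
      have hPb : X ≤ P / 2 ^ b := by
        have h1 : P / 2 ^ a ≤ P / 2 ^ b := by
          have h2 : Real.log (P / 2 ^ a) ≤ Real.log (P / 2 ^ b) := by linarith
          exact (Real.log_le_log_iff (hPa0 a) (hPa0 b)).mp h2
        linarith
      have hfn := far_norm hF (y := y) (P := P) (z := z) (P' := P / 2 ^ a) (Y := Y)
        (P'' := P / 2 ^ b) (F := F0) hy hP256 (hPa0 a) (hPa0 b) hY0 hz0 hz4
        (htriv k R St hF _ _ (by have := hPa0 a; positivity) (by linarith))
        (htriv k R St hF _ _ (by have := hPa0 a; positivity) (by linarith))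
        (htriv k R St hF _ _ (by have := hPa0 a; positivity) (by linarith))
      refine le_trans hfn ?_
      rw [hε2, mul_assoc]
      apply mul_le_mul_of_nonneg_left _ (by positivity)
      rw [← Real.exp_add]
      apply Real.exp_le_exp.mpr
      linarith)
    (by
      intro a _ l _ hva hpa4
      set Y := z * 2 ^ (l + 1) with hY
      have hY0 : 0 < Y := by have := hY1 l; linarith
      have hPa : X ≤ P / 2 ^ a := by
        have h1 : Real.exp v ≤ P / 2 ^ a := by
          rw [← Real.exp_log (hPa0 a)]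
          exact Real.exp_le_exp.mpr hva
        linarith
      have hc := hcls k R St hF y P z (P / 2 ^ a) Y β0 hy hP256 hz0 hz4 (by linarith)
        (by linarith) (hY1 l) (hY4 l)
        (hyp0 _ _ (by positivity) (hPa0 a) hva (hPaP a))
        (hyp0 _ _ (by positivity) (hPa0 a) hva (hPaP a))
      refine le_trans hc.1 ?_
      rw [he0, ← hLL]
      rw [div_eq_mul_inv]
      apply mul_le_mul_of_nonneg_left _ (by positivity)
      rw [inv_le_comm₀ (by linarith) (by positivity), inv_div]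
      exact hpa4)
    (by
      intro a _ l _ hva hG h5
      set Y := z * 2 ^ (l + 1) with hY
      have hY0 : 0 < Y := by have := hY1 l; linarith
      have hPa : X ≤ P / 2 ^ a := by
        have h1 : Real.exp v ≤ P / 2 ^ a := by
          rw [← Real.exp_log (hPa0 a)]
          exact Real.exp_le_exp.mpr hva
        linarith
      have hG2 := abs_le.mp hG
      have hkey : (5 * c - 31 / 10) * Real.log (P / 2 ^ a) ≤ Real.log (y / Y) := by
        rw [Real.log_div hy.ne' hY0.ne']
        set pa := Real.log (P / 2 ^ a) with hpa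
        have h6 : (c - 1 / 2) * (5 * pa - 2 * U - 6 * Real.log 2) ≤ (c - 1 / 2) * p :=
          mul_le_mul_of_nonneg_left (by linarith) (by linarith)
        have h7 : (c - 1 / 2) * (2 * U + 6 * Real.log 2) ≤ L ^ 2 * (3 * U) := by
          apply mul_le_mul (by linarith) (by linarith) (by positivity) (by positivity)
        have h8 : L ^ 2 * (3 * U) + U ≤ 4 * K * L ^ 3 := by
          have h9 : U ≤ K * L ^ 3 := by
            rw [hU]
            apply mul_le_mul_of_nonneg_left _ (by linarith)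
            calc L = L * 1 := by ring
              _ ≤ L * L ^ 2 := mul_le_mul_of_nonneg_left (one_le_pow₀ hL1') hLpos.le
              _ = L ^ 3 := by ring
          calc L ^ 2 * (3 * U) + U = 3 * K * L ^ 3 + U := by rw [hU]; ring
            _ ≤ _ := by linarith
        have h10 : (c - 1 / 2) * (5 * pa - 2 * U - 6 * Real.log 2) =
          (5 * c - 5 / 2) * pa - (c - 1 / 2) * (2 * U + 6 * Real.log 2) := by ring
        have h11 : (5 * c - 31 / 10) * pa = (5 * c - 5 / 2) * pa - 3 / 5 * pa := by ring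
        have h12 : c * p - 1 / 2 * p = (c - 1 / 2) * p := by ring
        rw [h11]
        linarith
      have hc := hcls k R St hF y P z (P / 2 ^ a) Y β1 hy hP256 hz0 hz4 (by linarith)
        (by linarith) (hY1 l) (hY4 l)
        (hyp1 _ _ (by positivity) (hPa0 a) hva (hPaP a) (le_trans hkey (by
            apply Real.log_le_log (by positivity)
            apply div_le_div_of_nonneg_right _ hY0.le
            linarith)))
        (hyp1 _ _ (by positivity) (hPa0 a) hva (hPaP a) hkey)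
      refine le_trans hc.1 ?_
      rw [he1, ← hLL]
      apply div_le_div_of_nonneg_left (by positivity) hv0 hva)
  refine le_trans hmain ?_
  have hRC : 0 ≤ R := by linarith
  have hR2 : R ^ 2 ≤ C0 ^ 2 * L ^ 2 := by
    rw [← mul_pow]; exact pow_le_pow_left₀ hRC hRL 2
  have hR3 : R ^ 3 ≤ C0 ^ 3 * L ^ 3 := by
    rw [← mul_pow]; exact pow_le_pow_left₀ hRC hRL 3
  -- (t1)
  have t1 : C2 * R * Real.exp (-(7 / 10 * r)) ≤ 1 / 4 * Real.exp (-A * L) := by
    set t := 4 * C2 * C0 * L with ht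
    have ht0 : 0 < t := by positivity
    have h1 : A * L + t ≤ 7 / 10 * r := by
      have h2 : 2 * (A * L + t) ≤ r := by
        calc 2 * (A * L + t) = 2 * (A + 4 * C2 * C0) * L := by rw [ht]; ring
          _ ≤ E4 := he
          _ ≤ r := hE4r
      have h3 : 0 ≤ A * L + t := by positivity
      linarith
    have h2 : Real.exp (-(7 / 10 * r)) ≤ Real.exp (-A * L) * Real.exp (-t) := by
      rw [← Real.exp_add]
      apply Real.exp_le_exp.mpr
      linarith
    have h3 : t * Real.exp (-t) ≤ 1 := by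
      rw [Real.exp_neg]
      rw [← div_eq_mul_inv, div_le_one (Real.exp_pos t)]
      have := Real.add_one_le_exp t
      linarith
    have h4 : C2 * R ≤ t / 4 := by
      have : C2 * R ≤ C2 * (C0 * L) := mul_le_mul_of_nonneg_left hRL (by linarith)
      rw [ht]; linarith
    calc C2 * R * Real.exp (-(7 / 10 * r)) ≤ (t / 4) * (Real.exp (-A * L) * Real.exp (-t)) := by
          apply mul_le_mul h4 h2 (Real.exp_pos _).le (by positivity)
      _ = 1 / 4 * Real.exp (-A * L) * (t * Real.exp (-t)) := by ring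
      _ ≤ 1 / 4 * Real.exp (-A * L) * 1 := by
          apply mul_le_mul_of_nonneg_left h3 (by positivity)
      _ = _ := by ring
  -- exponentials
  have hexpU : Real.exp (-U) = Real.exp (-A * L) * Real.exp (-(10 * L)) := by
    rw [← Real.exp_add]; congr 1; rw [hU, hK]; ring
  have hexpc : Real.exp (-(3 / 10 * (c1 * L))) ≤ Real.exp (-A * L) * Real.exp (-(7 * L)) := by
    rw [← Real.exp_add]
    apply Real.exp_le_exp.mpr
    have h1 : 0 ≤ A * L := by positivity
    have h2 : 3 / 10 * (c1 * L) = 6 / 5 * (A * L) + 36 / 5 * L := by rw [hc1]; ring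
    rw [h2]
    linarith
  have hn12 : (n1 : ℝ) ^ 2 ≤ 16 * Real.exp (2 * L) := by
    have h1 := pow_le_pow_left₀ (by positivity) hn1c 2
    have h2 : (4 * Real.exp L) ^ 2 = 16 * Real.exp (2 * L) := by
      rw [mul_pow, ← Real.exp_nat_mul]; norm_num
    linarith
  have hn13 : (n1 : ℝ) ^ 3 ≤ 64 * Real.exp (3 * L) := by
    have h1 := pow_le_pow_left₀ (by positivity) hn1c 3
    have h2 : (4 * Real.exp L) ^ 3 = 64 * Real.exp (3 * L) := by
      rw [mul_pow, ← Real.exp_nat_mul]; norm_num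
    linarith
  have hL34 : L ^ 3 ≤ L ^ 4 := pow_le_pow_right₀ hL1' (by norm_num)
  -- (t2)
  have t2 : (n1 : ℝ) ^ 2 * ε1 ≤ 1 / 4 * Real.exp (-A * L) := by
    have h1 : ε1 ≤ (C1 * Ct * C0 ^ 3 + 3 * C1 * Cs * C0 ^ 3) * L ^ 4 *
        (Real.exp (-A * L) * Real.exp (-(7 * L))) := by
      have h2 : C1 * R * F0 * Real.exp (-U) ≤ C1 * Ct * C0 ^ 3 * L ^ 4 *
          (Real.exp (-A * L) * Real.exp (-(7 * L))) := by
        have h3 : Real.exp (-U) ≤ Real.exp (-A * L) * Real.exp (-(7 * L)) := by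
          rw [hexpU]
          apply mul_le_mul_of_nonneg_left _ (Real.exp_pos _).le
          apply Real.exp_le_exp.mpr; linarith
        apply mul_le_mul _ h3 (Real.exp_pos _).le (by positivity)
        calc C1 * R * F0 = C1 * Ct * R ^ 3 := by rw [hF0]; ring
          _ ≤ C1 * Ct * (C0 ^ 3 * L ^ 3) := mul_le_mul_of_nonneg_left hR3 (by positivity)
          _ ≤ C1 * Ct * (C0 ^ 3 * L ^ 4) := by
              apply mul_le_mul_of_nonneg_left _ (by positivity)
              apply mul_le_mul_of_nonneg_left hL34 (by positivity)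
          _ = _ := by ring
      have h4 : C1 * Cs * R ^ 3 * LL * Real.exp (-(3 / 10 * (c1 * L))) ≤
          3 * C1 * Cs * C0 ^ 3 * L ^ 4 * (Real.exp (-A * L) * Real.exp (-(7 * L))) := by
        apply mul_le_mul _ hexpc (Real.exp_pos _).le (by positivity)
        calc C1 * Cs * R ^ 3 * LL ≤ C1 * Cs * (C0 ^ 3 * L ^ 3) * (3 * L) := by
              apply mul_le_mul _ hLL3 hLL0 (by positivity)
              exact mul_le_mul_of_nonneg_left hR3 (by positivity)
          _ = _ := by ring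
      calc ε1 = C1 * R * F0 * Real.exp (-U) +
            C1 * Cs * R ^ 3 * LL * Real.exp (-(3 / 10 * (c1 * L))) := hε1
        _ ≤ C1 * Ct * C0 ^ 3 * L ^ 4 * (Real.exp (-A * L) * Real.exp (-(7 * L))) +
            3 * C1 * Cs * C0 ^ 3 * L ^ 4 * (Real.exp (-A * L) * Real.exp (-(7 * L))) :=
            add_le_add h2 h4
        _ = _ := by ring
    have h5 : E4 * Real.exp (2 * L) * Real.exp (-(7 * L)) ≤ 1 := by
      rw [hE4, ← Real.exp_add, ← Real.exp_add]
      apply Real.exp_le_one_iff.mpr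
      linarith
    calc (n1 : ℝ) ^ 2 * ε1 ≤ (16 * Real.exp (2 * L)) *
          ((C1 * Ct * C0 ^ 3 + 3 * C1 * Cs * C0 ^ 3) * L ^ 4 *
            (Real.exp (-A * L) * Real.exp (-(7 * L)))) := by
          apply mul_le_mul hn12 h1 hε10 (by positivity)
      _ = 1 / 4 * Real.exp (-A * L) * (((64 * C1 * C0 ^ 3 * Ct + 192 * C1 * Cs * C0 ^ 3) * L ^ 4) *
            Real.exp (2 * L) * Real.exp (-(7 * L))) := by ring
      _ ≤ 1 / 4 * Real.exp (-A * L) * (E4 * Real.exp (2 * L) * Real.exp (-(7 * L))) := by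
          apply mul_le_mul_of_nonneg_left _ (by positivity)
          apply mul_le_mul_of_nonneg_right _ (Real.exp_pos _).le
          exact mul_le_mul_of_nonneg_right hf (Real.exp_pos _).le
      _ ≤ 1 / 4 * Real.exp (-A * L) * 1 := mul_le_mul_of_nonneg_left h5 (by positivity)
      _ = _ := by ring
  -- (t3)
  have t3 : (n1 : ℝ) ^ 3 * ε2 ≤ 1 / 4 * Real.exp (-A * L) := by
    have h1 : ε2 ≤ 4 * Ct * C0 ^ 2 * L ^ 2 * (Real.exp (-A * L) * Real.exp (-(10 * L))) := by
      rw [hε2, hexpU]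
      apply mul_le_mul_of_nonneg_right _ (by positivity)
      calc 4 * F0 = 4 * Ct * R ^ 2 := by rw [hF0]; ring
        _ ≤ 4 * Ct * (C0 ^ 2 * L ^ 2) := mul_le_mul_of_nonneg_left hR2 (by positivity)
        _ = _ := by ring
    have h5 : E4 * Real.exp (3 * L) * Real.exp (-(10 * L)) ≤ 1 := by
      rw [hE4, ← Real.exp_add, ← Real.exp_add]
      apply Real.exp_le_one_iff.mpr
      linarith
    calc (n1 : ℝ) ^ 3 * ε2 ≤ (64 * Real.exp (3 * L)) *
          (4 * Ct * C0 ^ 2 * L ^ 2 * (Real.exp (-A * L) * Real.exp (-(10 * L)))) := by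
          apply mul_le_mul hn13 h1 hε20 (by positivity)
      _ = 1 / 4 * Real.exp (-A * L) * ((1024 * Ct * C0 ^ 2 * L ^ 2) *
            Real.exp (3 * L) * Real.exp (-(10 * L))) := by ring
      _ ≤ 1 / 4 * Real.exp (-A * L) * (E4 * Real.exp (3 * L) * Real.exp (-(10 * L))) := by
          apply mul_le_mul_of_nonneg_left _ (by positivity)
          apply mul_le_mul_of_nonneg_right _ (Real.exp_pos _).le
          exact mul_le_mul_of_nonneg_right hg (Real.exp_pos _).le
      _ ≤ 1 / 4 * Real.exp (-A * L) * 1 := mul_le_mul_of_nonneg_left h5 (by positivity)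
      _ = _ := by ring
  have hC1RLL : C1 * R * LL ≤ 3 * C1 * C0 * L ^ 2 := by
    calc C1 * R * LL ≤ C1 * (C0 * L) * (3 * L) := by
          apply mul_le_mul _ hLL3 hLL0 (by positivity)
          exact mul_le_mul_of_nonneg_left hRL (by positivity)
      _ = _ := by ring
  have hL8a : 1536 * K ^ 2 * C1 * C0 ≤ L := by
    have : 0 ≤ 24 * K * C1 * C0 * c1 := by positivity
    linarith
  have hL8b : 24 * K * C1 * C0 * c1 ≤ L := by
    have : 0 ≤ 1536 * K ^ 2 * C1 * C0 := by positivity
    linarith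
  -- (t4)
  have t4 : 128 * U ^ 2 * e0 ≤ L ^ 5 * (Real.exp (-(1 / 2) * L) * β0) := by
    have h1 : 1 / p ≤ Real.exp (-(1 / 2) * L) := by
      rw [show -(1 / 2) * L = -(L / 2) by ring, Real.exp_neg, one_div]
      apply inv_anti₀ (Real.exp_pos _)
      refine le_trans (le_of_eq ?_) hE4p2
      rw [hE4, ← Real.exp_nat_mul]
      congr 1; push_cast; ring
    calc 128 * U ^ 2 * e0 = (512 * K ^ 2 * L ^ 2) * (C1 * R * LL) * (β0 * (1 / p)) := by
          rw [he0, hU]; ring
      _ ≤ (512 * K ^ 2 * L ^ 2) * (3 * C1 * C0 * L ^ 2) * (β0 * Real.exp (-(1 / 2) * L)) := by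
          apply mul_le_mul _ _ (by positivity) (by positivity)
          · exact mul_le_mul_of_nonneg_left hC1RLL (by positivity)
          · exact mul_le_mul_of_nonneg_left h1 hβ0
      _ = (1536 * K ^ 2 * C1 * C0) * (L ^ 4 * (β0 * Real.exp (-(1 / 2) * L))) := by ring
      _ ≤ L * (L ^ 4 * (β0 * Real.exp (-(1 / 2) * L))) := by
          apply mul_le_mul_of_nonneg_right hL8a (by positivity)
      _ = _ := by ring
  -- (t5)
  have t5 : 4 * U * n1 * e1 ≤ L ^ 5 * β1 := by
    calc 4 * U * n1 * e1 = (4 * K * L) * n1 * ((C1 * R * LL) * (β1 / v)) := by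
          rw [he1, hU]; ring
      _ ≤ (4 * K * L) * (2 * p) * ((3 * C1 * C0 * L ^ 2) * (β1 / v)) := by
          apply mul_le_mul _ _ (by positivity) (by positivity)
          · exact mul_le_mul_of_nonneg_left hn1b (by positivity)
          · exact mul_le_mul_of_nonneg_right hC1RLL (by positivity)
      _ = (24 * K * C1 * C0) * L ^ 3 * β1 * (p / v) := by ring
      _ = (24 * K * C1 * C0 * c1) * (L ^ 4 * β1) := by
          have : p / v = c1 * L := by rw [← hvp]; field_simp
          rw [this]; ring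
      _ ≤ L * (L ^ 4 * β1) := by
          apply mul_le_mul_of_nonneg_right hL8b (by positivity)
      _ = _ := by ring
  have hA0 : 0 < Real.exp (-A * L) := Real.exp_pos _
  rw [mul_add]
  linarith

theorem step (A C0 : ℝ) (hA : 1 ≤ A) (hC0 : 1 ≤ C0) : ∃ c1 c3 X0 : ℝ, 1 ≤ c1 ∧ 0 ≤ c3 ∧
    ∀ x : ℝ, X0 ≤ x → ∀ (k : ℕ) (R : ℝ) (St : ℕ → ℕ → Prop), Fam k R St →
    R ≤ C0 * Real.log (Real.log x) →
    ∀ P c β0 β1 : ℝ, Real.exp ((Real.log x) ^ (3 / 4 : ℝ)) ≤ P → P ≤ 2 * x →
    9 / 10 ≤ c → c ≤ (Real.log (Real.log x)) ^ 2 → 0 ≤ β0 → 0 ≤ β1 →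
    (∀ y' P' : ℝ, 0 < y' → 0 < P' →
      Real.log P / (c1 * Real.log (Real.log x)) ≤ Real.log P' → P' ≤ P →
      Fn St y' P' ≤ β0) →
    (∀ y' P' : ℝ, 0 < y' → 0 < P' →
      Real.log P / (c1 * Real.log (Real.log x)) ≤ Real.log P' → P' ≤ P →
      (5 * c - 31 / 10) * Real.log P' ≤ Real.log y' → Fn St y' P' ≤ β1) →
    ∀ y : ℝ, 0 < y → c * Real.log P ≤ Real.log y →
      Fn St y P ≤ (Real.log x) ^ (-A) +
        (Real.log (Real.log x)) ^ c3 * ((Real.log x) ^ (-(1 / 2) : ℝ) * β0 + β1) := by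
  obtain ⟨c1, L0, hc1, hL0, h⟩ := step_core A C0 hA hC0
  refine ⟨c1, 5, Real.exp (Real.exp L0), hc1, by norm_num, ?_⟩
  intro x hx k R St hF hRL P c β0 β1 hPl hPu hc9 hcL hβ0 hβ1 hyp0 hyp1 y hy hcy
  have hx0 : 0 < x := lt_of_lt_of_le (Real.exp_pos _) hx
  have hlx : Real.exp L0 ≤ Real.log x := by
    have := Real.log_le_log (Real.exp_pos _) hx
    rwa [Real.log_exp] at this
  have hlx0 : 0 < Real.log x := lt_of_lt_of_le (Real.exp_pos _) hlx
  set L := Real.log (Real.log x) with hL
  have hLL0 : L0 ≤ L := by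
    have := Real.log_le_log (Real.exp_pos _) hlx
    rwa [Real.log_exp] at this
  have hexpL : Real.exp L = Real.log x := Real.exp_log hlx0
  have hrp : ∀ t : ℝ, (Real.log x) ^ t = Real.exp (t * L) := by
    intro t
    rw [Real.rpow_def_of_pos hlx0, ← hL, mul_comm]
  have hP0 : 0 < P := lt_of_lt_of_le (Real.exp_pos _) hPl
  have hlP : Real.log P ≤ 2 * Real.exp L := by
    have h1 := Real.log_le_log hP0 hPu
    rw [Real.log_mul (by norm_num) hx0.ne', ← hexpL] at h1
    have h2 := Real.log_two_lt_d9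
    have h3 : (1 : ℝ) ≤ Real.exp L := Real.one_le_exp (by linarith)
    linarith
  rw [hrp] at hPl
  have hmain := h L hLL0 k R St hF hRL P c β0 β1 hPl hlP hc9 hcL hβ0 hβ1 hyp0 hyp1 y hy hcy
  rw [hrp, hrp]
  have h5 : L ^ (5 : ℝ) = L ^ 5 := by
    rw [show (5 : ℝ) = ((5 : ℕ) : ℝ) by norm_num, Real.rpow_natCast]
  rw [h5]
  exact hmain

end Pool.Agent.H95R2.Leh
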