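import Pool.Agent.H95R2.Leh.Defs

set_option autoImplicit false

/-! NEVER import this file: statements with sorry.  Copy the statement you prove. -/

namespace Pool.Agent.H95R2.Leh

open Finset

/-! ## Module TOT (file Tot.lean) -/

theorem tot_lower : ∃ C : ℝ, 1 ≤ C ∧ ∀ n : ℕ, 1 ≤ n →
    (n : ℝ) / Nat.totient n ≤ C * (1 + Real.log (1 + Real.log n)) := by sorry

/-! ## Module SIEVE (file ApSieve.lean) -/

open Classical in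
theorem ap_sieve : ∃ C : ℝ, 1 ≤ C ∧ ∀ a q N : ℕ, 1 ≤ q → 2 ≤ N →
    ((((Finset.range N).filter
      (fun i => ∀ p : ℕ, p.Prime → (p : ℝ) ^ 8 ≤ N → ¬ p ∣ a + i * q)).card : ℕ) : ℝ) ≤
      C * ((q : ℝ) / Nat.totient q) * N / Real.log N := by sorry

open Classical in
theorem primes_dyadic : ∃ C : ℝ, 1 ≤ C ∧ ∀ P : ℝ, 2 ≤ P →
    ((((Finset.Icc 1 ⌊P⌋₊).filter (fun p : ℕ => p.Prime ∧ P / 2 < (p : ℝ))).card : ℕ) : ℝ) ≤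
      C * P / Real.log P := by sorry

/-! ## Module FAREY (file Farey.lean) -/

theorem farey_unique {k N Q Q' : ℕ} {η z : ℝ} (hN : 0 < N)
    (hk : (N : ℝ) ≤ 2 * (k * Nat.totient N)) (hη : 0 < η) (hz : 4 * η * z ^ 2 < 1)
    (h0 : 1 ≤ Q) (h0' : 1 ≤ Q') (hQ : Near k N η Q) (hQ' : Near k N η Q')
    (h1 : (Q : ℝ) ≤ z) (h2 : (Q' : ℝ) ≤ z) : Q = Q' := by sorry

theorem farey_count {k N : ℕ} {η Y : ℝ} (hN : 0 < N)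
    (hk : (N : ℝ) ≤ 2 * (k * Nat.totient N)) (hη : 0 < η) (hY : 1 ≤ Y) (S : Finset ℕ)
    (hS : ∀ Q ∈ S, 1 ≤ Q ∧ (Q : ℝ) ≤ Y ∧ Near k N η Q) :
    (S.card : ℝ) ≤ 1 + 4 * η * Y ^ 2 := by sorry

/-! ## Module LAT (file Lat.lean) -/

theorem rough_count : ∃ C : ℝ, 1 ≤ C ∧ ∀ (k N : ℕ) (η Y w : ℝ) (S : Finset ℕ), 0 < N →
    (N : ℝ) ≤ 2 * (k * Nat.totient N) → (k * Nat.totient N : ℝ) ≤ 3 / 2 * N →
    0 < η → η ≤ 1 / 16 → 1 ≤ Y → 1 ≤ η * Y ^ 2 → 0 < w → 100 * (η * Y ^ 2) ≤ w ^ 2 →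
    (∀ Q ∈ S, Y / 2 < (Q : ℝ) ∧ (Q : ℝ) ≤ Y ∧ Near k N η Q ∧
      ∀ p : ℕ, p.Prime → p ∣ Q → w ≤ (p : ℝ)) →
    (S.card : ℝ) ≤ 1 + C * (η * Y ^ 2) * (1 + Real.log (1 + Real.log (1 / η))) /
      Real.log (2 + η * Y ^ 2) := by sorry

/-! ## Module SEG (file Seg.lean) -/

theorem seg_mul_upp {D s : ℕ} (hD : Squarefree D) : seg D s * upp D s = D := by sorry

theorem exists_split {D : ℕ} (hD : Squarefree D) {z : ℝ} (hz : 1 ≤ z) (hzD : z < D) :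
    ∃ s : ℕ, s.Prime ∧ s ∣ D ∧ z < (upp D s : ℝ) ∧ (upp D s : ℝ) ≤ z * s := by sorry

/-- a state of a `Fam` satisfies `Near` for each of its factorisations -/
theorem near_of_state {k : ℕ} {R : ℝ} {St : ℕ → ℕ → Prop} (hF : Fam k R St) {D q N Q : ℕ}
    {P : ℝ} (hD : St D q) (hq : P / 2 < q) (hP : 32 * R ≤ P) (hDNQ : D = N * Q) :
    Near k N (16 * R / P) Q := by sorry

/-- lower bound for `k φ(N)` for every divisor `N` of a state -/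
theorem tot_of_state {k : ℕ} {R : ℝ} {St : ℕ → ℕ → Prop} (hF : Fam k R St) {D q N : ℕ}
    (hD : St D q) (hq : 16 * R ≤ q) (hN : N ∣ D) : (N : ℝ) ≤ 2 * (k * Nat.totient N) := by sorry

/-! ## Module DENSE (file Dense.lean) -/

theorem dense {k : ℕ} {R : ℝ} {St : ℕ → ℕ → Prop} (hF : Fam k R St) {D q : ℕ} (h : St D q)
    {z : ℝ} (hz : 1 ≤ z) (hzD : z ≤ D) :
    ∃ d : ℕ, d ∣ D ∧ z / (16 * R) < (d : ℝ) ∧ (d : ℝ) ≤ z := by sorry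

theorem Fn_zero {k : ℕ} {R : ℝ} {St : ℕ → ℕ → Prop} (hF : Fam k R St) {y P : ℝ}
    (hP : 32 * R ≤ P) (h : y ≤ P / (16 * R)) : Fn St y P = 0 := by sorry

theorem Fn_triv : ∃ C : ℝ, 1 ≤ C ∧ ∀ (k : ℕ) (R : ℝ) (St : ℕ → ℕ → Prop), Fam k R St →
    ∀ y P : ℝ, 0 < y → C * R ≤ P → Fn St y P ≤ C * R ^ 2 := by sorry

theorem Fn_smooth : ∃ C : ℝ, 1 ≤ C ∧ ∀ (k : ℕ) (R : ℝ) (St : ℕ → ℕ → Prop), Fam k R St →
    ∀ y P : ℝ, 0 < y → C * R ≤ P →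
      Fn St y P ≤ C * R ^ 2 * Real.log P * Real.exp (-(Real.log y / Real.log P)) := by sorry

/-! ## Module CLS (file Cls.lean) -/

theorem cls_farey {k : ℕ} {R : ℝ} {St : ℕ → ℕ → Prop} (hF : Fam k R St) {y P z P' Y : ℝ}
    (hy : 0 < y) (hP : 256 * R ≤ P) (hP' : 32 * R ≤ P') (hY : 1 ≤ Y) :
    ((Cls St y P z P' Y).card : ℝ) ≤
      (((DD St (2 * y / Y) P').card : ℝ) + (DD St (y / Y) P').card) *
        (1 + 4 * (16 * R / P) * Y ^ 2) := by sorry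

theorem cls_rough : ∃ C : ℝ, 1 ≤ C ∧ ∀ (k : ℕ) (R : ℝ) (St : ℕ → ℕ → Prop), Fam k R St →
    ∀ y P z P' Y : ℝ, 0 < y → 256 * R ≤ P → 32 * R ≤ P' → 1 ≤ Y → 1 ≤ (16 * R / P) * Y ^ 2 →
    400 * ((16 * R / P) * Y ^ 2) ≤ P' ^ 2 →
    ((Cls St y P z P' Y).card : ℝ) ≤
      (((DD St (2 * y / Y) P').card : ℝ) + (DD St (y / Y) P').card) *
        (1 + C * ((16 * R / P) * Y ^ 2) * (1 + Real.log (1 + Real.log P)) /
          Real.log (2 + (16 * R / P) * Y ^ 2)) := by sorry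

theorem cls_prime : ∃ C : ℝ, 1 ≤ C ∧ ∀ (k : ℕ) (R : ℝ) (St : ℕ → ℕ → Prop), Fam k R St →
    ∀ y P z P' Y : ℝ, 0 < y → 256 * R ≤ P → 2 ≤ P' → 0 < Y → 0 < z →
    4 * (16 * R / P) * z ^ 2 < 1 →
    ((Cls St y P z P' Y).card : ℝ) ≤
      (((DD St (2 * y / Y) P').card : ℝ) + (DD St (y / Y) P').card) *
        (C * P' / Real.log P') := by sorry

theorem far_card {k : ℕ} {R : ℝ} {St : ℕ → ℕ → Prop} (hF : Fam k R St)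
    {y P z P' Y P'' : ℝ} (hy : 0 < y) (hP : 256 * R ≤ P) (hP' : 0 < P') (hY : 0 < Y) (hz : 0 < z)
    (hz4 : 4 * (16 * R / P) * z ^ 2 < 1) :
    ((Far St y P z P' Y P'').card : ℝ) ≤ ((DD St (2 * y * P' / Y) P'').card : ℝ) +
      (DD St (y * P' / Y) P'').card + (DD St (y * P' / (2 * Y)) P'').card := by sorry

theorem sml_card : ∃ C : ℝ, 1 ≤ C ∧ ∀ (k : ℕ) (R : ℝ) (St : ℕ → ℕ → Prop), Fam k R St →
    ∀ y P z w : ℝ, 0 < y → 256 * R ≤ P → 1 ≤ z → 4 * (16 * R / P) * z ^ 2 < 1 → 3000 ≤ w →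
    2 * z ≤ y →
    ((Sml St y P z w).card : ℝ) ≤
      C * (y * w / z) * Real.log w * Real.exp (-(Real.log (y / (2 * z)) / Real.log w)) := by sorry

/-! ## Module STEP (file Step.lean) -/

theorem step (A C0 : ℝ) (hA : 1 ≤ A) (hC0 : 1 ≤ C0) : ∃ c1 c3 X0 : ℝ, 1 ≤ c1 ∧ 0 ≤ c3 ∧
    ∀ x : ℝ, X0 ≤ x → ∀ (k : ℕ) (R : ℝ) (St : ℕ → ℕ → Prop), Fam k R St →
    R ≤ C0 * Real.log (Real.log x) →
    ∀ P c β0 β1 : ℝ, Real.exp ((Real.log x) ^ (3 / 4 : ℝ)) ≤ P → P ≤ 2 * x →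
    9 / 10 ≤ c → c ≤ (Real.log (Real.log x)) ^ 2 → 0 ≤ β0 → 0 ≤ β1 →
    (∀ y' P' : ℝ, 0 < y' → Real.log P / (c1 * Real.log (Real.log x)) ≤ Real.log P' → P' ≤ P →
      Fn St y' P' ≤ β0) →
    (∀ y' P' : ℝ, 0 < y' → Real.log P / (c1 * Real.log (Real.log x)) ≤ Real.log P' → P' ≤ P →
      (5 * c - 31 / 10) * Real.log P' ≤ Real.log y' → Fn St y' P' ≤ β1) →
    ∀ y : ℝ, 0 < y → c * Real.log P ≤ Real.log y →
      Fn St y P ≤ (Real.log x) ^ (-A) +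
        (Real.log (Real.log x)) ^ c3 * ((Real.log x) ^ (-(1 / 2) : ℝ) * β0 + β1) := by sorry

/-! ## Module ITER (file Iter.lean) -/

theorem iterate (A c1 c2 c3 : ℝ) (hA : 1 ≤ A) (hc1 : 1 ≤ c1) (hc2 : 1 ≤ c2) (hc3 : 0 ≤ c3) :
    ∃ X0 : ℝ, ∀ x : ℝ, X0 ≤ x → ∀ F : ℝ → ℝ → ℝ,
    (∀ y P : ℝ, 0 < y → Real.exp ((Real.log x) ^ (3 / 4 : ℝ)) ≤ P → P ≤ 2 * x →
      F y P ≤ (Real.log (Real.log x)) ^ c3) →
    (∀ y P : ℝ, 0 < y → Real.exp ((Real.log x) ^ (3 / 4 : ℝ)) ≤ P → P ≤ 2 * x →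
      Real.log y < 9 / 10 * Real.log P → F y P = 0) →
    (∀ y P : ℝ, 0 < y → Real.exp ((Real.log x) ^ (3 / 4 : ℝ)) ≤ P → P ≤ 2 * x →
      c2 * Real.log (Real.log x) * Real.log P ≤ Real.log y → F y P ≤ (Real.log x) ^ (-(A + 1))) →
    (∀ P c β0 β1 : ℝ, Real.exp ((Real.log x) ^ (3 / 4 : ℝ)) ≤ P → P ≤ 2 * x →
      9 / 10 ≤ c → c ≤ (Real.log (Real.log x)) ^ 2 → 0 ≤ β0 → 0 ≤ β1 →
      (∀ y' P' : ℝ, 0 < y' → Real.log P / (c1 * Real.log (Real.log x)) ≤ Real.log P' → P' ≤ P →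
        F y' P' ≤ β0) →
      (∀ y' P' : ℝ, 0 < y' → Real.log P / (c1 * Real.log (Real.log x)) ≤ Real.log P' → P' ≤ P →
        (5 * c - 31 / 10) * Real.log P' ≤ Real.log y' → F y' P' ≤ β1) →
      ∀ y : ℝ, 0 < y → c * Real.log P ≤ Real.log y →
        F y P ≤ (Real.log x) ^ (-(A + 1)) +
          (Real.log (Real.log x)) ^ c3 * ((Real.log x) ^ (-(1 / 2) : ℝ) * β0 + β1)) →
    ∀ y : ℝ, 0 < y → F y (2 * x) ≤ (Real.log x) ^ (-A) := by sorry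

/-! ## Module FAM (file FamLeh.lean) -/

theorem leh_basic {n : ℕ} (h : Leh n) :
    Squarefree n ∧ Odd n ∧ Nat.Coprime n (Nat.totient n) := by sorry

theorem leh_k {n : ℕ} (h : Leh n) : ∃ k : ℕ, 2 ≤ k ∧ n - 1 = k * Nat.totient n ∧
    k ≤ n.primeFactors.card + 1 := by sorry

theorem fam_leh (x k : ℕ) (R : ℝ) (hk : 1 ≤ k) (hR : 1 ≤ R) : Fam k R (StL x k R) := by sorry

/-! ## Module OMEGA (file Omega.lean) -/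

open Classical in
theorem omega_large (A : ℝ) : ∃ C0 C : ℝ, 1 ≤ C0 ∧ 1 ≤ C ∧ ∀ x : ℕ, 16 ≤ x →
    ((((Finset.Icc 1 x).filter (fun n => Leh n ∧ x < 2 * n ∧
      C0 * Real.log (Real.log x) < (n.primeFactors.card : ℝ))).card : ℕ) : ℝ) ≤
      C * Real.sqrt x / (Real.log x) ^ A := by sorry

/-! ## Module FINAL -/

open Classical in
theorem lehmer_count (A : ℝ) : ∃ C : ℝ, 0 < C ∧ ∀ x : ℕ, 2 ≤ x →
    ((((Finset.Icc 1 x).filter Leh).card : ℕ) : ℝ) ≤ C * Real.sqrt x / (Real.log x) ^ A := by sorry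

end Pool.Agent.H95R2.Leh
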